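import Pool.Agent.S7C.Opr

/-!
# S7 (MP_13664e_an), block C: conditional expectation on `K`, Bessel inequality (C9, C10; helper69)
-/

set_option autoImplicit false

namespace Pool.Agent.S7C

open MeasureTheory Filter Topology ENNReal
open Pool.Agent.S7 (itc Dq Kq rt Vq)
open scoped InnerProductSpace

section ce

variable {K Z : Type*} [Group K] [MeasurableSpace K] [MeasurableSpace Z] {u : K} {m : Measure K}
  [IsProbabilityMeasure m] {M : Measure Z} {S : Z → Z} {y : Z → K} {s l : Z → ℝ}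

/-! ## row e1: C9 -/

-- BEGIN e1

private lemma e1_map (h : Sys u m M S y s l) {J : Set ℝ} (hJ : MeasurableSet J) :
    (M.restrict (s ⁻¹' J)).map y = volume J • m := by
  ext B hB
  rw [Measure.map_apply h.my hB, Measure.restrict_apply (h.my hB), Measure.smul_apply, smul_eq_mul]
  have h1 := h.lint hJ (g := B.indicator 1) (measurable_one.indicator hB)
  rw [lintegral_indicator_one hB] at h1
  rw [← h1, ← lintegral_indicator_one ((h.my hB).inter (h.ms hJ)),
    ← lintegral_indicator (h.ms hJ)]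
  refine lintegral_congr fun z => ?_
  by_cases hz : s z ∈ J <;> by_cases hz' : y z ∈ B <;> simp [Set.indicator, hz, hz']

private lemma e1_nn (h : Sys u m M S y s l) {J : Set ℝ} (hJ : MeasurableSet J)
    (hJf : volume J ≠ ∞) {g : Z → ℝ≥0∞} (_hg : Measurable g) (hg1 : ∀ z, g z ≤ 1) :
    ∃ ρ : K → ℝ≥0∞, Measurable ρ ∧ (∀ x, ρ x ≤ volume J) ∧
      ((M.restrict (s ⁻¹' J)).withDensity g).map y = m.withDensity ρ := by
  set ν := ((M.restrict (s ⁻¹' J)).withDensity g).map y with hν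
  have hle : ν ≤ volume J • m := by
    rw [← e1_map h hJ, hν]
    refine Measure.map_mono ?_ h.my
    calc (M.restrict (s ⁻¹' J)).withDensity g ≤ (M.restrict (s ⁻¹' J)).withDensity 1 :=
          withDensity_mono (ae_of_all _ hg1)
      _ = M.restrict (s ⁻¹' J) := withDensity_one
  have hac : ν ≪ m := by
    intro B hB
    have h1 := hle B
    rw [Measure.smul_apply, hB, smul_zero] at h1
    exact nonpos_iff_eq_zero.1 h1
  have : IsFiniteMeasure ν := ⟨lt_of_le_of_lt (hle Set.univ) (by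
    rw [Measure.smul_apply, measure_univ, smul_eq_mul, mul_one]
    exact lt_of_le_of_ne le_top hJf)⟩
  have h2 : m.withDensity (ν.rnDeriv m) = ν := Measure.withDensity_rnDeriv_eq ν m hac
  have h3 : ν.rnDeriv m ≤ᵐ[m] fun _ => volume J := by
    refine ae_le_of_forall_setLIntegral_le_of_sigmaFinite (Measure.measurable_rnDeriv ν m)
      fun B hB _ => ?_
    rw [← withDensity_apply _ hB, h2, setLIntegral_const]
    exact hle B
  refine ⟨fun x => min (ν.rnDeriv m x) (volume J), (Measure.measurable_rnDeriv ν m).min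
    measurable_const, fun x => min_le_right _ _, ?_⟩
  refine h2.symm.trans (withDensity_congr_ae ?_)
  filter_upwards [h3] with x hx
  exact (min_eq_left hx).symm

private lemma e1_re (h : Sys u m M S y s l) {J : Set ℝ} (hJ : MeasurableSet J)
    (hJf : volume J ≠ ∞) {r : Z → ℝ} (hr : Measurable r) {D : ℝ} (hD0 : 0 < D)
    (hD : ∀ z, |r z| ≤ D) : ∃ n : K → ℝ, Measurable n ∧ (∃ C, ∀ x, |n x| ≤ C) ∧
      ∀ φ : K → ℂ, BM φ → ∫ z in s ⁻¹' J, φ (y z) * (r z : ℂ) ∂M = ∫ x, φ x * (n x : ℂ) ∂m := by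
  set g : Z → ℝ≥0∞ := fun z => ENNReal.ofReal ((r z + D) / (2 * D)) with hg
  have hg0 : ∀ z, 0 ≤ (r z + D) / (2 * D) := fun z =>
    div_nonneg (by linarith [(abs_le.1 (hD z)).1]) (by linarith)
  have hg1 : ∀ z, g z ≤ 1 := fun z => by
    rw [hg, ← ENNReal.ofReal_one]
    refine ENNReal.ofReal_le_ofReal ?_
    rw [div_le_one (by linarith)]
    linarith [(abs_le.1 (hD z)).2]
  have hgm : Measurable g := ((hr.add_const D).div_const _).ennreal_ofReal
  obtain ⟨ρ, hρ, hρJ, he⟩ := e1_nn h hJ hJf hgm hg1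
  have hρf : ∀ x, ρ x < ∞ := fun x => lt_of_le_of_lt (hρJ x) (lt_of_le_of_ne le_top hJf)
  have : IsFiniteMeasure (M.restrict (s ⁻¹' J)) := ⟨by
    rw [Measure.restrict_apply_univ, h.meas hJ]
    exact lt_of_le_of_ne le_top hJf⟩
  refine ⟨fun x => 2 * D * (ρ x).toReal - D * (volume J).toReal,
    (hρ.ennreal_toReal.const_mul _).sub_const _, ⟨2 * D * (volume J).toReal +
      D * (volume J).toReal, fun x => ?_⟩, fun φ hφ => ?_⟩
  · have h1 : (ρ x).toReal ≤ (volume J).toReal := ENNReal.toReal_mono hJf (hρJ x)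
    have h2 : 0 ≤ (ρ x).toReal := ENNReal.toReal_nonneg
    rw [abs_le]
    constructor <;> nlinarith
  · obtain ⟨hφm, Cφ, hφC⟩ := hφ
    have h1 : ∫ z in s ⁻¹' J, (g z).toReal • φ (y z) ∂M = ∫ x, (ρ x).toReal • φ x ∂m := by
      rw [← integral_withDensity_eq_integral_toReal_smul hρ (ae_of_all _ hρf), ← he,
        integral_map h.my.aemeasurable hφm.aestronglyMeasurable,
        integral_withDensity_eq_integral_toReal_smul hgm
          (ae_of_all _ fun z => lt_of_le_of_lt (hg1 z) ENNReal.one_lt_top)]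
    have h2 : ∫ z in s ⁻¹' J, φ (y z) ∂M = (volume J).toReal • ∫ x, φ x ∂m :=
      h.integral hJ hJf hφm.aestronglyMeasurable
    have hi1 : Integrable (fun z => φ (y z)) (M.restrict (s ⁻¹' J)) :=
      Integrable.of_bound (hφm.comp h.my).aestronglyMeasurable Cφ (ae_of_all _ fun z => hφC _)
    have hi2 : Integrable (fun z => φ (y z) * (r z : ℂ)) (M.restrict (s ⁻¹' J)) := by
      refine hi1.mul_bdd (c := D) (Complex.measurable_ofReal.comp hr).aestronglyMeasurable
        (ae_of_all _ fun z => ?_)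
      rw [Complex.norm_real, Real.norm_eq_abs]
      exact hD z
    have hi3 : Integrable φ m := Integrable.of_bound hφm.aestronglyMeasurable Cφ
      (ae_of_all _ fun z => hφC _)
    have hi4 : Integrable (fun x => φ x * ((ρ x).toReal : ℂ)) m := by
      refine hi3.mul_bdd (c := (volume J).toReal)
        (Complex.measurable_ofReal.comp hρ.ennreal_toReal).aestronglyMeasurable
        (ae_of_all _ fun z => ?_)
      rw [Complex.norm_real, Real.norm_eq_abs, abs_of_nonneg ENNReal.toReal_nonneg]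
      exact ENNReal.toReal_mono hJf (hρJ z)
    have h3 : ∀ z, (g z).toReal = (r z + D) / (2 * D) := fun z => ENNReal.toReal_ofReal (hg0 z)
    have h4 : ∫ z in s ⁻¹' J, (g z).toReal • φ (y z) ∂M =
        (2 * D : ℂ)⁻¹ * (∫ z in s ⁻¹' J, φ (y z) * (r z : ℂ) ∂M) +
        (2 : ℂ)⁻¹ * ∫ z in s ⁻¹' J, φ (y z) ∂M := by
      rw [← integral_const_mul, ← integral_const_mul, ← integral_add (hi2.const_mul _)
        (hi1.const_mul _)]
      refine integral_congr_ae (ae_of_all _ fun z => ?_)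
      have hDc : (D : ℂ) ≠ 0 := Complex.ofReal_ne_zero.2 hD0.ne'
      simp only [h3 z, Complex.real_smul]
      push_cast
      field_simp
    have h5 : ∫ x, φ x * ((2 * D * (ρ x).toReal - D * (volume J).toReal : ℝ) : ℂ) ∂m =
        2 * D * (∫ x, (ρ x).toReal • φ x ∂m) - D * ((volume J).toReal : ℂ) * ∫ x, φ x ∂m := by
      rw [← integral_const_mul, ← integral_const_mul, ← integral_sub]
      · refine integral_congr_ae (ae_of_all _ fun z => ?_)
        simp only [Complex.real_smul]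
        push_cast
        ring
      · refine Integrable.const_mul ?_ _
        refine hi4.congr (ae_of_all _ fun z => ?_)
        simp only [Complex.real_smul]
        ring
      · exact hi3.const_mul _
    rw [h5, ← h1, h4, h2]
    have hDc : (D : ℂ) ≠ 0 := Complex.ofReal_ne_zero.2 hD0.ne'
    simp only [Complex.real_smul]
    field_simp
    ring

/-- C9. Proof. First scalar `f`: the conditional expectation of `f` with respect to
`MeasurableSpace.comap y` for the finite measure `M_J`, as a function of `y` (or: `f M_J` pushed forward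
by `y` is absolutely continuous with respect to `m`, `(law of y under M_J) = |J| m`, with bounded
density; real and imaginary, positive and negative parts). Then a basis of `W'` (finite dimensional). -/
theorem exists_ce (h : Sys u m M S y s l) {J : Set ℝ} (hJ : MeasurableSet J)
    (hJf : volume J ≠ ∞) {W' : Type*} [NormedAddCommGroup W'] [NormedSpace ℂ W']
    [FiniteDimensional ℂ W'] [MeasurableSpace W'] [BorelSpace W'] {f : Z → W'}
    (hf : AEStronglyMeasurable f M) {C : ℝ} (hC : ∀ᵐ z ∂M, ‖f z‖ ≤ C) :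
    ∃ n : K → W', BM n ∧ ∀ L : K → W' →L[ℂ] ℂ, BM L →
      ∫ z in s ⁻¹' J, L (y z) (f z) ∂M = ∫ x, L x (n x) ∂m := by
  have : ProperSpace W' := FiniteDimensional.proper ℂ W'
  have : IsFiniteMeasure (M.restrict (s ⁻¹' J)) := ⟨by
    rw [Measure.restrict_apply_univ, h.meas hJ]
    exact lt_of_le_of_ne le_top hJf⟩
  set b := Module.finBasis ℂ W' with hb
  set co : Fin (Module.finrank ℂ W') → W' →L[ℂ] ℂ := fun i => LinearMap.toContinuousLinearMap (b.coord i)
    with hco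
  -- measurable bounded functions `r i`, `t i`: real and imaginary parts of the coordinates
  obtain ⟨D, hD0, hD⟩ : ∃ D : ℝ, 0 < D ∧ ∀ i, ∀ᵐ z ∂M, ‖co i (f z)‖ ≤ D := by
    refine ⟨(∑ i, ‖co i‖) * |C| + 1, by positivity, fun i => ?_⟩
    filter_upwards [hC] with z hz
    calc ‖co i (f z)‖ ≤ ‖co i‖ * ‖f z‖ := (co i).le_opNorm _
      _ ≤ (∑ i, ‖co i‖) * |C| := by
        refine mul_le_mul (Finset.single_le_sum (f := fun i => ‖co i‖) (fun j _ => norm_nonneg _)
          (Finset.mem_univ i)) (hz.trans (le_abs_self C)) (norm_nonneg _) (by positivity)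
      _ ≤ _ := by linarith
  set cl : ℝ → ℝ := fun t => max (-D) (min D t) with hcl
  have hclm : Measurable cl := measurable_const.max (measurable_const.min measurable_id)
  have hcl1 : ∀ t, |cl t| ≤ D := fun t => by
    rw [abs_le, hcl]
    exact ⟨le_max_left _ _, max_le (by linarith) (min_le_left _ _)⟩
  have hcl2 : ∀ t, |t| ≤ D → cl t = t := fun t ht => by
    rw [hcl]
    simp only
    rw [min_eq_right (abs_le.1 ht).2, max_eq_right (abs_le.1 ht).1]
  have hmk : Measurable (hf.mk f) := hf.stronglyMeasurable_mk.measurable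
  have hr : ∀ i, ∃ n : K → ℝ, Measurable n ∧ (∃ C, ∀ x, |n x| ≤ C) ∧ ∀ φ : K → ℂ, BM φ →
      ∫ z in s ⁻¹' J, φ (y z) * (cl (co i (hf.mk f z)).re : ℂ) ∂M = ∫ x, φ x * (n x : ℂ) ∂m :=
    fun i => e1_re h hJ hJf (hclm.comp (Complex.measurable_re.comp ((co i).measurable.comp hmk)))
      hD0 fun z => hcl1 _
  have hi : ∀ i, ∃ n : K → ℝ, Measurable n ∧ (∃ C, ∀ x, |n x| ≤ C) ∧ ∀ φ : K → ℂ, BM φ →
      ∫ z in s ⁻¹' J, φ (y z) * (cl (co i (hf.mk f z)).im : ℂ) ∂M = ∫ x, φ x * (n x : ℂ) ∂m :=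
    fun i => e1_re h hJ hJf (hclm.comp (Complex.measurable_im.comp ((co i).measurable.comp hmk)))
      hD0 fun z => hcl1 _
  choose p hpm hpb hp using hr
  choose p' hpm' hpb' hp' using hi
  choose Cp hCp using hpb
  choose Cp' hCp' using hpb'
  have hae : ∀ᵐ z ∂M, ∀ i, co i (f z) = (cl (co i (hf.mk f z)).re : ℂ) +
      (cl (co i (hf.mk f z)).im : ℂ) * Complex.I := by
    rw [ae_all_iff]
    intro i
    filter_upwards [hf.ae_eq_mk, hD i] with z hz hz'
    rw [← hz, hcl2 _ ((Complex.abs_re_le_norm _).trans hz'), hcl2 _ ((Complex.abs_im_le_norm _).trans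
      hz'), Complex.re_add_im]
  refine ⟨fun x => ∑ i, ((p i x : ℂ) + (p' i x : ℂ) * Complex.I) • b i, ⟨?_, ?_⟩, fun L hL => ?_⟩
  · refine Finset.measurable_sum _ fun i _ => ?_
    exact ((Complex.measurable_ofReal.comp (hpm i)).add
      ((Complex.measurable_ofReal.comp (hpm' i)).mul_const _)).smul_const _
  · refine ⟨∑ i, (Cp i + Cp' i) * ‖b i‖, fun x => (norm_sum_le _ _).trans (Finset.sum_le_sum
      fun i _ => ?_)⟩
    rw [norm_smul]
    refine mul_le_mul_of_nonneg_right ((norm_add_le _ _).trans (add_le_add ?_ ?_)) (norm_nonneg _)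
    · rw [Complex.norm_real]; exact hCp i x
    · rw [norm_mul, Complex.norm_I, mul_one, Complex.norm_real]; exact hCp' i x
  · have hφ : ∀ i, BM fun x => L x (b i) := fun i => by
      obtain ⟨hL1, CL, hCL⟩ := hL
      exact ⟨(ContinuousLinearMap.measurable_apply (b i)).comp hL1, CL * ‖b i‖, fun x =>
        (L x).le_of_opNorm_le (hCL x) _⟩
    have hintφ : ∀ i, ∀ (w : Z → ℝ), Measurable w → Integrable (fun z => L (y z) (b i) *
        (cl (w z) : ℂ)) (M.restrict (s ⁻¹' J)) := fun i w hw => by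
      obtain ⟨h1, C1, hC1⟩ := hφ i
      refine Integrable.of_bound (((h1.comp h.my).mul (Complex.measurable_ofReal.comp
        (hclm.comp hw))).aestronglyMeasurable) (C1 * D) (ae_of_all _ fun z => ?_)
      rw [norm_mul, Complex.norm_real, Real.norm_eq_abs]
      exact mul_le_mul (hC1 _) (hcl1 _) (abs_nonneg _) ((norm_nonneg _).trans (hC1 (y z)))
    have hint2 : ∀ i, ∀ (w : K → ℝ), Measurable w → (∃ C, ∀ x, |w x| ≤ C) →
        Integrable (fun x => L x (b i) * (w x : ℂ)) m := fun i w hw hwb => by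
      obtain ⟨h1, C1, hC1⟩ := hφ i
      obtain ⟨C2, hC2⟩ := hwb
      refine Integrable.of_bound ((h1.mul (Complex.measurable_ofReal.comp
        hw)).aestronglyMeasurable) (C1 * C2) (ae_of_all _ fun z => ?_)
      rw [norm_mul, Complex.norm_real, Real.norm_eq_abs]
      exact mul_le_mul (hC1 _) (hC2 _) (abs_nonneg _) ((norm_nonneg _).trans (hC1 z))
    have hmr : ∀ i, Measurable fun z => (co i (hf.mk f z)).re := fun i =>
      Complex.measurable_re.comp ((co i).measurable.comp hmk)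
    have hmi : ∀ i, Measurable fun z => (co i (hf.mk f z)).im := fun i =>
      Complex.measurable_im.comp ((co i).measurable.comp hmk)
    have hL2 : ∀ x v, L x v = ∑ i, co i v * L x (b i) := fun x v => by
      conv_lhs => rw [← b.sum_repr v, map_sum]
      refine Finset.sum_congr rfl fun i _ => ?_
      rw [map_smul, smul_eq_mul]
      rfl
    calc ∫ z in s ⁻¹' J, L (y z) (f z) ∂M = ∫ z in s ⁻¹' J, ∑ i,
          (L (y z) (b i) * (cl (co i (hf.mk f z)).re : ℂ) +
            Complex.I * (L (y z) (b i) * (cl (co i (hf.mk f z)).im : ℂ))) ∂M := by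
          refine integral_congr_ae ?_
          filter_upwards [ae_restrict_of_ae hae] with z hz
          rw [hL2]
          refine Finset.sum_congr rfl fun i _ => ?_
          rw [hz i]
          ring
      _ = ∑ i, (∫ x, L x (b i) * (p i x : ℂ) ∂m +
            Complex.I * ∫ x, L x (b i) * (p' i x : ℂ) ∂m) := by
          rw [integral_finsetSum]
          · refine Finset.sum_congr rfl fun i _ => ?_
            rw [integral_add (hintφ i _ (hmr i)) ((hintφ i _ (hmi i)).const_mul _),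
              integral_const_mul, hp i _ (hφ i), hp' i _ (hφ i)]
          · exact fun i _ => (hintφ i _ (hmr i)).add ((hintφ i _ (hmi i)).const_mul _)
      _ = ∫ x, L x (∑ i, ((p i x : ℂ) + (p' i x : ℂ) * Complex.I) • b i) ∂m := by
          have hj1 := fun i => hint2 i _ (hpm i) ⟨_, hCp i⟩
          have hj2 := fun i => (hint2 i _ (hpm' i) ⟨_, hCp' i⟩).const_mul Complex.I
          simp_rw [← integral_const_mul]
          have hj3 : ∀ i, Integrable (fun x => L x (b i) * (p i x : ℂ) +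
              Complex.I * (L x (b i) * (p' i x : ℂ))) m := fun i => (hj1 i).add (hj2 i)
          rw [Finset.sum_congr rfl fun i _ => (integral_add (hj1 i) (hj2 i)).symm]
          refine (integral_finsetSum _ fun i _ => hj3 i).symm.trans ?_
          refine integral_congr_ae (ae_of_all _ fun x => ?_)
          simp only [map_sum, map_smul, smul_eq_mul]
          refine Finset.sum_congr rfl fun i _ => ?_
          ring

/-- uniqueness: test with `1_B` times a basis of functionals -/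
theorem ce_unique {W' : Type*} [NormedAddCommGroup W'] [NormedSpace ℂ W']
    [FiniteDimensional ℂ W'] [MeasurableSpace W'] [BorelSpace W'] {n n' : K → W'} (hn : BM n)
    (hn' : BM n') (h : ∀ L : K → W' →L[ℂ] ℂ, BM L → ∫ x, L x (n x) ∂m = ∫ x, L x (n' x) ∂m) :
    n =ᵐ[m] n' := by
  set b := Module.finBasis ℂ W' with hb
  set co : Fin (Module.finrank ℂ W') → W' →L[ℂ] ℂ := fun i => LinearMap.toContinuousLinearMap (b.coord i)
    with hco
  have hint : ∀ (w : K → W') (i : Fin (Module.finrank ℂ W')), BM w →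
      Integrable (fun x => co i (w x)) m := fun w i hw => by
    obtain ⟨h1, C1, hC1⟩ := hw
    exact Integrable.of_bound ((co i).measurable.comp h1).aestronglyMeasurable (‖co i‖ * C1)
      (ae_of_all _ fun x => ((co i).le_opNorm _).trans (mul_le_mul_of_nonneg_left (hC1 x)
        (norm_nonneg _)))
  have h1 : ∀ i, (fun x => co i (n x)) =ᵐ[m] fun x => co i (n' x) := fun i => by
    refine Integrable.ae_eq_of_forall_setIntegral_eq _ _ (hint n i hn) (hint n' i hn')
      fun B hB _ => ?_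
    have h2 := h (B.indicator fun _ => co i) ⟨measurable_const.indicator hB, ‖co i‖, fun x => by
      by_cases hx : x ∈ B
      · rw [Set.indicator_of_mem hx]
      · rw [Set.indicator_of_notMem hx, norm_zero]; exact norm_nonneg _⟩
    rw [← integral_indicator hB, ← integral_indicator hB]
    refine Eq.trans ?_ (h2.trans ?_)
    · refine integral_congr_ae (ae_of_all _ fun x => ?_)
      by_cases hx : x ∈ B
      · simp only [Set.indicator_of_mem hx]
      · simp only [Set.indicator_of_notMem hx, ContinuousLinearMap.zero_apply]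
    · refine integral_congr_ae (ae_of_all _ fun x => ?_)
      by_cases hx : x ∈ B
      · simp only [Set.indicator_of_mem hx]
      · simp only [Set.indicator_of_notMem hx, ContinuousLinearMap.zero_apply]
  filter_upwards [ae_all_iff.2 h1] with x hx
  refine b.ext_elem fun i => ?_
  exact hx i

-- END e1

end ce

section bes

variable {K Z : Type*} [Group K] [MeasurableSpace K] [MeasurableSpace Z] {u : K} {m : Measure K}
  [IsProbabilityMeasure m] {M : Measure Z} {S : Z → Z} {y : Z → K} {s l : Z → ℝ}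
  {E : Type*} [NormedAddCommGroup E] [InnerProductSpace ℂ E] [FiniteDimensional ℂ E] [CompleteSpace E]

/-- the operator `v ↦ ⟨b, v⟩ b'` -/
noncomputable def rk1 (b' b : E) : E →L[ℂ] E := (innerSL ℂ b).smulRight b'

/-! ## row e2: the rank one operators -/

-- BEGIN e2

theorem rk1_apply (b' b v : E) : rk1 b' b v = ⟪b, v⟫_ℂ • b' := by
  rfl

theorem rk1_norm_le (b' b : E) : ‖rk1 b' b‖ ≤ ‖b'‖ * ‖b‖ := by
  refine ContinuousLinearMap.opNorm_le_bound _ (by positivity) fun v => ?_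
  rw [rk1_apply, norm_smul]
  calc ‖⟪b, v⟫_ℂ‖ * ‖b'‖ ≤ ‖b‖ * ‖v‖ * ‖b'‖ :=
        mul_le_mul_of_nonneg_right (norm_inner_le_norm _ _) (norm_nonneg _)
    _ = ‖b'‖ * ‖b‖ * ‖v‖ := by ring

/-- `g' (|b'⟩⟨b|) g⁻¹ = |g' b'⟩⟨g b|` for unitary `g`, `g'` -/
theorem rk1_conj (g g' : UE E) (b' b : E) :
    rk1 (((g' : UE E) : E →L[ℂ] E) b') (((g : UE E) : E →L[ℂ] E) b) * ((g : UE E) : E →L[ℂ] E) =
      ((g' : UE E) : E →L[ℂ] E) * rk1 b' b := by
  ext v
  rw [ContinuousLinearMap.mul_apply, ContinuousLinearMap.mul_apply, rk1_apply, rk1_apply, map_smul]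
  congr 1
  have h1 : star ((g : UE E) : E →L[ℂ] E) * ((g : UE E) : E →L[ℂ] E) = 1 :=
    Unitary.coe_star_mul_self g
  rw [← ContinuousLinearMap.adjoint_inner_right, ← ContinuousLinearMap.star_eq_adjoint,
    ← ContinuousLinearMap.mul_apply, h1, ContinuousLinearMap.one_apply]

theorem rk1_trace (b' b : E) :
    LinearMap.trace ℂ E (rk1 b' b : E →ₗ[ℂ] E) = ⟪b, b'⟫_ℂ := by
  have h1 : (rk1 b' b : E →ₗ[ℂ] E) = ((innerSL ℂ b : E →L[ℂ] ℂ) : E →ₗ[ℂ] ℂ).smulRight b' := by
    ext v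
    rfl
  rw [h1, LinearMap.trace_smulRight]
  rfl

/-- measurability and boundedness for almost everywhere bounded `F, F' ∈ L²(M; E)` -/
theorem rk1_aesm {F F' : Z → E} (hF : AEStronglyMeasurable F M) (hF' : AEStronglyMeasurable F' M) :
    AEStronglyMeasurable (fun z => rk1 (F' z) (F z)) M := by
  have h1 : Continuous fun p : E × E => rk1 p.1 p.2 := by
    have h2 : Continuous fun p : E × E => innerSL ℂ p.2 := (innerSL ℂ).continuous.comp continuous_snd
    exact ((ContinuousLinearMap.smulRightL ℂ E E).continuous₂.comp (h2.prodMk continuous_fst))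
  exact h1.comp_aestronglyMeasurable (hF'.prodMk hF)

-- END e2

/-! ## row e3: the equivariance of the conditional expectation -/

-- BEGIN e3

private lemma e3_norm (g : UE E) : ‖((g : UE E) : E →L[ℂ] E)‖ ≤ 1 :=
  ContinuousLinearMap.opNorm_le_bound _ zero_le_one fun v => by rw [ue_apply_norm, one_mul]

private lemma e3_apply {X : Type*} [MeasurableSpace X] {μ : Measure X} {W' : Type*}
    [NormedAddCommGroup W'] [NormedSpace ℂ W'] [FiniteDimensional ℂ W'] {L : X → W' →L[ℂ] ℂ}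
    (hL : Measurable L) {f : X → W'} (hf : AEStronglyMeasurable f μ) :
    AEStronglyMeasurable (fun x => L x (f x)) μ :=
  (isBoundedBilinearMap_apply (𝕜 := ℂ) (E := W') (F := ℂ)).continuous.comp_aestronglyMeasurable
    (hL.stronglyMeasurable.aestronglyMeasurable.prodMk hf)

/-- Proof. Put `f z = rk1 (F' z) (F z)`; by `hF`, `hF'` and `rk1_conj`:
`f (S z) V(y z) = V'(y z) f(z)`. For bounded measurable `L : K → (E →L E) →L ℂ` compare
`∫ L(u x) (N(u x)) dm = ∫ L x (N x) dm` (`Sys.mpK`) `= ∫_{M_J} L(y z)(f z) = ∫_{M_J} L(y (S z)) (f (S z))`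
(`Sys.mp_restrict`) `= ∫_{M_J} L(u y z) (V'(y z) f(z) V(y z)⁻¹) = ∫ L(u x) (V'(x) N(x) V(x)⁻¹) dm`. As `L` is
arbitrary, `ce_unique` gives `N(u x) = V'(x) N(x) V(x)⁻¹` a.e. -/
theorem ce_twn [MeasurableMul K] (h : Sys u m M S y s l) {J : Set ℝ} (hJ : MeasurableSet J)
    (hJf : volume J ≠ ∞) {V V' : K → UE E} (hV : Measurable V) (hV' : Measurable V') {F F' : Z → E}
    (hFm : AEStronglyMeasurable F M) (hFm' : AEStronglyMeasurable F' M)
    {C : ℝ} (hC : ∀ᵐ z ∂M, ‖F z‖ ≤ C) (hC' : ∀ᵐ z ∂M, ‖F' z‖ ≤ C)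
    (hF : ∀ᵐ z ∂M, F (S z) = ((V (y z) : UE E) : E →L[ℂ] E) (F z))
    (hF' : ∀ᵐ z ∂M, F' (S z) = ((V' (y z) : UE E) : E →L[ℂ] E) (F' z)) {N : K → E →L[ℂ] E}
    (hN : BM N) (hce : ∀ L : K → (E →L[ℂ] E) →L[ℂ] ℂ, BM L →
      ∫ z in s ⁻¹' J, L (y z) (rk1 (F' z) (F z)) ∂M = ∫ x, L x (N x) ∂m) : Twn u m V V' N := by
  have hmu : Measurable fun x : K => u * x := measurable_const_mul u
  have hVm := bm_ue hV'
  have hVi : BM fun x => (((V x)⁻¹ : UE E) : E →L[ℂ] E) := bm_inv measurable_id hV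
  have hmul : ∀ {A B : K → E →L[ℂ] E}, Measurable A → Measurable B →
      Measurable fun x => A x * B x := fun hA hB =>
    (continuous_mul.measurable.comp (hA.prodMk hB) : Measurable _)
  have hn1 : BM fun x => N (u * x) := ⟨hN.1.comp hmu, hN.2.choose, fun x => hN.2.choose_spec _⟩
  have hn2 : BM fun x => ((V' x : UE E) : E →L[ℂ] E) * N x * (((V x)⁻¹ : UE E) : E →L[ℂ] E) := by
    refine ⟨hmul (hmul hVm.1 hN.1) hVi.1, hN.2.choose, fun x => ?_⟩
    have hC0 := hN.2.choose_spec x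
    have hC00 : 0 ≤ hN.2.choose := (norm_nonneg _).trans hC0
    calc ‖((V' x : UE E) : E →L[ℂ] E) * N x * (((V x)⁻¹ : UE E) : E →L[ℂ] E)‖
        ≤ ‖((V' x : UE E) : E →L[ℂ] E)‖ * ‖N x‖ * ‖(((V x)⁻¹ : UE E) : E →L[ℂ] E)‖ :=
          (norm_mul_le _ _).trans (mul_le_mul_of_nonneg_right (norm_mul_le _ _) (norm_nonneg _))
      _ ≤ 1 * hN.2.choose * 1 := by
          refine mul_le_mul (mul_le_mul (e3_norm _) hC0 (norm_nonneg _) zero_le_one) (e3_norm _)
            (norm_nonneg _) (by positivity)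
      _ = hN.2.choose := by ring
  have hfm : AEStronglyMeasurable (fun z => rk1 (F' z) (F z)) M := rk1_aesm hFm hFm'
  have key : (fun x => N (u * x)) =ᵐ[m]
      fun x => ((V' x : UE E) : E →L[ℂ] E) * N x * (((V x)⁻¹ : UE E) : E →L[ℂ] E) := by
    refine ce_unique hn1 hn2 fun L hL => ?_
    obtain ⟨hL1, CL, hCL⟩ := hL
    have hL1' : BM fun x => L (u⁻¹ * x) := ⟨hL1.comp (measurable_const_mul _), CL, fun x => hCL _⟩
    set LR : (E →L[ℂ] E) → (E →L[ℂ] E) → (E →L[ℂ] E) →L[ℂ] (E →L[ℂ] E) :=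
      fun A B => ContinuousLinearMap.mulLeftRight ℂ (E →L[ℂ] E) A B with hLR
    have hLRa : ∀ A B T : E →L[ℂ] E, LR A B T = A * T * B := fun A B T => rfl
    have hL2 : BM fun x => (L x).comp (LR ((V' x : UE E) : E →L[ℂ] E)
        (((V x)⁻¹ : UE E) : E →L[ℂ] E)) := by
      refine ⟨?_, CL, fun x => ?_⟩
      · have hc1 : Continuous fun p : (E →L[ℂ] E) × (E →L[ℂ] E) => LR p.1 p.2 :=
          (ContinuousLinearMap.mulLeftRight ℂ (E →L[ℂ] E)).continuous₂
        have hc2 : Continuous fun p : ((E →L[ℂ] E) →L[ℂ] ℂ) × ((E →L[ℂ] E) →L[ℂ] (E →L[ℂ] E)) =>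
            p.1.comp p.2 := continuous_fst.clm_comp continuous_snd
        exact hc2.measurable.comp (hL1.prodMk (hc1.measurable.comp (hVm.1.prodMk hVi.1)))
      · have hCL0 : 0 ≤ CL := (norm_nonneg _).trans (hCL x)
        refine ContinuousLinearMap.opNorm_le_bound _ hCL0 fun T => ?_
        rw [ContinuousLinearMap.comp_apply, hLRa]
        calc ‖L x (((V' x : UE E) : E →L[ℂ] E) * T * (((V x)⁻¹ : UE E) : E →L[ℂ] E))‖
            ≤ CL * ‖((V' x : UE E) : E →L[ℂ] E) * T * (((V x)⁻¹ : UE E) : E →L[ℂ] E)‖ :=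
              (L x).le_of_opNorm_le (hCL x) _
          _ ≤ CL * (1 * ‖T‖ * 1) := by
              refine mul_le_mul_of_nonneg_left ?_ hCL0
              refine (norm_mul_le _ _).trans (mul_le_mul ((norm_mul_le _ _).trans
                (mul_le_mul (e3_norm _) le_rfl (norm_nonneg _) zero_le_one)) (e3_norm _)
                (norm_nonneg _) (by positivity))
          _ = CL * ‖T‖ := by ring
    have hmpJ := h.mp_restrict hJ
    have hfJ : AEStronglyMeasurable (fun z => rk1 (F' z) (F z)) (M.restrict (s ⁻¹' J)) :=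
      hfm.restrict
    calc ∫ x, L x (N (u * x)) ∂m = ∫ x, (fun x => L (u⁻¹ * x) (N x)) (u * x) ∂m := by
          refine integral_congr_ae (ae_of_all _ fun x => ?_)
          simp only [inv_mul_cancel_left]
      _ = ∫ x, L (u⁻¹ * x) (N x) ∂m := by
          have h5 := integral_map (μ := m) hmu.aemeasurable (f := fun x => L (u⁻¹ * x) (N x))
            (by rw [h.mpK.map_eq]; exact e3_apply hL1'.1 hN.1.stronglyMeasurable.aestronglyMeasurable)
          rw [h.mpK.map_eq] at h5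
          exact h5.symm
      _ = ∫ z in s ⁻¹' J, L (u⁻¹ * y z) (rk1 (F' z) (F z)) ∂M := (hce _ hL1').symm
      _ = ∫ z in s ⁻¹' J, (fun z => L (u⁻¹ * y z) (rk1 (F' z) (F z))) (S z) ∂M := by
          have h5 := integral_map (μ := M.restrict (s ⁻¹' J)) hmpJ.measurable.aemeasurable
            (f := fun z => L (u⁻¹ * y z) (rk1 (F' z) (F z)))
            (by rw [hmpJ.map_eq]; exact e3_apply (hL1'.1.comp h.my) hfJ)
          rw [hmpJ.map_eq] at h5
          exact h5
      _ = ∫ z in s ⁻¹' J, (L (y z)).comp (LR ((V' (y z) : UE E) : E →L[ℂ] E)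
            (((V (y z))⁻¹ : UE E) : E →L[ℂ] E)) (rk1 (F' z) (F z)) ∂M := by
          refine integral_congr_ae ?_
          filter_upwards [ae_restrict_of_ae hF, ae_restrict_of_ae hF'] with z h1 h2
          rw [h.yS, inv_mul_cancel_left, ContinuousLinearMap.comp_apply, hLRa, h1, h2,
            ← rk1_conj (V (y z)) (V' (y z)), mul_assoc]
          have h3 : ((V (y z) : UE E) : E →L[ℂ] E) * (((V (y z))⁻¹ : UE E) : E →L[ℂ] E) = 1 := by
            rw [← Submonoid.coe_mul, mul_inv_cancel]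
            rfl
          rw [h3, mul_one]
      _ = ∫ x, (L x).comp (LR ((V' x : UE E) : E →L[ℂ] E)
            (((V x)⁻¹ : UE E) : E →L[ℂ] E)) (N x) ∂m := hce _ hL2
      _ = _ := by
          refine integral_congr_ae (ae_of_all _ fun x => ?_)
          simp only [ContinuousLinearMap.comp_apply, hLRa]
  filter_upwards [key] with x hx
  rw [hx, mul_assoc]
  have h3 : (((V x)⁻¹ : UE E) : E →L[ℂ] E) * ((V x : UE E) : E →L[ℂ] E) = 1 := by
    rw [← Submonoid.coe_mul, inv_mul_cancel]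
    rfl
  rw [h3, mul_one]

-- END e3

variable [MeasurableSpace E] [BorelSpace E]

/-- `g z = ⟨a(y z), (T_J a) z⟩` as an element of `L²(M; ℂ)` -/
noncomputable def gT (M : Measure Z) (S : Z → Z) (y : Z → K) (s l : Z → ℝ) (V : K → UE E)
    (J : Set ℝ) (a : K → E) : HE ℂ M :=
  mulL (fun z => innerSL ℂ (a (y z))) (TT M S y s l V J a)

/-! ## row e4 -/

-- BEGIN e4

private theorem e4_bm (h : Sys u m M S y s l) {a : K → E} (ha : BM a) :
    BM (fun z => innerSL ℂ (a (y z))) := by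
  obtain ⟨h1, C, hC⟩ := ha
  refine ⟨(innerSL ℂ (E := E)).continuous.measurable.comp (h1.comp h.my), C, fun z => ?_⟩
  rw [innerSL_apply_norm]
  exact hC _

private theorem e4_one : BM (fun _ : K => (1 : ℂ)) :=
  ⟨measurable_const, 1, fun _ => by rw [norm_one]⟩

/-- `⟨l 1_J, g⟩ = ⟨w_J(a), T_J a⟩ = ‖T_J a‖²` (`TT_inner`), and `‖l 1_J‖² = |J|` -/
theorem gT_inner_one (h : Sys u m M S y s l) {V : K → UE E} (hV : Measurable V) {J : Set ℝ}
    (hJ : MeasurableSet J) (hJf : volume J ≠ ∞) {a : K → E} (ha : BM a) :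
    ⟪W M y s l J (fun _ : K => (1 : ℂ)), gT M S y s l V J a⟫_ℂ =
      ((‖TT M S y s l V J a‖ ^ 2 : ℝ) : ℂ) := by
  have h1 : ⟪W M y s l J (fun _ : K => (1 : ℂ)), gT M S y s l V J a⟫_ℂ =
      ⟪W M y s l J a, TT M S y s l V J a⟫_ℂ := by
    rw [L2.inner_def, L2.inner_def]
    refine integral_congr_ae ?_
    filter_upwards [W_coe h hJ hJf e4_one, W_coe h hJ hJf ha,
      mulL_coe (e4_bm h ha) (TT M S y s l V J a)] with z h2 h3 h4
    have h5 : (gT M S y s l V J a : Z → ℂ) z = ⟪a (y z), TT M S y s l V J a z⟫_ℂ := h4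
    rw [h2, h3, h5]
    unfold wf
    by_cases hz : z ∈ s ⁻¹' J
    · simp only [Set.indicator_of_mem hz]
      rw [inner_smul_left, inner_smul_left]
      simp
    · simp only [Set.indicator_of_notMem hz, inner_zero_left]
  rw [h1, TT_inner h, inner_self_eq_norm_sq_to_K]
  push_cast
  rfl

theorem norm_one_J (h : Sys u m M S y s l) {J : Set ℝ} (hJ : MeasurableSet J)
    (hJf : volume J ≠ ∞) : ‖W M y s l J (fun _ : K => (1 : ℂ))‖ ^ 2 = (volume J).toReal := by
  rw [W_norm h hJ hJf e4_one]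
  simp

-- END e4

/-! ## row e5 -/

-- BEGIN e5

private lemma e5_bm {X : Type*} [MeasurableSpace X] {a : X → E} (ha : BM a) :
    BM fun x => innerSL ℂ (a x) := by
  obtain ⟨ham, C, hC⟩ := ha
  refine ⟨(innerSL ℂ (E := E)).continuous.measurable.comp ham, C, fun x => ?_⟩
  rw [innerSL_apply_norm]
  exact hC x

private lemma e5_coe (h : Sys u m M S y s l) {V : K → UE E} {J : Set ℝ} {a : K → E}
    (ha : BM a) : gT M S y s l V J a =ᵐ[M] fun z => ⟪a (y z), TT M S y s l V J a z⟫_ℂ := by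
  have hb : BM fun z => innerSL ℂ (a (y z)) := e5_bm ⟨ha.1.comp h.my, ha.2.imp fun C hC z => hC _⟩
  exact mulL_coe hb _

/-- the functional `A ↦ ⟨a', A a⟩` -/
private noncomputable def e5_L (a' a : E) : (E →L[ℂ] E) →L[ℂ] ℂ :=
  (innerSL ℂ a') ∘L (ContinuousLinearMap.apply ℂ E a)

private lemma e5_Lbm {a a' : K → E} (ha : BM a) (ha' : BM a') :
    BM fun x => e5_L (a' x) (a x) := by
  have : ProperSpace E := FiniteDimensional.proper ℂ _
  have : ProperSpace (E →L[ℂ] ℂ) := FiniteDimensional.proper ℂ _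
  obtain ⟨ham, C, hC⟩ := ha
  obtain ⟨ham', C', hC'⟩ := ha'
  refine ⟨?_, C' * C, fun x => ?_⟩
  · have hc : Continuous fun p : E × E => e5_L p.1 p.2 := by
      refine Continuous.clm_comp ((innerSL ℂ (E := E)).continuous.comp continuous_fst) ?_
      exact (ContinuousLinearMap.apply ℂ E).continuous.comp continuous_snd
    exact hc.measurable.comp (ham'.prodMk ham)
  · refine ContinuousLinearMap.opNorm_le_bound _ (mul_nonneg ((norm_nonneg _).trans (hC' x))
      ((norm_nonneg _).trans (hC x))) fun A => ?_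
    calc ‖⟪a' x, A (a x)⟫_ℂ‖ ≤ ‖a' x‖ * ‖A (a x)‖ := norm_inner_le_norm _ _
      _ ≤ C' * (‖A‖ * C) := by
        refine mul_le_mul (hC' x) ((A.le_opNorm _).trans (mul_le_mul_of_nonneg_left (hC x)
          (norm_nonneg _))) (norm_nonneg _) ((norm_nonneg _).trans (hC' x))
      _ = C' * C * ‖A‖ := by ring

/-- Proof. `f z = rk1 (F' z) (F z)`, `F = T a`, `F' = T' a'`; `N` from `exists_ce` (bounded by `TT_bound`);
`Twn` by `ce_twn` and `TT_apply`; `⟨g, g'⟩ = ∫ ⟨F, a(y)⟩ ⟨a'(y), F'⟩ dM = ∫_{M_J} ⟨a'(y), f(z) a(y)⟩ dM =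
∫ ⟨a', N a⟩ dm` (the functions vanish outside `s ⁻¹' J`, `TT_supp`); the trace with `L = trace`. -/
theorem gT_inner [MeasurableMul K] (h : Sys u m M S y s l) (herg : Ergodic (fun x => u * x) m)
    {V V' : K → UE E} (hV : Measurable V) (hV' : Measurable V') {J : Set ℝ} (hJ : MeasurableSet J)
    (hJf : volume J ≠ ∞) {a a' : K → E} (ha : BM a) (ha' : BM a') :
    ∃ N : K → E →L[ℂ] E, BM N ∧ Twn u m V V' N ∧
      ⟪gT M S y s l V J a, gT M S y s l V' J a'⟫_ℂ = ∫ x, ⟪a' x, N x (a x)⟫_ℂ ∂m ∧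
      ∫ x, LinearMap.trace ℂ E (N x : E →ₗ[ℂ] E) ∂m =
        ⟪TT M S y s l V J a, TT M S y s l V' J a'⟫_ℂ := by
  obtain ⟨F, hF⟩ : ∃ F : HE E M, F = TT M S y s l V J a := ⟨_, rfl⟩
  obtain ⟨F', hF'⟩ : ∃ F' : HE E M, F' = TT M S y s l V' J a' := ⟨_, rfl⟩
  have hFm : AEStronglyMeasurable F M := (Lp.memLp F).1
  have hFm' : AEStronglyMeasurable F' M := (Lp.memLp F').1
  have hb : ∀ᵐ z ∂M, ‖F z‖ ≤ ∫ x, ‖a x‖ ∂m := by
    rw [hF]; exact TT_bound h herg hV hJ hJf ha
  have hb' : ∀ᵐ z ∂M, ‖F' z‖ ≤ ∫ x, ‖a' x‖ ∂m := by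
    rw [hF']; exact TT_bound h herg hV' hJ hJf ha'
  have hs : ∀ᵐ z ∂M, s z ∉ J → F z = 0 := by
    rw [hF]; exact TT_supp h hV hJ hJf ha
  have he : ∀ᵐ z ∂M, F (S z) = ((V (y z) : UE E) : E →L[ℂ] E) (F z) := by
    rw [hF]; exact TT_apply h hV J a
  have he' : ∀ᵐ z ∂M, F' (S z) = ((V' (y z) : UE E) : E →L[ℂ] E) (F' z) := by
    rw [hF']; exact TT_apply h hV' J a'
  have hg : gT M S y s l V J a =ᵐ[M] fun z => ⟪a (y z), F z⟫_ℂ := by
    rw [hF]; exact e5_coe h ha
  have hg' : gT M S y s l V' J a' =ᵐ[M] fun z => ⟪a' (y z), F' z⟫_ℂ := by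
    rw [hF']; exact e5_coe h ha'
  have hfb : ∀ᵐ z ∂M, ‖rk1 (F' z) (F z)‖ ≤ (∫ x, ‖a' x‖ ∂m) * ∫ x, ‖a x‖ ∂m := by
    filter_upwards [hb, hb'] with z h1 h2
    exact (rk1_norm_le _ _).trans (mul_le_mul h2 h1 (norm_nonneg _)
      ((norm_nonneg _).trans h2))
  obtain ⟨N, hN, hce⟩ := exists_ce h hJ hJf (rk1_aesm hFm hFm') hfb
  refine ⟨N, hN, ?_, ?_, ?_⟩
  · refine ce_twn h hJ hJf hV hV' hFm hFm' (C := max (∫ x, ‖a x‖ ∂m) (∫ x, ‖a' x‖ ∂m)) ?_ ?_
      he he' hN hce
    · filter_upwards [hb] with z hz using hz.trans (le_max_left _ _)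
    · filter_upwards [hb'] with z hz using hz.trans (le_max_right _ _)
  · have h1 := hce _ (e5_Lbm ha ha')
    have h2 : ∫ x, ⟪a' x, N x (a x)⟫_ℂ ∂m = ∫ z in s ⁻¹' J, ⟪a' (y z), rk1 (F' z) (F z) (a (y z))⟫_ℂ ∂M :=
      h1.symm
    rw [h2, L2.inner_def, setIntegral_eq_integral_of_ae_compl_eq_zero]
    · refine integral_congr_ae ?_
      filter_upwards [hg, hg'] with z h3 h4
      rw [h3, h4, rk1_apply, inner_smul_right, RCLike.inner_apply, inner_conj_symm, mul_comm]
    · filter_upwards [hs] with z h3 h4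
      rw [rk1_apply, h3 h4, inner_zero_left, zero_smul, inner_zero_right]
  · obtain ⟨L, hL⟩ : ∃ L : (E →L[ℂ] E) →L[ℂ] ℂ, ∀ A, L A = LinearMap.trace ℂ E (A : E →ₗ[ℂ] E) :=
      ⟨LinearMap.toContinuousLinearMap ((LinearMap.trace ℂ E) ∘ₗ
        (ContinuousLinearMap.coeLM ℂ : (E →L[ℂ] E) →ₗ[ℂ] E →ₗ[ℂ] E)), fun A => rfl⟩
    have h1 := hce (fun _ => L) ⟨measurable_const, ‖L‖, fun _ => le_rfl⟩
    simp only [hL] at h1
    rw [← h1, ← hF, ← hF', L2.inner_def, setIntegral_eq_integral_of_ae_compl_eq_zero]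
    · refine integral_congr_ae (ae_of_all _ fun z => ?_)
      exact rk1_trace _ _
    · filter_upwards [hs] with z h3 h4
      rw [rk1_trace, h3 h4, inner_zero_left]

-- END e5

/-! ## row e6 -/

-- BEGIN e6

theorem gT_disj [MeasurableMul K] (h : Sys u m M S y s l) (herg : Ergodic (fun x => u * x) m)
    {V V' : K → UE E} (hV : Measurable V) (hV' : Measurable V') (hD : Disj u m V V')
    {J : Set ℝ} (hJ : MeasurableSet J) (hJf : volume J ≠ ∞) {a a' : K → E} (ha : BM a)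
    (ha' : BM a') : ⟪gT M S y s l V J a, gT M S y s l V' J a'⟫_ℂ = 0 := by
  obtain ⟨N, hN, hT, h1, -⟩ := gT_inner h herg hV hV' hJ hJf ha ha'
  have h0 : N =ᵐ[m] 0 := hD N hN hT
  rw [h1, integral_eq_zero_of_ae]
  filter_upwards [h0] with x hx
  simp [hx]

-- END e6

end bes

section bes2

variable {K Z : Type*} [CommGroup K] [MeasurableSpace K] [MeasurableSpace Z] {u : K} {m : Measure K}
  [IsProbabilityMeasure m] {M : Measure Z} {S : Z → Z} {y : Z → K} {s l : Z → ℝ}
  {E : Type*} [NormedAddCommGroup E] [InnerProductSpace ℂ E] [FiniteDimensional ℂ E] [CompleteSpace E]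
  [MeasurableSpace E] [BorelSpace E]
  {G : Type*} [Group G] [Finite G] [MeasurableSpace G] [DiscreteMeasurableSpace G]

/-! ## row e6b -/

-- BEGIN e6b

/-- `schur_scalar`: `N = ν` a.e., `d ν = ⟨T a, T a'⟩` (trace) -/
theorem gT_same [MeasurableMul K] (h : Sys u m M S y s l) (herg : Ergodic (fun x => u * x) m)
    {ρ : G →* UE E} (hI : Irr ρ) {c : K → G} (hc : Measurable c) (hM : Min u m c)
    {J : Set ℝ} (hJ : MeasurableSet J) (hJf : volume J ≠ ∞) {a a' : K → E} (ha : BM a)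
    (ha' : BM a') :
    (Module.finrank ℂ E : ℂ) *
      ⟪gT M S y s l (fun x => ρ (c x)) J a, gT M S y s l (fun x => ρ (c x)) J a'⟫_ℂ =
      ⟪TT M S y s l (fun x => ρ (c x)) J a, TT M S y s l (fun x => ρ (c x)) J a'⟫_ℂ *
        ∫ x, ⟪a' x, a x⟫_ℂ ∂m := by
  have hV : Measurable fun x => ρ (c x) :=
    (measurable_of_finite (fun g : G => ρ g)).comp hc
  obtain ⟨N, hN, hT, h1, h2⟩ := gT_inner h herg hV hV hJ hJf ha ha'
  obtain ⟨t, ht⟩ := schur_scalar hI hM hN.1 hT
  have h3 : ∫ x, ⟪a' x, N x (a x)⟫_ℂ ∂m = t * ∫ x, ⟪a' x, a x⟫_ℂ ∂m := by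
    rw [← integral_const_mul]
    refine integral_congr_ae ?_
    filter_upwards [ht] with x hx
    simp [hx]
  have h4 : ∫ x, LinearMap.trace ℂ E (N x : E →ₗ[ℂ] E) ∂m = t * Module.finrank ℂ E := by
    have h5 : ∫ x, LinearMap.trace ℂ E (N x : E →ₗ[ℂ] E) ∂m = ∫ x, t * (Module.finrank ℂ E : ℂ) ∂m := by
      refine integral_congr_ae ?_
      filter_upwards [ht] with x hx
      have h6 : (N x : E →ₗ[ℂ] E) = t • (1 : E →ₗ[ℂ] E) := by
        rw [hx]
        rfl
      rw [h6, map_smul, LinearMap.trace_one, smul_eq_mul]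
    rw [h5]
    simp
  rw [h1, h3, ← h2, h4]
  ring

-- END e6b

/-! ## row e7: C10 -/

-- BEGIN e7

/-- C10. Proof. The vectors `g_{j,i} = gT .. (a j i)` are pairwise orthogonal, `‖g‖² = ‖T a‖² / d`; Bessel's
inequality for `l 1_J` and the normalised nonzero `g_{j,i}`:
`∑ ‖T a‖⁴ / (‖T a‖² / d) ≤ ‖l 1_J‖² = |J|`. -/
theorem bessel [MeasurableMul K] (h : Sys u m M S y s l) (herg : Ergodic (fun x => u * x) m)
    {ρ : G →* UE E} (hI : Irr ρ) {ι κ : Type*} [Fintype ι] [Fintype κ]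
    [DecidableEq κ] (c : ι → K → G)
    (hc : ∀ j, Measurable (c j)) (hM : ∀ j, Min u m (c j))
    (hD : ∀ j j', j ≠ j' → Disj u m (fun x => ρ (c j x)) (fun x => ρ (c j' x)))
    {J : Set ℝ} (hJ : MeasurableSet J) (hJf : volume J ≠ ∞) (a : ι → κ → K → E)
    (ha : ∀ j i, BM (a j i))
    (ho : ∀ j i i', ∫ x, ⟪a j i x, a j i' x⟫_ℂ ∂m = if i = i' then 1 else 0) :
    ∑ j, ∑ i, (Module.finrank ℂ E : ℝ) * ‖TT M S y s l (fun x => ρ (c j x)) J (a j i)‖ ^ 2 ≤
      (volume J).toReal := by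
  classical
  rcases Nat.eq_zero_or_pos (Module.finrank ℂ E) with hd | hd
  · rw [hd]
    simp
  have hdc : (Module.finrank ℂ E : ℂ) ≠ 0 := Nat.cast_ne_zero.2 hd.ne'
  have hV : ∀ j, Measurable (fun x => ρ (c j x)) := fun j =>
    (Measurable.of_discrete (f := fun g : G => ρ g)).comp (hc j)
  let T : ι × κ → HE E M := fun k => TT M S y s l (fun x => ρ (c k.1 x)) J (a k.1 k.2)
  let g : ι × κ → HE ℂ M := fun k => gT M S y s l (fun x => ρ (c k.1 x)) J (a k.1 k.2)
  obtain ⟨w, hw⟩ : ∃ w : HE ℂ M, w = W M y s l J (fun _ : K => (1 : ℂ)) := ⟨_, rfl⟩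
  have h1 : ∀ k, ⟪w, g k⟫_ℂ = ((‖T k‖ ^ 2 : ℝ) : ℂ) := fun k => by
    rw [hw]; exact gT_inner_one h (hV k.1) hJ hJf (ha k.1 k.2)
  have h2 : ∀ k k' : ι × κ, k ≠ k' → ⟪g k, g k'⟫_ℂ = 0 := by
    rintro ⟨j, i⟩ ⟨j', i'⟩ hk
    by_cases hj : j = j'
    · subst hj
      have hi : i' ≠ i := fun hi => hk (by rw [hi])
      have h3 := gT_same h herg hI (hc j) (hM j) hJ hJf (ha j i) (ha j i')
      rw [ho j i' i, if_neg hi, mul_zero] at h3
      exact (mul_eq_zero.1 h3).resolve_left hdc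
    · exact gT_disj h herg (hV j) (hV j') (hD j j' hj) hJ hJf (ha j i) (ha j' i')
  have h3 : ∀ k : ι × κ, (Module.finrank ℂ E : ℂ) * ⟪g k, g k⟫_ℂ = ((‖T k‖ ^ 2 : ℝ) : ℂ) := by
    rintro ⟨j, i⟩
    have h4 := gT_same h herg hI (hc j) (hM j) hJ hJf (ha j i) (ha j i)
    rw [ho j i i, if_pos rfl, mul_one] at h4
    refine h4.trans ?_
    rw [inner_self_eq_norm_sq_to_K]
    push_cast
    rfl
  obtain ⟨A, hA⟩ : ∃ A : ℝ, A = ∑ k : ι × κ, (Module.finrank ℂ E : ℝ) * ‖T k‖ ^ 2 := ⟨_, rfl⟩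
  have hA0 : 0 ≤ A := hA ▸ Finset.sum_nonneg fun k _ => mul_nonneg (Nat.cast_nonneg _) (sq_nonneg _)
  obtain ⟨X, hX⟩ : ∃ X : HE ℂ M, X = ∑ k : ι × κ, (Module.finrank ℂ E : ℂ) • g k := ⟨_, rfl⟩
  have hAc : (A : ℂ) = ∑ k : ι × κ, (Module.finrank ℂ E : ℂ) * ((‖T k‖ ^ 2 : ℝ) : ℂ) := by
    rw [hA]
    push_cast
    rfl
  have h5 : ⟪w, X⟫_ℂ = (A : ℂ) := by
    rw [hX, inner_sum, hAc]
    refine Finset.sum_congr rfl fun k _ => ?_
    rw [inner_smul_right, h1 k]
  have h6 : ((‖X‖ ^ 2 : ℝ) : ℂ) = (A : ℂ) := by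
    have h7 : ⟪X, X⟫_ℂ = (A : ℂ) := by
      rw [hX, sum_inner, hAc]
      refine Finset.sum_congr rfl fun k _ => ?_
      rw [inner_sum, Finset.sum_eq_single k]
      · rw [inner_smul_left, inner_smul_right, h3 k, Complex.conj_natCast]
      · intro k' _ hk'
        rw [inner_smul_left, inner_smul_right, h2 k k' (Ne.symm hk'), mul_zero, mul_zero]
      · intro hk
        exact absurd (Finset.mem_univ k) hk
    rw [← h7, inner_self_eq_norm_sq_to_K]
    push_cast
    rfl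
  have h8 : ‖X‖ ^ 2 = A := by exact_mod_cast h6
  have h9 : A ≤ ‖w‖ * ‖X‖ := by
    have h10 := norm_inner_le_norm (𝕜 := ℂ) w X
    rw [h5, Complex.norm_real, Real.norm_of_nonneg hA0] at h10
    exact h10
  have h11 : A ≤ ‖w‖ ^ 2 := by
    rcases hA0.lt_or_eq with hpos | h0
    · have h12 : A * A ≤ A * ‖w‖ ^ 2 := by
        calc A * A ≤ (‖w‖ * ‖X‖) * (‖w‖ * ‖X‖) :=
              mul_le_mul h9 h9 hA0 (mul_nonneg (norm_nonneg _) (norm_nonneg _))
          _ = ‖X‖ ^ 2 * ‖w‖ ^ 2 := by ring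
          _ = A * ‖w‖ ^ 2 := by rw [h8]
      exact le_of_mul_le_mul_left h12 hpos
    · rw [← h0]; exact sq_nonneg _
  have h13 : ‖w‖ ^ 2 = (volume J).toReal := by
    rw [hw]; exact norm_one_J h hJ hJf
  rw [h13, hA, Fintype.sum_prod_type] at h11
  exact h11

-- END e7

end bes2

end Pool.Agent.S7C
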