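import Pool.Agent.S7C.Ker

/-!
# S7 (MP_13664e_an), block C: dilations (C12; helper69)
-/

set_option autoImplicit false

namespace Pool.Agent.S7C

open MeasureTheory Filter Topology ENNReal
open Pool.Agent.S7 (itc Dq Kq rt Vq)
open scoped InnerProductSpace

/-- the translate `J + t` -/
def sh (t : ℝ) (J : Set ℝ) : Set ℝ := (fun x => x - t) ⁻¹' J

/-- the axioms for one dilation -/
structure Dil {K Z : Type*} [CommGroup K] [MeasurableSpace K] [MeasurableSpace Z] (M : Measure Z)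
    (S : Z → Z) (y : Z → K) (s l : Z → ℝ) (q : ℕ) (D : Z → Z) : Prop where
  mD : Measurable D
  yD : ∀ z, y z ∈ Kq K q → y (D z) ^ q = y z
  sD : ∀ z, y z ∈ Kq K q → s (D z) = s z - Real.log q
  lD : ∀ z, y z ∈ Kq K q → l (D z) = -l z
  DS : ∀ z, y z ∈ Kq K q → D (S^[q] z) = S (D z)
  map : (M.restrict (y ⁻¹' Kq K q)).map D = (q : ℝ≥0∞)⁻¹ • M

section sh

/-! ## row f0 -/

-- BEGIN f0

theorem sh_measurable (t : ℝ) {J : Set ℝ} (hJ : MeasurableSet J) : MeasurableSet (sh t J) := by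
  exact (measurable_id.sub_const t) hJ

theorem sh_volume (t : ℝ) (J : Set ℝ) : volume (sh t J) = volume J := by
  have h : sh t J = (fun x => x + -t) ⁻¹' J := by
    simp only [sh, sub_eq_add_neg]
  rw [h]
  exact measure_preimage_add_right volume (-t) J

-- END f0

end sh

section dil

variable {K Z : Type*} [CommGroup K] [MeasurableSpace K] [MeasurableSpace Z] {u : K}
  {m : Measure K} [IsProbabilityMeasure m] {M : Measure Z} {S : Z → Z} {y : Z → K} {s l : Z → ℝ}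
  {E : Type*} [NormedAddCommGroup E] [InnerProductSpace ℂ E] [FiniteDimensional ℂ E] [CompleteSpace E]
  [MeasurableSpace E] [BorelSpace E] {q : ℕ} {D : Z → Z}

/-! ## row f1 -/

-- BEGIN f1

theorem Pw.Kq_meas (h : Pw u m q) : MeasurableSet (Kq K q : Set K) := by
  exact h.me.measurableSet_range

/-- `∫⁻_{y ∈ K^q} g(D z) dM = q⁻¹ ∫⁻ g dM` -/
theorem Dil.lint (hd : Dil M S y s l q D) (hp : Pw u m q) {g : Z → ℝ≥0∞} (hg : Measurable g) :
    (q : ℝ≥0∞) * ∫⁻ z in y ⁻¹' Kq K q, g (D z) ∂M = ∫⁻ z, g z ∂M := by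
  have hq : (q : ℝ≥0∞) ≠ 0 := Nat.cast_ne_zero.2 hp.q0.ne'
  have hq' : (q : ℝ≥0∞) ≠ ⊤ := ENNReal.natCast_ne_top q
  rw [← lintegral_map hg hd.mD, hd.map, lintegral_smul_measure, smul_eq_mul, ← mul_assoc,
    ENNReal.mul_inv_cancel hq hq', one_mul]

/-- a null set has a null preimage in `{y ∈ K^q}` -/
theorem Dil.null (h0 : Sys u m M S y s l) (hd : Dil M S y s l q D) (hp : Pw u m q) {p : Z → Prop} (h : ∀ᵐ z ∂M, p z) :
    ∀ᵐ z ∂M, y z ∈ Kq K q → p (D z) := by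
  have h1 : ∀ᵐ z ∂(M.restrict (y ⁻¹' Kq K q)), p (D z) := by
    refine ae_of_ae_map (f := D) hd.mD.aemeasurable ?_
    rw [hd.map]
    exact Measure.ae_smul_measure h _
  exact (ae_restrict_iff' (h0.my (Pw.Kq_meas hp))).1 h1

theorem BM_Vq (hp : Pw u m q) {a : K → E} (ha : BM a) : BM (Vq q a) := by
  obtain ⟨h1, C, hC⟩ := ha
  refine ⟨((h1.comp hp.rt_measurable).const_smul (q : ℂ)).indicator (Pw.Kq_meas hp),
    ‖(q : ℂ)‖ * C, fun x => ?_⟩
  refine (norm_indicator_le_norm_self _ x).trans ?_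
  rw [norm_smul]
  exact mul_le_mul_of_nonneg_left (hC _) (norm_nonneg _)

/-- `∫ F(x, V_q a) dm`: `∫ Ψ x (V_q a x) dm = ∫ Ψ (x ^ q) (a x) dm`, by (PF) -/
theorem int_Vq {H : Type*} [NormedAddCommGroup H] [NormedSpace ℂ H] [CompleteSpace H]
    (hp : Pw u m q) {Ψ : K → E →L[ℂ] H} (hΨ : StronglyMeasurable Ψ) {a : K → E} (ha : BM a) :
    ∫ x, Ψ x (Vq q a x) ∂m = ∫ x, Ψ (x ^ q) (a x) ∂m := by
  have h1 : ∀ x, Ψ x (Vq q a x) =
      (Kq K q).indicator (fun x => (q : ℂ) • Ψ x (a (rt q x))) x := by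
    intro x
    by_cases hx : x ∈ Kq K q
    · simp only [Vq, Set.indicator_of_mem hx, map_smul]
    · simp only [Vq, Set.indicator_of_notMem hx, map_zero]
  have h2 : ∀ x, Ψ (x ^ q) (a x) = (fun z => Ψ z (a (rt q z))) (x ^ q) := by
    intro x
    show Ψ (x ^ q) (a x) = Ψ (x ^ q) (a (rt q (x ^ q)))
    rw [hp.rt_pow' x]
  calc ∫ x, Ψ x (Vq q a x) ∂m
      = ∫ x, (Kq K q).indicator (fun x => (q : ℂ) • Ψ x (a (rt q x))) x ∂m := by
        exact integral_congr_ae (ae_of_all _ h1)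
    _ = ∫ x in Kq K q, (q : ℂ) • Ψ x (a (rt q x)) ∂m := integral_indicator (Pw.Kq_meas hp)
    _ = (q : ℂ) • ∫ x in Kq K q, Ψ x (a (rt q x)) ∂m := integral_smul _ _
    _ = ∫ z, Ψ z (a (rt q z)) ∂((q : ℝ≥0∞) • m.restrict (Kq K q)) := by
        rw [integral_smul_measure, ENNReal.toReal_natCast, ← Complex.coe_smul]
        norm_cast
    _ = ∫ z, Ψ z (a (rt q z)) ∂(m.map (fun y : K => y ^ q)) := by rw [hp.pf]
    _ = ∫ x, (fun z => Ψ z (a (rt q z))) (x ^ q) ∂m := hp.me.integral_map _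
    _ = ∫ x, Ψ (x ^ q) (a x) ∂m := by
        exact integral_congr_ae (ae_of_all _ fun x => (h2 x).symm)

-- END f1

/-! ## row f2: the isometry `Δ` -/

-- BEGIN f2

/-- `Δ F (z) = √q 1[y z ∈ K^q] F(D z)` is well defined on `L²(M; E)` and isometric (`Dil.lint`); polarise for
the inner products (or: a linear isometry preserves inner products). -/
theorem exists_Delta (h : Sys u m M S y s l) (hd : Dil M S y s l q D) (hp : Pw u m q) :
    ∃ Δ : HE E M →ₗᵢ[ℂ] HE E M, ∀ F : HE E M, Δ F =ᵐ[M]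
      Set.indicator (y ⁻¹' Kq K q) fun z => ((Real.sqrt q : ℝ) : ℂ) • F (D z) := by
  have hAm : MeasurableSet (y ⁻¹' Kq K q) := h.my hp.Kq_meas
  have hsm : ∀ F : HE E M, StronglyMeasurable
      (Set.indicator (y ⁻¹' Kq K q) fun z => ((Real.sqrt q : ℝ) : ℂ) • F (D z)) := fun F =>
    (((Lp.stronglyMeasurable F).comp_measurable hd.mD).const_smul _).indicator hAm
  have hc : ‖((Real.sqrt q : ℝ) : ℂ)‖ₑ ^ (2 : ℝ) = (q : ℝ≥0∞) := by
    rw [← ofReal_norm, Complex.norm_real, Real.norm_of_nonneg (Real.sqrt_nonneg _),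
      ENNReal.ofReal_rpow_of_nonneg (Real.sqrt_nonneg _) (by norm_num), Real.rpow_two,
      Real.sq_sqrt (Nat.cast_nonneg _), ENNReal.ofReal_natCast]
  have hnorm : ∀ F : HE E M, eLpNorm
      (Set.indicator (y ⁻¹' Kq K q) fun z => ((Real.sqrt q : ℝ) : ℂ) • F (D z)) 2 M =
      eLpNorm F 2 M := by
    intro F
    have hgm : Measurable fun z => ‖F z‖ₑ ^ (2 : ℝ) :=
      (Lp.stronglyMeasurable F).enorm.pow_const _
    have hgm' : Measurable fun z => ‖F (D z)‖ₑ ^ (2 : ℝ) := hgm.comp hd.mD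
    rw [eLpNorm_eq_lintegral_rpow_enorm_toReal two_ne_zero ENNReal.ofNat_ne_top,
      eLpNorm_eq_lintegral_rpow_enorm_toReal two_ne_zero ENNReal.ofNat_ne_top, ENNReal.toReal_ofNat]
    congr 1
    rw [← hd.lint hp hgm, ← lintegral_const_mul _ hgm', ← lintegral_indicator hAm]
    refine lintegral_congr fun z => ?_
    by_cases hz : z ∈ y ⁻¹' Kq K q
    · rw [Set.indicator_of_mem hz, Set.indicator_of_mem hz, enorm_smul,
        ENNReal.mul_rpow_of_nonneg _ _ (by norm_num), hc]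
    · rw [Set.indicator_of_notMem hz, Set.indicator_of_notMem hz, enorm_zero,
        ENNReal.zero_rpow_of_pos (by norm_num)]
  have hmem : ∀ F : HE E M, MemLp
      (Set.indicator (y ⁻¹' Kq K q) fun z => ((Real.sqrt q : ℝ) : ℂ) • F (D z)) 2 M := fun F =>
    ⟨(hsm F).aestronglyMeasurable, by rw [hnorm]; exact (Lp.memLp F).2⟩
  let L : HE E M →ₗ[ℂ] HE E M :=
    { toFun := fun F => (hmem F).toLp
      map_add' := fun F G => by
        rw [← MemLp.toLp_add]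
        refine MemLp.toLp_congr _ _ ?_
        filter_upwards [Dil.null h hd hp (Lp.coeFn_add F G)] with z hz
        by_cases hzA : z ∈ y ⁻¹' Kq K q
        · rw [Pi.add_apply, Set.indicator_of_mem hzA, Set.indicator_of_mem hzA,
            Set.indicator_of_mem hzA, hz hzA, Pi.add_apply, smul_add]
        · rw [Pi.add_apply, Set.indicator_of_notMem hzA, Set.indicator_of_notMem hzA,
            Set.indicator_of_notMem hzA, add_zero]
      map_smul' := fun c F => by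
        rw [RingHom.id_apply, ← MemLp.toLp_const_smul]
        refine MemLp.toLp_congr _ _ ?_
        filter_upwards [Dil.null h hd hp (Lp.coeFn_smul c F)] with z hz
        by_cases hzA : z ∈ y ⁻¹' Kq K q
        · rw [Pi.smul_apply, Set.indicator_of_mem hzA, Set.indicator_of_mem hzA, hz hzA,
            Pi.smul_apply, smul_comm]
        · rw [Pi.smul_apply, Set.indicator_of_notMem hzA, Set.indicator_of_notMem hzA, smul_zero] }
  refine ⟨⟨L, fun F => ?_⟩, fun F => MemLp.coeFn_toLp (hmem F)⟩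
  change ‖(hmem F).toLp‖ = ‖F‖
  rw [Lp.norm_toLp, hnorm F, Lp.norm_def]

-- END f2

/-! ## row f3 -/

-- BEGIN f3

/-- `w_J(V_q a) = - √q Δ w_{J - log q}(a)`: for `y z ∈ K^q`: `s (D z) = s z - log q`, `l (D z) = - l z`,
`y (D z) = rt q (y z)` (injectivity) -/
theorem W_Vq (h : Sys u m M S y s l) (hd : Dil M S y s l q D) (hp : Pw u m q)
    {Δ : HE E M →ₗᵢ[ℂ] HE E M} (hΔ : ∀ F : HE E M, Δ F =ᵐ[M]
      Set.indicator (y ⁻¹' Kq K q) fun z => ((Real.sqrt q : ℝ) : ℂ) • F (D z))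
    {J : Set ℝ} (hJ : MeasurableSet J) (hJf : volume J ≠ ∞) {a : K → E} (ha : BM a) :
    W M y s l J (Vq q a) =
      -((Real.sqrt q : ℝ) : ℂ) • Δ (W M y s l (sh (-Real.log q) J) a) := by
  have hJ' : MeasurableSet (sh (-Real.log q) J) := sh_measurable _ hJ
  have hJf' : volume (sh (-Real.log q) J) ≠ ∞ := by
    rw [sh_volume]
    exact hJf
  refine Lp.ext ?_
  filter_upwards [W_coe h hJ hJf (BM_Vq hp ha),
    Lp.coeFn_smul (-((Real.sqrt q : ℝ) : ℂ)) (Δ (W M y s l (sh (-Real.log q) J) a)),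
    hΔ (W M y s l (sh (-Real.log q) J) a),
    Dil.null h hd hp (W_coe h hJ' hJf' ha)] with z h1 h2 h3 h4
  rw [h1, h2, Pi.smul_apply, h3]
  by_cases hz : y z ∈ Kq K q
  · have hz' : z ∈ y ⁻¹' Kq K q := hz
    have hr : rt q (y z) = y (D z) := by
      rw [← hd.yD z hz]
      exact hp.rt_pow' _
    have hV : Vq q a (y z) = (q : ℂ) • a (y (D z)) := by
      unfold Vq
      rw [Set.indicator_of_mem hz, hr]
    have hsq : ((Real.sqrt q : ℝ) : ℂ) * ((Real.sqrt q : ℝ) : ℂ) = (q : ℂ) := by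
      rw [← Complex.ofReal_mul, Real.mul_self_sqrt (Nat.cast_nonneg q), Complex.ofReal_natCast]
    rw [Set.indicator_of_mem hz', h4 hz]
    have hs : D z ∈ s ⁻¹' sh (-Real.log q) J ↔ z ∈ s ⁻¹' J := by
      change s (D z) - -Real.log q ∈ J ↔ s z ∈ J
      rw [hd.sD z hz, sub_neg_eq_add, sub_add_cancel]
    unfold wf
    by_cases hzJ : z ∈ s ⁻¹' J
    · rw [Set.indicator_of_mem hzJ, Set.indicator_of_mem (hs.2 hzJ), hV, hd.lD z hz, ← hsq]
      simp only [smul_smul, Complex.ofReal_neg]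
      congr 1
      ring
    · rw [Set.indicator_of_notMem hzJ, Set.indicator_of_notMem (fun h => hzJ (hs.1 h)), smul_zero,
        smul_zero]
  · have hz' : z ∉ y ⁻¹' Kq K q := hz
    rw [Set.indicator_of_notMem hz', smul_zero]
    unfold wf
    by_cases hzJ : z ∈ s ⁻¹' J
    · rw [Set.indicator_of_mem hzJ]
      unfold Vq
      rw [Set.indicator_of_notMem hz, smul_zero]
    · rw [Set.indicator_of_notMem hzJ]

-- END f3

/-! ## row f4 -/

-- BEGIN f4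

private lemma f4_mem {K : Type*} [CommGroup K] {q : ℕ} (u x : K) :
    u ^ q * x ∈ Kq K q ↔ x ∈ Kq K q := by
  constructor
  · rintro ⟨a, ha⟩
    refine ⟨u⁻¹ * a, ?_⟩
    change a ^ q = u ^ q * x at ha
    change (u⁻¹ * a) ^ q = x
    rw [mul_pow, ha, inv_pow, inv_mul_cancel_left]
  · rintro ⟨a, ha⟩
    refine ⟨u * a, ?_⟩
    change a ^ q = x at ha
    change (u * a) ^ q = u ^ q * x
    rw [mul_pow, ha]

/-- `U_V^q Δ = Δ U_{D_q V}`: `V_q(y z)⁻¹ = (D_q V)(y (D z))⁻¹` and `D (S^q z) = S (D z)`, `u^q y ∈ K^q` -/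
theorem Uop_Delta (h : Sys u m M S y s l) (hd : Dil M S y s l q D) (hp : Pw u m q)
    {V : K → UE E} (hV : Measurable V) (hV' : Measurable (Dq u V q)) {Δ : HE E M →ₗᵢ[ℂ] HE E M}
    (hΔ : ∀ F : HE E M, Δ F =ᵐ[M]
      Set.indicator (y ⁻¹' Kq K q) fun z => ((Real.sqrt q : ℝ) : ℂ) • F (D z)) (F : HE E M) :
    (Uop M S y V ^ q) (Δ F) = Δ (Uop M S y (Dq u V q) F) := by
  refine Lp.ext ?_
  have e1 := Uop_pow_coe h hV q (Δ F)
  have e2 := (h.mp.iterate q).quasiMeasurePreserving.ae (hΔ F)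
  have e3 := hΔ (Uop M S y (Dq u V q) F)
  have e4 := Dil.null h hd hp (Uop_coe h hV' F)
  filter_upwards [e1, e2, e3, e4] with z h1 h2 h3 h4
  rw [h1, h2, h3]
  by_cases hz : y z ∈ Kq K q
  · have hz' : S^[q] z ∈ y ⁻¹' Kq K q := by
      change y (S^[q] z) ∈ Kq K q
      rw [h.y_iter]
      exact (f4_mem u (y z)).mpr hz
    have hz'' : z ∈ y ⁻¹' Kq K q := hz
    have hDq : Dq u V q (y (D z)) = itc u V q (y z) := by
      change itc u V q (y (D z) ^ q) = _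
      rw [hd.yD z hz]
    rw [Set.indicator_of_mem hz', Set.indicator_of_mem hz'', h4 hz, hd.DS z hz, hDq, map_smul]
  · have hz' : S^[q] z ∉ y ⁻¹' Kq K q := by
      change ¬ (y (S^[q] z) ∈ Kq K q)
      rw [h.y_iter]
      exact fun hc => hz ((f4_mem u (y z)).mp hc)
    have hz'' : z ∉ y ⁻¹' Kq K q := hz
    rw [Set.indicator_of_notMem hz', Set.indicator_of_notMem hz'', map_zero]

/-- for `0 ≤ i < j < q` the vectors `U_V^i Δ F`, `U_V^j Δ F'` are orthogonal: their supports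
`{u^i y ∈ K^q}`, `{u^j y ∈ K^q}` are disjoint (`Pw.mem`) -/
theorem Delta_orth (h : Sys u m M S y s l) (hp : Pw u m q) {V : K → UE E} (hV : Measurable V)
    {Δ : HE E M →ₗᵢ[ℂ] HE E M} (hΔ : ∀ F : HE E M, Δ F =ᵐ[M]
      Set.indicator (y ⁻¹' Kq K q) fun z => ((Real.sqrt q : ℝ) : ℂ) • F (D z)) {i j : ℕ}
    (hij : i < j) (hj : j < q) (F F' : HE E M) :
    ⟪(Uop M S y V ^ i) (Δ F), (Uop M S y V ^ j) (Δ F')⟫_ℂ = 0 := by
  rw [L2.inner_def]
  refine integral_eq_zero_of_ae ?_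
  have e1 := Uop_pow_coe h hV i (Δ F)
  have e2 := Uop_pow_coe h hV j (Δ F')
  have e3 := (h.mp.iterate i).quasiMeasurePreserving.ae (hΔ F)
  have e4 := (h.mp.iterate j).quasiMeasurePreserving.ae (hΔ F')
  filter_upwards [e1, e2, e3, e4] with z h1 h2 h3 h4
  change ⟪((Uop M S y V ^ i) (Δ F)) z, ((Uop M S y V ^ j) (Δ F')) z⟫_ℂ = 0
  rw [h1, h2, h3, h4]
  by_cases hi : S^[i] z ∈ y ⁻¹' Kq K q
  · by_cases hj' : S^[j] z ∈ y ⁻¹' Kq K q
    · exfalso
      obtain ⟨a, ha⟩ := (show y (S^[i] z) ∈ Kq K q from hi)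
      obtain ⟨b, hb⟩ := (show y (S^[j] z) ∈ Kq K q from hj')
      change a ^ q = y (S^[i] z) at ha
      change b ^ q = y (S^[j] z) at hb
      rw [h.y_iter] at ha hb
      have h5 : (b * a⁻¹) ^ q = u ^ (j - i) := by
        rw [mul_pow, inv_pow, ha, hb, mul_inv, mul_mul_mul_comm, mul_inv_cancel, mul_one,
          ← pow_sub u hij.le]
      have h6 := (hp.mem (j - i)).mp ⟨_, h5⟩
      have h7 := Nat.le_of_dvd (by omega) h6
      omega
    · rw [Set.indicator_of_notMem hj', map_zero, inner_zero_right]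
  · rw [Set.indicator_of_notMem hi, map_zero, inner_zero_left]

-- END f4

/-! ## row f5 -/

-- BEGIN f5

private theorem f5_pow {H : Type*} [NormedAddCommGroup H] [InnerProductSpace ℂ H]
    {T T' : H →L[ℂ] H} {Δ : H →ₗᵢ[ℂ] H} {q : ℕ} (hT : ∀ F, (T ^ q) (Δ F) = Δ (T' F)) (n : ℕ)
    (F : H) : (T ^ (q * n)) (Δ F) = Δ ((T' ^ n) F) := by
  induction n generalizing F with
  | zero => simp
  | succ n ih =>
    rw [Nat.mul_succ, pow_add, mul_apply_eq_comp, hT, ih, pow_succ,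
      mul_apply_eq_comp]

private theorem f5_sum {H : Type*} [NormedAddCommGroup H] [InnerProductSpace ℂ H]
    {T T' : H →L[ℂ] H} {Δ : H →ₗᵢ[ℂ] H} {q : ℕ} (hT : ∀ F, (T ^ q) (Δ F) = Δ (T' F)) (n : ℕ)
    (F : H) : ∑ k ∈ Finset.range (q * n), (T ^ k) (Δ F) =
      ∑ j ∈ Finset.range q, (T ^ j) (Δ (∑ k ∈ Finset.range n, (T' ^ k) F)) := by
  induction n with
  | zero => simp
  | succ n ih =>
    rw [Nat.mul_succ, Finset.sum_range_add, ih, ← Finset.sum_add_distrib]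
    refine Finset.sum_congr rfl fun j _ => ?_
    rw [Finset.sum_range_succ, map_add, map_add, add_comm (q * n) j, pow_add,
      mul_apply_eq_comp, f5_pow hT]

private theorem f5_lim {H : Type*} [NormedAddCommGroup H] [InnerProductSpace ℂ H]
    {T T' : H →L[ℂ] H} {Δ : H →ₗᵢ[ℂ] H} {q : ℕ} (hq : 0 < q)
    (hT : ∀ F, (T ^ q) (Δ F) = Δ (T' F)) {F G G' : H}
    (h1 : Tendsto (fun n : ℕ => ((n : ℂ)⁻¹) • ∑ k ∈ Finset.range n, (T ^ k) (Δ F)) atTop (𝓝 G))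
    (h2 : Tendsto (fun n : ℕ => ((n : ℂ)⁻¹) • ∑ k ∈ Finset.range n, (T' ^ k) F) atTop (𝓝 G')) :
    G = ((q : ℂ)⁻¹) • ∑ j ∈ Finset.range q, (T ^ j) (Δ G') := by
  have h3 : Tendsto (fun n : ℕ => q * n) atTop atTop :=
    tendsto_id.const_mul_atTop' hq
  refine tendsto_nhds_unique (h1.comp h3) ?_
  have h4 : Tendsto (fun n : ℕ => ((q : ℂ)⁻¹) • ∑ j ∈ Finset.range q,
      (T ^ j) (Δ (((n : ℂ)⁻¹) • ∑ k ∈ Finset.range n, (T' ^ k) F))) atTop
      (𝓝 (((q : ℂ)⁻¹) • ∑ j ∈ Finset.range q, (T ^ j) (Δ G'))) := by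
    refine Tendsto.const_smul (tendsto_finsetSum _ fun j _ => ?_) _
    exact (((T ^ j).continuous.comp Δ.continuous).tendsto _).comp h2
  refine h4.congr fun n => ?_
  simp only [Function.comp_apply]
  rw [f5_sum hT]
  simp only [map_smul]
  rw [← Finset.smul_sum, smul_smul, Nat.cast_mul, mul_inv]

private theorem f5_inner {H : Type*} [NormedAddCommGroup H] [InnerProductSpace ℂ H]
    {T : H →L[ℂ] H} (hT : ∀ F, ‖T F‖ = ‖F‖) (F G : H) (j : ℕ) :
    ⟪(T ^ j) F, (T ^ j) G⟫_ℂ = ⟪F, G⟫_ℂ := by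
  induction j with
  | zero => simp
  | succ j ih =>
    rw [pow_succ', mul_apply_eq_comp, mul_apply_eq_comp, ← ih]
    let I : H →ₗᵢ[ℂ] H := ⟨(T : H →ₗ[ℂ] H), hT⟩
    exact I.inner_map_map ((T ^ j) F) ((T ^ j) G)

private theorem f5_fin {H : Type*} [NormedAddCommGroup H] [InnerProductSpace ℂ H]
    {T : H →L[ℂ] H} {Δ : H →ₗᵢ[ℂ] H} {q : ℕ} (hq : 0 < q) (hT : ∀ F, ‖T F‖ = ‖F‖)
    (ho : ∀ i j : ℕ, i < j → j < q → ∀ F F' : H, ⟪(T ^ i) (Δ F), (T ^ j) (Δ F')⟫_ℂ = 0)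
    (G G' : H) :
    (q : ℂ) * ⟪((q : ℂ)⁻¹) • ∑ j ∈ Finset.range q, (T ^ j) (Δ G),
      ((q : ℂ)⁻¹) • ∑ j ∈ Finset.range q, (T ^ j) (Δ G')⟫_ℂ = ⟪G, G'⟫_ℂ := by
  have hq0 : (q : ℂ) ≠ 0 := by exact_mod_cast hq.ne'
  have h1 : ∀ i ∈ Finset.range q, ⟪(T ^ i) (Δ G),
      ∑ j ∈ Finset.range q, (T ^ j) (Δ G')⟫_ℂ = ⟪G, G'⟫_ℂ := by
    intro i hi
    rw [inner_sum, Finset.sum_eq_single_of_mem i hi]
    · rw [f5_inner hT, Δ.inner_map_map]
    · intro j hj hji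
      rcases lt_or_gt_of_ne hji with hlt | hlt
      · rw [← inner_conj_symm, ho j i hlt (Finset.mem_range.1 hi), map_zero]
      · exact ho i j hlt (Finset.mem_range.1 hj) _ _
  rw [inner_smul_left, inner_smul_right, sum_inner, Finset.sum_congr rfl h1, Finset.sum_const,
    Finset.card_range, nsmul_eq_mul, map_inv₀, Complex.conj_natCast]
  field_simp


/-- Proof. `P_V Δ F = (1/q) ∑_{j<q} U_V^j Δ P' F`, `P' = P_{D_q V}`: the averages over `n < q H` of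
`U_V^n Δ F` are `(1/q) ∑_{j<q} U_V^j Δ (1/H) ∑_{n<H} U'^n F` (`Uop_Delta`), pass to the limit (`PV_tendsto`).
Then `⟨P_V Δ F, P_V Δ F'⟩ = (1/q²) ∑_j ⟨U^j Δ P'F, U^j Δ P'F'⟩ = (1/q) ⟨P'F, P'F'⟩` (`Delta_orth`). -/
theorem PV_Delta (h : Sys u m M S y s l) (hd : Dil M S y s l q D) (hp : Pw u m q)
    {V : K → UE E} (hV : Measurable V) (hV' : Measurable (Dq u V q)) {Δ : HE E M →ₗᵢ[ℂ] HE E M}
    (hΔ : ∀ F : HE E M, Δ F =ᵐ[M]
      Set.indicator (y ⁻¹' Kq K q) fun z => ((Real.sqrt q : ℝ) : ℂ) • F (D z)) (F F' : HE E M) :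
    (q : ℂ) * ⟪PV M S y V (Δ F), PV M S y V (Δ F')⟫_ℂ =
      ⟪PV M S y (Dq u V q) F, PV M S y (Dq u V q) F'⟫_ℂ := by
  have hT : ∀ F : HE E M, (Uop M S y V ^ q) (Δ F) = Δ (Uop M S y (Dq u V q) F) :=
    fun F => Uop_Delta h hd hp hV hV' hΔ F
  have e1 := f5_lim (H := HE E M) hp.q0 hT (PV_tendsto h hV (Δ F)) (PV_tendsto h hV' F)
  have e2 := f5_lim (H := HE E M) hp.q0 hT (PV_tendsto h hV (Δ F')) (PV_tendsto h hV' F')
  have e3 : ∀ G : HE E M, ‖Uop M S y V G‖ = ‖G‖ := fun G => Uop_norm h hV G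
  have e4 : ∀ i j : ℕ, i < j → j < q → ∀ G G' : HE E M,
      ⟪(Uop M S y V ^ i) (Δ G), (Uop M S y V ^ j) (Δ G')⟫_ℂ = 0 :=
    fun i j hij hj G G' => Delta_orth h hp hV hΔ hij hj G G'
  have e5 := f5_fin (H := HE E M) (T := Uop M S y V) (Δ := Δ) hp.q0 e3 e4
    (PV M S y (Dq u V q) F) (PV M S y (Dq u V q) F')
  rw [e1, e2]
  exact e5

-- END f5

/-! ## row f6: C12 -/

-- BEGIN f6

/-- C12. -/
theorem TT_dil (h : Sys u m M S y s l) (hd : Dil M S y s l q D) (hp : Pw u m q)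
    {V : K → UE E} (hV : Measurable V) (hV' : Measurable (Dq u V q))
    {J : Set ℝ} (hJ : MeasurableSet J) (hJf : volume J ≠ ∞) {a b : K → E} (ha : BM a) (hb : BM b) :
    ⟪TT M S y s l V J (Vq q a), TT M S y s l V J (Vq q b)⟫_ℂ =
      ⟪TT M S y s l (Dq u V q) (sh (-Real.log q) J) a,
        TT M S y s l (Dq u V q) (sh (-Real.log q) J) b⟫_ℂ := by
  obtain ⟨Δ, hΔ⟩ := exists_Delta (E := E) h hd hp
  have h1 : ∀ w : HE E M, PV M S y V (-((Real.sqrt q : ℝ) : ℂ) • Δ w) =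
      -((Real.sqrt q : ℝ) : ℂ) • PV M S y V (Δ w) := fun w => map_smul _ _ _
  unfold TT
  rw [W_Vq h hd hp hΔ hJ hJf ha, W_Vq h hd hp hΔ hJ hJf hb, h1, h1, inner_smul_left,
    inner_smul_right, map_neg, Complex.conj_ofReal, ← PV_Delta h hd hp hV hV' hΔ, ← mul_assoc]
  congr 1
  rw [neg_mul_neg, ← Complex.ofReal_mul, Real.mul_self_sqrt (Nat.cast_nonneg q)]
  simp

-- END f6

end dil

end Pool.Agent.S7C
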