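import Pool.Agent.S7C.Bes

/-!
# S7 (MP_13664e_an), block C: kernels (C11) and the Gram matrix lemma (C13) (helper69)
-/

set_option autoImplicit false

namespace Pool.Agent.S7C

open MeasureTheory Filter Topology ENNReal
open Pool.Agent.S7 (itc Dq Kq rt Vq)
open scoped InnerProductSpace

section ker

variable {K : Type*} [MeasurableSpace K] {m : Measure K} [IsProbabilityMeasure m]
  {E : Type*} [NormedAddCommGroup E] [InnerProductSpace ℂ E] [FiniteDimensional ℂ E]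
  [MeasurableSpace E] [BorelSpace E]
  {H : Type*} [NormedAddCommGroup H] [InnerProductSpace ℂ H] [CompleteSpace H]
  [SecondCountableTopology H]

/-! ## row k1: integrals against a kernel -/

-- BEGIN k1

/-- `x ↦ Ψ x (a x)` is integrable for bounded strongly measurable `Ψ` and `BM a` -/
theorem ker_integrable {Ψ : K → E →L[ℂ] H} (hΨ : AEStronglyMeasurable Ψ m) {C : ℝ}
    (hC : ∀ᵐ x ∂m, ‖Ψ x‖ ≤ C) {a : K → E} (ha : BM a) : Integrable (fun x => Ψ x (a x)) m := by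
  obtain ⟨ham, A, hA⟩ := ha
  haveI : ProperSpace E := FiniteDimensional.proper ℂ E
  have h1 : AEStronglyMeasurable a m := ham.aestronglyMeasurable
  have h2 : AEStronglyMeasurable (fun x => Ψ x (a x)) m :=
    isBoundedBilinearMap_apply.continuous.comp_aestronglyMeasurable (hΨ.prodMk h1)
  refine Integrable.of_bound h2 (C * A) ?_
  filter_upwards [hC] with x hx
  calc ‖Ψ x (a x)‖ ≤ ‖Ψ x‖ * ‖a x‖ := (Ψ x).le_opNorm _
    _ ≤ C * A := mul_le_mul hx (hA x) (norm_nonneg _) ((norm_nonneg _).trans hx)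

/-- private: the scalar bound -/
private theorem k1_scalar {Ψ : K → E →L[ℂ] H} (hΨ : AEStronglyMeasurable Ψ m) {C' : ℝ}
    (hC' : ∀ᵐ x ∂m, ‖Ψ x‖ ≤ C') {C : ℝ} (hC : 0 ≤ C)
    (h : ∀ a : K → E, BM a → ‖∫ x, Ψ x (a x) ∂m‖ ≤ C * ∫ x, ‖a x‖ ∂m) (w : H) (e : E) :
    ∀ᵐ x ∂m, ‖⟪w, Ψ x e⟫_ℂ‖ ≤ C * ‖w‖ * ‖e‖ := by
  have hint : Integrable (fun x => Ψ x e) m := by
    refine ker_integrable hΨ hC' (a := fun _ => e) ⟨measurable_const, ‖e‖, fun _ => le_rfl⟩
  have hf : Integrable (fun x => ⟪w, Ψ x e⟫_ℂ) m := hint.const_inner w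
  obtain ⟨f', hf'm, hf'e⟩ : ∃ f' : K → ℂ, Measurable f' ∧ (fun x => ⟪w, Ψ x e⟫_ℂ) =ᵐ[m] f' :=
    ⟨hf.1.mk _, hf.1.stronglyMeasurable_mk.measurable, hf.1.ae_eq_mk⟩
  -- the phase
  have hph : ∃ φ : K → ℂ, Measurable φ ∧ (∀ x, ‖φ x‖ ≤ 1) ∧ ∀ x, φ x * f' x = (‖f' x‖ : ℂ) := by
    refine ⟨fun x => (starRingEnd ℂ) (f' x) * ((‖f' x‖⁻¹ : ℝ) : ℂ), ?_, ?_, ?_⟩
    · exact (Complex.continuous_conj.measurable.comp hf'm).mul
        (Complex.continuous_ofReal.measurable.comp (hf'm.norm.inv))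
    · intro x
      rw [norm_mul, RCLike.norm_conj, Complex.norm_real, norm_inv, norm_norm]
      by_cases h0 : ‖f' x‖ = 0
      · rw [h0]; norm_num
      · rw [mul_inv_cancel₀ h0]
    · intro x
      by_cases h0 : ‖f' x‖ = 0
      · have : f' x = 0 := norm_eq_zero.1 h0
        simp [this]
      · have h1 : (starRingEnd ℂ) (f' x) * f' x = ((‖f' x‖ ^ 2 : ℝ) : ℂ) := by
          rw [mul_comm, Complex.mul_conj, Complex.normSq_eq_norm_sq]
        calc (starRingEnd ℂ) (f' x) * ((‖f' x‖⁻¹ : ℝ) : ℂ) * f' x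
            = ((starRingEnd ℂ) (f' x) * f' x) * ((‖f' x‖⁻¹ : ℝ) : ℂ) := by ring
          _ = ((‖f' x‖ ^ 2 * ‖f' x‖⁻¹ : ℝ) : ℂ) := by rw [h1, ← Complex.ofReal_mul]
          _ = (‖f' x‖ : ℂ) := by
              congr 1
              field_simp
  obtain ⟨φ, hφm, hφ1, hφ⟩ := hph
  have key : (fun x => ‖⟪w, Ψ x e⟫_ℂ‖) ≤ᵐ[m] fun _ => C * ‖w‖ * ‖e‖ := by
    refine ae_le_of_forall_setIntegral_le hf.norm (integrable_const _) ?_
    intro B hB _
    have haBM : BM (fun x => (B.indicator φ x) • e : K → E) := by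
      refine ⟨(hφm.indicator hB).smul_const e, ‖e‖, fun x => ?_⟩
      rw [norm_smul]
      have : ‖B.indicator φ x‖ ≤ 1 := (norm_indicator_le_norm_self φ x).trans (hφ1 x)
      calc ‖B.indicator φ x‖ * ‖e‖ ≤ 1 * ‖e‖ := mul_le_mul_of_nonneg_right this (norm_nonneg _)
        _ = ‖e‖ := one_mul _
    have h1 := h _ haBM
    have hi := ker_integrable hΨ hC' haBM
    -- the left side
    have h2 : ⟪w, ∫ x, Ψ x ((B.indicator φ x) • e) ∂m⟫_ℂ =
        ((∫ x in B, ‖⟪w, Ψ x e⟫_ℂ‖ ∂m : ℝ) : ℂ) := by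
      rw [← integral_inner hi w, ← integral_complex_ofReal, ← integral_indicator hB]
      refine integral_congr_ae ?_
      filter_upwards [hf'e] with x hx
      by_cases hxB : x ∈ B
      · rw [Set.indicator_of_mem hxB, Set.indicator_of_mem hxB, map_smul, inner_smul_right]
        rw [show (⟪w, Ψ x e⟫_ℂ : ℂ) = f' x from hx]
        exact hφ x
      · rw [Set.indicator_of_notMem hxB, Set.indicator_of_notMem hxB, zero_smul, map_zero,
          inner_zero_right]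
    have h3 : ∫ x in B, ‖⟪w, Ψ x e⟫_ℂ‖ ∂m ≤ ‖w‖ * ‖∫ x, Ψ x ((B.indicator φ x) • e) ∂m‖ := by
      have h4 := norm_inner_le_norm (𝕜 := ℂ) w (∫ x, Ψ x ((B.indicator φ x) • e) ∂m)
      rw [h2, Complex.norm_real] at h4
      exact (le_abs_self _).trans h4
    have h5 : ∫ x, ‖(B.indicator φ x) • e‖ ∂m ≤ ∫ x in B, ‖e‖ ∂m := by
      rw [← integral_indicator hB]
      refine integral_mono_of_nonneg (Eventually.of_forall fun x => norm_nonneg _)
        ((integrable_const _).indicator hB) (Eventually.of_forall fun x => ?_)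
      by_cases hxB : x ∈ B
      · simp only [Set.indicator_of_mem hxB, norm_smul]
        calc ‖φ x‖ * ‖e‖ ≤ 1 * ‖e‖ := mul_le_mul_of_nonneg_right (hφ1 x) (norm_nonneg _)
          _ = ‖e‖ := one_mul _
      · simp only [Set.indicator_of_notMem hxB, zero_smul, norm_zero]
        exact le_rfl
    calc ∫ x in B, ‖⟪w, Ψ x e⟫_ℂ‖ ∂m ≤ ‖w‖ * ‖∫ x, Ψ x ((B.indicator φ x) • e) ∂m‖ := h3
      _ ≤ ‖w‖ * (C * ∫ x, ‖(B.indicator φ x) • e‖ ∂m) :=
          mul_le_mul_of_nonneg_left h1 (norm_nonneg _)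
      _ ≤ ‖w‖ * (C * ∫ x in B, ‖e‖ ∂m) :=
          mul_le_mul_of_nonneg_left (mul_le_mul_of_nonneg_left h5 hC) (norm_nonneg _)
      _ = ∫ x in B, C * ‖w‖ * ‖e‖ ∂m := by
          rw [← integral_const_mul, ← integral_const_mul]
          refine integral_congr_ae (Eventually.of_forall fun x => ?_)
          ring
  exact key

/-- Proof. For `e ∈ E`, `h ∈ H` and measurable `B`: test with `a = (conj of the phase of ⟨h, Ψ x e⟩) 1_B e`:
`∫_B |⟨h, Ψ x e⟩| dm ≤ C ‖h‖ ‖e‖ m(B)`, so `|⟨h, Ψ x e⟩| ≤ C ‖h‖ ‖e‖` a.e.; countable dense sets of `h`, `e`. -/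
theorem ker_bound {Ψ : K → E →L[ℂ] H} (hΨ : AEStronglyMeasurable Ψ m) {C' : ℝ}
    (hC' : ∀ᵐ x ∂m, ‖Ψ x‖ ≤ C') {C : ℝ} (hC : 0 ≤ C)
    (h : ∀ a : K → E, BM a → ‖∫ x, Ψ x (a x) ∂m‖ ≤ C * ∫ x, ‖a x‖ ∂m) :
    ∀ᵐ x ∂m, ‖Ψ x‖ ≤ C := by
  haveI : ProperSpace E := FiniteDimensional.proper ℂ E
  have hall : ∀ᵐ x ∂m, ∀ i j : ℕ,
      ‖⟪TopologicalSpace.denseSeq H i, Ψ x (TopologicalSpace.denseSeq E j)⟫_ℂ‖ ≤
        C * ‖TopologicalSpace.denseSeq H i‖ * ‖TopologicalSpace.denseSeq E j‖ := by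
    rw [ae_all_iff]
    intro i
    rw [ae_all_iff]
    intro j
    exact k1_scalar hΨ hC' hC h _ _
  filter_upwards [hall] with x hx
  have h1 : ∀ (w : H) (e : E), ‖⟪w, Ψ x e⟫_ℂ‖ ≤ C * ‖w‖ * ‖e‖ := by
    have hd : DenseRange (fun p : ℕ × ℕ => ((TopologicalSpace.denseSeq H p.1,
        TopologicalSpace.denseSeq E p.2) : H × E)) :=
      (TopologicalSpace.denseRange_denseSeq H).prodMap (TopologicalSpace.denseRange_denseSeq E)
    have hcl : IsClosed {p : H × E | ‖⟪p.1, Ψ x p.2⟫_ℂ‖ ≤ C * ‖p.1‖ * ‖p.2‖} := by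
      refine isClosed_le ?_ ?_
      · exact (continuous_fst.inner ((Ψ x).continuous.comp continuous_snd)).norm
      · exact (continuous_const.mul continuous_fst.norm).mul continuous_snd.norm
    intro w e
    have := hd.induction_on (p := fun p : H × E => ‖⟪p.1, Ψ x p.2⟫_ℂ‖ ≤ C * ‖p.1‖ * ‖p.2‖)
      ((w, e) : H × E) hcl (fun p => hx p.1 p.2)
    exact this
  refine ContinuousLinearMap.opNorm_le_bound _ hC fun e => ?_
  have h2 := h1 (Ψ x e) e
  rw [inner_self_eq_norm_sq_to_K, norm_pow] at h2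
  have h3 : ‖((‖Ψ x e‖ : ℝ) : ℂ)‖ = ‖Ψ x e‖ := by rw [Complex.norm_real, norm_norm]
  have h4 : ‖Ψ x e‖ ^ 2 ≤ C * ‖Ψ x e‖ * ‖e‖ := by
    calc ‖Ψ x e‖ ^ 2 = ‖((‖Ψ x e‖ : ℝ) : ℂ)‖ ^ 2 := by rw [h3]
      _ ≤ C * ‖Ψ x e‖ * ‖e‖ := h2
  by_cases h0 : ‖Ψ x e‖ = 0
  · rw [h0]
    exact mul_nonneg hC (norm_nonneg _)
  · have hpos : 0 < ‖Ψ x e‖ := lt_of_le_of_ne (norm_nonneg _) (Ne.symm h0)
    have h5 : ‖Ψ x e‖ * ‖Ψ x e‖ ≤ ‖Ψ x e‖ * (C * ‖e‖) := by
      calc ‖Ψ x e‖ * ‖Ψ x e‖ = ‖Ψ x e‖ ^ 2 := (sq _).symm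
        _ ≤ C * ‖Ψ x e‖ * ‖e‖ := h4
        _ = ‖Ψ x e‖ * (C * ‖e‖) := by ring
    exact le_of_mul_le_mul_left h5 hpos

/-- two kernels with the same integrals are equal a.e. -/
theorem ker_unique {Ψ Ψ' : K → E →L[ℂ] H} (hΨ : AEStronglyMeasurable Ψ m)
    (hΨ' : AEStronglyMeasurable Ψ' m) {C : ℝ} (hC : ∀ᵐ x ∂m, ‖Ψ x‖ ≤ C)
    (hC' : ∀ᵐ x ∂m, ‖Ψ' x‖ ≤ C)
    (h : ∀ a : K → E, BM a → ∫ x, Ψ x (a x) ∂m = ∫ x, Ψ' x (a x) ∂m) : Ψ =ᵐ[m] Ψ' := by
  have hb : ∀ᵐ x ∂m, ‖(Ψ - Ψ') x‖ ≤ C + C := by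
    filter_upwards [hC, hC'] with x h1 h2
    exact (norm_sub_le _ _).trans (add_le_add h1 h2)
  have h0 : ∀ᵐ x ∂m, ‖(Ψ - Ψ') x‖ ≤ 0 := by
    refine ker_bound (hΨ.sub hΨ') hb le_rfl fun a ha => ?_
    have h1 : ∫ x, (Ψ - Ψ') x (a x) ∂m = 0 := by
      calc ∫ x, (Ψ - Ψ') x (a x) ∂m = ∫ x, (Ψ x (a x) - Ψ' x (a x)) ∂m := rfl
        _ = 0 := by
            rw [integral_sub (ker_integrable hΨ hC ha) (ker_integrable hΨ' hC' ha), h a ha, sub_self]
    rw [h1, norm_zero, zero_mul]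
  filter_upwards [h0] with x hx
  have h1 : (Ψ - Ψ') x = 0 := norm_le_zero_iff.1 hx
  exact sub_eq_zero.1 h1

-- END k1

/-! ## row k2: the Hilbert-Schmidt kernel -/

/-- a countable orthonormal system of bounded functions with dense span in `L²(m)` (characters) -/
structure OB (m : Measure K) {ι : Type*} (b : ι → K → ℂ) : Prop where
  bm : ∀ i, BM (b i)
  orth : ∀ i j, i ≠ j → ∫ x, (starRingEnd ℂ) (b i x) * b j x ∂m = 0
  norm : ∀ i, ∫ x, ‖b i x‖ ^ 2 ∂m = 1
  dense : ∀ f : K → ℂ, BM f → ∀ ε > 0, ∃ (I : Finset ι) (t : ι → ℂ),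
    ∫ x, ‖f x - ∑ i ∈ I, t i * b i x‖ ^ 2 ∂m < ε

-- BEGIN k2

private theorem k2_memLp {c : K → ℂ} (hc : BM c) (w : H) :
    MemLp (fun x => (starRingEnd ℂ) (c x) • w) 2 m := by
  obtain ⟨h1, C, hC⟩ := hc
  have h2 : Measurable fun x => (starRingEnd ℂ) (c x) := Complex.continuous_conj.measurable.comp h1
  refine MemLp.of_bound (h2.aestronglyMeasurable.smul aestronglyMeasurable_const) (C * ‖w‖)
    (ae_of_all _ fun x => ?_)
  rw [norm_smul, RCLike.norm_conj]
  exact mul_le_mul_of_nonneg_right (hC x) (norm_nonneg _)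

private theorem k2_inner {c c' : K → ℂ} (hc : BM c) (hc' : BM c') (w w' : H) :
    ⟪(k2_memLp (m := m) hc w).toLp, (k2_memLp (m := m) hc' w').toLp⟫_ℂ =
      (∫ x, (starRingEnd ℂ) (c' x) * c x ∂m) * ⟪w, w'⟫_ℂ := by
  rw [L2.inner_def, ← integral_mul_const]
  refine integral_congr_ae ?_
  filter_upwards [(k2_memLp (m := m) hc w).coeFn_toLp, (k2_memLp (m := m) hc' w').coeFn_toLp]
    with x h1 h2
  rw [h1, h2, inner_smul_left, inner_smul_right, Complex.conj_conj]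
  ring

private theorem k2_self {ι : Type*} {b : ι → K → ℂ} (hb : OB m b) (i : ι) :
    ∫ x, (starRingEnd ℂ) (b i x) * b i x ∂m = 1 := by
  have h1 : ∀ x, (starRingEnd ℂ) (b i x) * b i x = ((‖b i x‖ ^ 2 : ℝ) : ℂ) := by
    intro x
    rw [Complex.conj_mul']
    norm_cast
  rw [integral_congr_ae (ae_of_all _ h1), integral_complex_ofReal, hb.norm i, Complex.ofReal_one]

private noncomputable def k2_V {ι : Type*} {b : ι → K → ℂ} (hb : OB m b) (i : ι) :
    H →ₗᵢ[ℂ] Lp H 2 m where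
  toFun w := (k2_memLp (m := m) (hb.bm i) w).toLp
  map_add' w w' := by
    rw [← MemLp.toLp_add]
    refine MemLp.toLp_congr _ _ (ae_of_all _ fun x => ?_)
    simp only [Pi.add_apply, smul_add]
  map_smul' t w := by
    rw [RingHom.id_apply, ← MemLp.toLp_const_smul]
    refine MemLp.toLp_congr _ _ (ae_of_all _ fun x => ?_)
    simp only [Pi.smul_apply]
    rw [smul_comm]
  norm_map' w := by
    have h1 := k2_inner (m := m) (hb.bm i) (hb.bm i) w w
    rw [k2_self hb i, one_mul, inner_self_eq_norm_sq_to_K, inner_self_eq_norm_sq_to_K] at h1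
    have h2 : ‖(k2_memLp (m := m) (hb.bm i) w).toLp‖ ^ 2 = ‖w‖ ^ 2 := by exact_mod_cast h1
    exact (sq_eq_sq₀ (norm_nonneg _) (norm_nonneg _)).1 h2

/-- Proof. The functions `v_i(x) = conj (b i x) • τ i` are pairwise orthogonal in `L²(m; H)` with
`‖v_i‖ = ‖τ i‖`, so `∑ v_i` converges in `Lp H 2 m` (`OrthogonalFamily.summable_iff_norm_sq_summable`, or
Cauchy); `∫ b_j φ = τ j` because `G ↦ ∫ b_j G dm` is continuous on `Lp H 2 m`. -/
theorem exists_hs {ι : Type*} {b : ι → K → ℂ} (hb : OB m b) (τ : ι → H) {B : ℝ}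
    (hB : ∀ I : Finset ι, ∑ i ∈ I, ‖τ i‖ ^ 2 ≤ B) :
    ∃ φ : K → H, MemLp φ 2 m ∧ ∀ i, ∫ x, b i x • φ x ∂m = τ i := by
  have hV : OrthogonalFamily ℂ (fun _ : ι => H) (fun i => k2_V hb i) := by
    intro i j hij w w'
    show ⟪(k2_memLp (m := m) (hb.bm i) w).toLp, (k2_memLp (m := m) (hb.bm j) w').toLp⟫_ℂ = 0
    rw [k2_inner (hb.bm i) (hb.bm j), hb.orth j i hij.symm, zero_mul]
  have hs : Summable fun i => k2_V hb i (τ i) := by
    rw [hV.summable_iff_norm_sq_summable]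
    exact summable_of_sum_le (fun i => sq_nonneg _) hB
  obtain ⟨F, hF⟩ := hs
  refine ⟨F, Lp.memLp F, fun i => ?_⟩
  have hint : Integrable (fun x => b i x • F x) m := by
    obtain ⟨h1, C, hC⟩ := hb.bm i
    have h2 : Integrable (F : K → H) m := (Lp.memLp F).integrable (by norm_num)
    refine (h2.norm.const_mul C).mono' (h1.aestronglyMeasurable.smul h2.1)
      (ae_of_all _ fun x => ?_)
    rw [norm_smul]
    exact mul_le_mul_of_nonneg_right (hC x) (norm_nonneg _)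
  refine ext_inner_left ℂ fun w => ?_
  rw [← integral_inner hint w]
  have h3 : ∫ x, ⟪w, b i x • F x⟫_ℂ ∂m = ⟪k2_V hb i w, F⟫_ℂ := by
    rw [L2.inner_def]
    refine integral_congr_ae ?_
    filter_upwards [(k2_memLp (m := m) (hb.bm i) w).coeFn_toLp] with x hx
    show ⟪w, b i x • F x⟫_ℂ = ⟪((k2_memLp (m := m) (hb.bm i) w).toLp : K → H) x, F x⟫_ℂ
    rw [hx, inner_smul_left, inner_smul_right, Complex.conj_conj]
  have h4 : HasSum (fun j => ⟪k2_V hb i w, k2_V hb j (τ j)⟫_ℂ) ⟪k2_V hb i w, F⟫_ℂ :=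
    hF.mapL (innerSL ℂ (k2_V hb i w))
  have h5 : HasSum (fun j => ⟪k2_V hb i w, k2_V hb j (τ j)⟫_ℂ)
      ⟪k2_V hb i w, k2_V hb i (τ i)⟫_ℂ :=
    hasSum_single i fun j hj => hV hj.symm w (τ j)
  rw [h3, h4.unique h5, LinearIsometry.inner_map_map]

-- END k2

/-! ## row k3 -/

-- BEGIN k3

omit [IsProbabilityMeasure m] [CompleteSpace H] [SecondCountableTopology H] in
private theorem k3_sum {ι : Type*} (T : (K → E) → H)
    (hadd : ∀ a a' : K → E, BM a → BM a' → T (fun x => a x + a' x) = T a + T a')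
    (hsmul : ∀ (c : ℂ) (a : K → E), BM a → T (fun x => c • a x) = c • T a) (I : Finset ι)
    (a : ι → K → E) (ha : ∀ i ∈ I, BM (a i)) :
    BM (fun x => ∑ i ∈ I, a i x) ∧ T (fun x => ∑ i ∈ I, a i x) = ∑ i ∈ I, T (a i) := by
  classical
  have : ProperSpace E := FiniteDimensional.proper ℂ E
  have h0 : BM (fun _ : K => (0 : E)) := ⟨measurable_const, 0, fun x => by simp⟩
  induction I using Finset.induction_on with
  | empty =>
    refine ⟨by simpa using h0, ?_⟩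
    have h1 := hsmul 0 (fun _ => (0 : E)) h0
    simpa using h1
  | insert i I hi ih =>
    obtain ⟨hb, hT⟩ := ih (fun j hj => ha j (Finset.mem_insert_of_mem hj))
    have hai := ha i (Finset.mem_insert_self i I)
    have he : (fun x => ∑ j ∈ insert i I, a j x) = fun x => a i x + ∑ j ∈ I, a j x := by
      funext x
      rw [Finset.sum_insert hi]
    rw [he, Finset.sum_insert hi, hadd _ _ hai hb, hT]
    refine ⟨⟨hai.1.add hb.1, ?_⟩, rfl⟩
    obtain ⟨C1, h1⟩ := hai.2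
    obtain ⟨C2, h2⟩ := hb.2
    exact ⟨C1 + C2, fun x => (norm_add_le _ _).trans (add_le_add (h1 x) (h2 x))⟩

omit [FiniteDimensional ℂ E] in
private theorem k3_smul {f : K → ℂ} (hf : BM f) (e : E) : BM (fun x => f x • e) := by
  obtain ⟨C, h⟩ := hf.2
  refine ⟨hf.1.smul_const e, C * ‖e‖, fun x => ?_⟩
  rw [norm_smul]
  exact mul_le_mul_of_nonneg_right (h x) (norm_nonneg _)

omit [IsProbabilityMeasure m] [CompleteSpace H] [SecondCountableTopology H] in
private theorem k3_int {f : K → ℂ} (hf : BM f) {φ : K → H} (hφ : Integrable φ m) :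
    Integrable (fun x => f x • φ x) m := by
  obtain ⟨C, h⟩ := hf.2
  exact hφ.bdd_smul C hf.1.aestronglyMeasurable (ae_of_all _ h)

omit [SecondCountableTopology H] in
private theorem k3_one {ι : Type*} {b : ι → K → ℂ} (hb : OB m b) (T : (K → E) → H)
    (hadd : ∀ a a' : K → E, BM a → BM a' → T (fun x => a x + a' x) = T a + T a')
    (hsmul : ∀ (c : ℂ) (a : K → E), BM a → T (fun x => c • a x) = c • T a) {C : ℝ} (hC : 0 ≤ C)
    (hT : ∀ a : K → E, BM a → ‖T a‖ ≤ C * ∫ x, ‖a x‖ ∂m) {e : E} (he : ‖e‖ ≤ 1) {φ : K → H}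
    (hφ : MemLp φ 2 m) (hi : ∀ i, ∫ x, b i x • φ x ∂m = T (fun x => b i x • e)) {f : K → ℂ}
    (hf : BM f) : ∫ x, f x • φ x ∂m = T (fun x => f x • e) := by
  have hφ1 : Integrable φ m := hφ.integrable (by norm_num)
  have hφ2 : Integrable (fun x => ‖φ x‖ ^ 2) m := by
    have := (memLp_two_iff_integrable_sq_norm hφ.1).1 hφ
    exact this
  set P : ℝ := ∫ x, ‖φ x‖ ^ 2 ∂m with hP
  have hP0 : 0 ≤ P := integral_nonneg fun x => by positivity
  have key : ∀ η : ℝ, 0 < η → ‖∫ x, f x • φ x ∂m - T (fun x => f x • e)‖ ≤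
      η * (1 / 2 + P / 2 + C) := by
    intro η hη
    obtain ⟨I, t, hI⟩ := hb.dense f hf (η ^ 2) (by positivity)
    set g : K → ℂ := fun x => ∑ i ∈ I, t i * b i x with hg
    have hgt : ∀ i ∈ I, BM (fun x => (t i * b i x) • e) := fun i _ => by
      obtain ⟨C1, h1⟩ := (hb.bm i).2
      refine k3_smul ⟨(hb.bm i).1.const_mul _, ‖t i‖ * C1, fun x => ?_⟩ e
      rw [norm_mul]
      exact mul_le_mul_of_nonneg_left (h1 x) (norm_nonneg _)
    have hgb : BM g := by
      have h1 : Measurable g := Finset.measurable_sum I fun i _ => (hb.bm i).1.const_mul _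
      choose! Cb hCb using fun i => (hb.bm i).2
      refine ⟨h1, ∑ i ∈ I, ‖t i‖ * Cb i, fun x => ?_⟩
      refine (norm_sum_le _ _).trans (Finset.sum_le_sum fun i _ => ?_)
      rw [norm_mul]
      exact mul_le_mul_of_nonneg_left (hCb i x) (norm_nonneg _)
    -- T on g
    have hTg : ∫ x, g x • φ x ∂m = T (fun x => g x • e) := by
      have h1 : ∀ x, g x • φ x = ∑ i ∈ I, t i • (b i x • φ x) := fun x => by
        rw [hg, Finset.sum_smul]
        exact Finset.sum_congr rfl fun i _ => by rw [mul_smul]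
      have h2 : ∀ x, g x • e = ∑ i ∈ I, (t i * b i x) • e := fun x => by
        rw [hg, Finset.sum_smul]
      have h4 : ∀ i, Integrable (fun x => t i • (b i x • φ x)) m := fun i =>
        (k3_int (hb.bm i) hφ1).smul (t i)
      rw [integral_congr_ae (ae_of_all _ h1), integral_finsetSum _ (fun i _ => h4 i)]
      rw [show (fun x => g x • e) = fun x => ∑ i ∈ I, (t i * b i x) • e from funext h2,
        (k3_sum T hadd hsmul I (fun i x => (t i * b i x) • e) hgt).2]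
      refine Finset.sum_congr rfl fun i _ => ?_
      rw [integral_smul, hi i]
      have h3 : (fun x => (t i * b i x) • e) = fun x => t i • (b i x • e) :=
        funext fun x => mul_smul _ _ _
      rw [h3, hsmul _ _ (k3_smul (hb.bm i) e)]
    set d : K → ℂ := fun x => f x - g x with hd
    have hdb : BM d := by
      obtain ⟨C1, h1⟩ := hf.2
      obtain ⟨C2, h2⟩ := hgb.2
      exact ⟨hf.1.sub hgb.1, C1 + C2, fun x => (norm_sub_le _ _).trans (add_le_add (h1 x) (h2 x))⟩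
    have hd2 : Integrable (fun x => ‖d x‖ ^ 2) m := by
      obtain ⟨C1, h1⟩ := hdb.2
      refine Integrable.of_bound (hdb.1.norm.pow_const 2).aestronglyMeasurable (C1 ^ 2)
        (ae_of_all _ fun x => ?_)
      rw [Real.norm_of_nonneg (by positivity)]
      exact pow_le_pow_left₀ (norm_nonneg _) (h1 x) 2
    have hdI : ∫ x, ‖d x‖ ^ 2 ∂m < η ^ 2 := hI
    have hTf : T (fun x => f x • e) = T (fun x => d x • e) + T (fun x => g x • e) := by
      rw [← hadd _ _ (k3_smul hdb e) (k3_smul hgb e)]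
      congr 1
      funext x
      rw [← add_smul, hd]
      simp
    have hIf : ∫ x, f x • φ x ∂m = ∫ x, d x • φ x ∂m + ∫ x, g x • φ x ∂m := by
      rw [← integral_add (k3_int hdb hφ1) (k3_int hgb hφ1)]
      refine integral_congr_ae (ae_of_all _ fun x => ?_)
      show f x • φ x = d x • φ x + g x • φ x
      rw [← add_smul, hd]
      simp
    have e1 : ‖∫ x, d x • φ x ∂m‖ ≤ η / 2 + η / 2 * P := by
      refine (norm_integral_le_integral_norm _).trans ?_
      have h1 : ∫ x, ‖d x • φ x‖ ∂m ≤ ∫ x, (1 / (2 * η) * ‖d x‖ ^ 2 + η / 2 * ‖φ x‖ ^ 2) ∂m := by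
        refine integral_mono (k3_int hdb hφ1).norm ((hd2.const_mul _).add (hφ2.const_mul _))
          fun x => ?_
        show ‖d x • φ x‖ ≤ 1 / (2 * η) * ‖d x‖ ^ 2 + η / 2 * ‖φ x‖ ^ 2
        rw [norm_smul]
        have h2 : 0 ≤ (‖d x‖ - η * ‖φ x‖) ^ 2 := sq_nonneg _
        have h3 : 1 / (2 * η) * ‖d x‖ ^ 2 + η / 2 * ‖φ x‖ ^ 2 - ‖d x‖ * ‖φ x‖ =
            (‖d x‖ - η * ‖φ x‖) ^ 2 / (2 * η) := by
          field_simp
          ring
        have h4 : 0 ≤ (‖d x‖ - η * ‖φ x‖) ^ 2 / (2 * η) := by positivity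
        linarith
      refine h1.trans ?_
      rw [integral_add (hd2.const_mul _) (hφ2.const_mul _), integral_const_mul,
        integral_const_mul]
      have h2 : 1 / (2 * η) * ∫ x, ‖d x‖ ^ 2 ∂m ≤ 1 / (2 * η) * η ^ 2 :=
        mul_le_mul_of_nonneg_left hdI.le (by positivity)
      have h3 : 1 / (2 * η) * η ^ 2 = η / 2 := by
        field_simp
      linarith
    have e2 : ‖T (fun x => d x • e)‖ ≤ C * η := by
      refine (hT _ (k3_smul hdb e)).trans (mul_le_mul_of_nonneg_left ?_ hC)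
      have h1 : ∫ x, ‖d x • e‖ ∂m ≤ ∫ x, (1 / (2 * η) * ‖d x‖ ^ 2 + η / 2) ∂m := by
        refine integral_mono ?_ ((hd2.const_mul _).add (integrable_const _)) fun x => ?_
        · have : ProperSpace E := FiniteDimensional.proper ℂ E
          obtain ⟨C1, h1⟩ := (k3_smul hdb e).2
          exact (Integrable.of_bound (k3_smul hdb e).1.aestronglyMeasurable C1
            (ae_of_all _ h1)).norm
        · show ‖d x • e‖ ≤ 1 / (2 * η) * ‖d x‖ ^ 2 + η / 2
          rw [norm_smul]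
          have h2 : ‖d x‖ * ‖e‖ ≤ ‖d x‖ := mul_le_of_le_one_right (norm_nonneg _) he
          have h3 : 1 / (2 * η) * ‖d x‖ ^ 2 + η / 2 - ‖d x‖ = (‖d x‖ - η) ^ 2 / (2 * η) := by
            field_simp
            ring
          have h4 : 0 ≤ (‖d x‖ - η) ^ 2 / (2 * η) := by positivity
          linarith
      refine h1.trans ?_
      rw [integral_add (hd2.const_mul _) (integrable_const _), integral_const_mul]
      have h2 : 1 / (2 * η) * ∫ x, ‖d x‖ ^ 2 ∂m ≤ 1 / (2 * η) * η ^ 2 :=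
        mul_le_mul_of_nonneg_left hdI.le (by positivity)
      have h3 : 1 / (2 * η) * η ^ 2 = η / 2 := by
        field_simp
      simp only [integral_const, probReal_univ, smul_eq_mul, one_mul]
      linarith
    rw [hIf, hTf, hTg]
    have e3 : ∫ x, d x • φ x ∂m + T (fun x => g x • e) - (T (fun x => d x • e) +
        T (fun x => g x • e)) = ∫ x, d x • φ x ∂m - T (fun x => d x • e) := by abel
    rw [e3]
    refine (norm_sub_le _ _).trans ?_
    have : η * (1 / 2 + P / 2 + C) = (η / 2 + η / 2 * P) + C * η := by ring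
    rw [this]
    exact add_le_add e1 e2
  have hQ : 0 < 1 / 2 + P / 2 + C := by positivity
  have h0 : ‖∫ x, f x • φ x ∂m - T (fun x => f x • e)‖ ≤ 0 := by
    refine le_of_forall_pos_le_add fun δ hδ => ?_
    have := key (δ / (1 / 2 + P / 2 + C)) (by positivity)
    rw [div_mul_cancel₀ _ hQ.ne'] at this
    linarith
  exact sub_eq_zero.1 (norm_le_zero_iff.1 h0)

/-- Proof. `exists_hs` for every vector `e k` of an orthonormal basis of `E`: `φ_k` with
`∫ b_i φ_k = T (b_i e_k)`. Both sides of `∫ f φ_k dm = T (f e_k)` are additive in `f` and bounded by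
`C' ‖f‖_{L²}` (`hT`, Cauchy-Schwarz: `∫ ‖f e_k‖ ≤ ‖f‖_{L²}`), so it holds for all `BM f` by `OB.dense`. Put
`Φ x v = ∑ ⟨e_k, v⟩ φ_k x`; then `T a = ∫ Φ x (a x) dm` and `‖Φ x‖ ≤ C` a.e. as in `ker_bound` (the proof
of `ker_bound` works for `Φ ∈ L²`); redefine `Φ` as `0` on a measurable null set. -/
theorem exists_kernel {ι : Type*} {b : ι → K → ℂ} (hb : OB m b) (T : (K → E) → H)
    (hadd : ∀ a a' : K → E, BM a → BM a' → T (fun x => a x + a' x) = T a + T a')
    (hsmul : ∀ (c : ℂ) (a : K → E), BM a → T (fun x => c • a x) = c • T a) {C : ℝ} (hC : 0 ≤ C)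
    (hT : ∀ a : K → E, BM a → ‖T a‖ ≤ C * ∫ x, ‖a x‖ ∂m) {B : ℝ}
    (hB : ∀ e : E, ‖e‖ ≤ 1 → ∀ I : Finset ι, ∑ i ∈ I, ‖T (fun x => b i x • e)‖ ^ 2 ≤ B) :
    ∃ Φ : K → E →L[ℂ] H, StronglyMeasurable Φ ∧ (∀ x, ‖Φ x‖ ≤ C) ∧
      ∀ a : K → E, BM a → T a = ∫ x, Φ x (a x) ∂m := by
  have : ProperSpace E := FiniteDimensional.proper ℂ E
  set e := stdOrthonormalBasis ℂ E with he
  have hen : ∀ k, ‖e k‖ ≤ 1 := fun k => (e.orthonormal.1 k).le
  choose φ hφ hφi using fun k => exists_hs hb (fun i => T (fun x => b i x • e k)) (hB (e k) (hen k))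
  have hφ1 : ∀ k, Integrable (φ k) m := fun k => (hφ k).integrable (by norm_num)
  have hone : ∀ k (f : K → ℂ), BM f → ∫ x, f x • φ k x ∂m = T (fun x => f x • e k) :=
    fun k f hf => k3_one hb T hadd hsmul hC hT (hen k) (hφ k) (hφi k) hf
  -- the L² kernel
  set Φ0 : K → E →L[ℂ] H := fun x => ∑ k, (innerSL ℂ (e k)).smulRight (φ k x) with hΦ0
  have hΦ0m : AEStronglyMeasurable Φ0 m := by
    refine Finset.aestronglyMeasurable_fun_sum Finset.univ fun k _ => ?_
    have hc : Continuous fun h : H => (innerSL ℂ (e k)).smulRight h :=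
      (ContinuousLinearMap.smulRightL ℂ E H (innerSL ℂ (e k))).continuous
    exact hc.comp_aestronglyMeasurable (hφ k).1
  have hinn : ∀ k (a : K → E), BM a → BM (fun x => (inner ℂ (e k) (a x) : ℂ)) := by
    intro k a ha
    obtain ⟨C1, h1⟩ := ha.2
    refine ⟨(innerSL ℂ (e k)).continuous.measurable.comp ha.1, C1, fun x => ?_⟩
    refine (norm_inner_le_norm _ _).trans ?_
    calc ‖e k‖ * ‖a x‖ ≤ 1 * ‖a x‖ := mul_le_mul_of_nonneg_right (hen k) (norm_nonneg _)
      _ ≤ C1 := by rw [one_mul]; exact h1 x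
  have hap : ∀ x (v : E), Φ0 x v = ∑ k, (inner ℂ (e k) v : ℂ) • φ k x := by
    intro x v
    simp [hΦ0]
  have hΦ0i : ∀ a : K → E, BM a → Integrable (fun x => Φ0 x (a x)) m := by
    intro a ha
    have h1 : (fun x => Φ0 x (a x)) = fun x => ∑ k, (inner ℂ (e k) (a x) : ℂ) • φ k x :=
      funext fun x => hap x (a x)
    rw [h1]
    exact integrable_finsetSum _ fun k _ => k3_int (hinn k a ha) (hφ1 k)
  have hΦ0T : ∀ a : K → E, BM a → T a = ∫ x, Φ0 x (a x) ∂m := by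
    intro a ha
    have h1 : ∀ x, Φ0 x (a x) = ∑ k, (inner ℂ (e k) (a x) : ℂ) • φ k x := fun x => hap x (a x)
    rw [integral_congr_ae (ae_of_all _ h1), integral_finsetSum _ (fun k _ =>
      k3_int (hinn k a ha) (hφ1 k))]
    have h2 : ∑ k, ∫ x, (inner ℂ (e k) (a x) : ℂ) • φ k x ∂m =
        ∑ k, T (fun x => (inner ℂ (e k) (a x) : ℂ) • e k) :=
      Finset.sum_congr rfl fun k _ => hone k _ (hinn k a ha)
    rw [h2, ← (k3_sum T hadd hsmul Finset.univ (fun k x => (inner ℂ (e k) (a x) : ℂ) • e k)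
      (fun k _ => k3_smul (hinn k a ha) (e k))).2]
    congr 1
    funext x
    exact (e.sum_repr' (a x)).symm
  -- strongly measurable version
  obtain ⟨Φ1, hΦ1m, hΦ1e⟩ := hΦ0m
  have hmeas : ∀ r : ℝ, MeasurableSet {x | ‖Φ1 x‖ ≤ r} := fun r =>
    measurableSet_le hΦ1m.norm.measurable measurable_const
  have hbd : ∀ N : ℕ, ∀ᵐ x ∂m, ‖Set.indicator {x | ‖Φ1 x‖ ≤ (N : ℝ)} Φ1 x‖ ≤ C := by
    intro N
    refine ker_bound (C' := (N : ℝ)) (hΦ1m.indicator (hmeas N)).aestronglyMeasurable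
      (ae_of_all _ fun x => ?_) hC fun a ha => ?_
    · by_cases hx : ‖Φ1 x‖ ≤ (N : ℝ)
      · rw [Set.indicator_of_mem (by exact hx)]
        exact hx
      · rw [Set.indicator_of_notMem (by exact hx), norm_zero]
        exact Nat.cast_nonneg N
    · set a' : K → E := Set.indicator {x | ‖Φ1 x‖ ≤ (N : ℝ)} a with ha'
      have hab : BM a' := by
        obtain ⟨C1, h1⟩ := ha.2
        refine ⟨ha.1.indicator (hmeas N), C1, fun x => ?_⟩
        exact (norm_indicator_le_norm_self _ _).trans (h1 x)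
      have h1 : ∫ x, (Set.indicator {x | ‖Φ1 x‖ ≤ (N : ℝ)} Φ1 x) (a x) ∂m =
          ∫ x, Φ0 x (a' x) ∂m := by
        refine integral_congr_ae ?_
        filter_upwards [hΦ1e] with x hx
        by_cases hx1 : ‖Φ1 x‖ ≤ (N : ℝ)
        · rw [ha', Set.indicator_of_mem (by exact hx1), Set.indicator_of_mem (by exact hx1), hx]
        · rw [ha', Set.indicator_of_notMem (by exact hx1), Set.indicator_of_notMem (by exact hx1)]
          simp
      rw [h1, ← hΦ0T a' hab]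
      refine (hT a' hab).trans (mul_le_mul_of_nonneg_left ?_ hC)
      have hI : ∀ c : K → E, BM c → Integrable (fun x => ‖c x‖) m := fun c hc => by
        obtain ⟨C1, h1⟩ := hc.2
        exact (Integrable.of_bound hc.1.aestronglyMeasurable C1 (ae_of_all _ h1)).norm
      exact integral_mono (hI _ hab) (hI _ ha) fun x => norm_indicator_le_norm_self _ _
  have hΦ1C : ∀ᵐ x ∂m, ‖Φ1 x‖ ≤ C := by
    filter_upwards [ae_all_iff.2 hbd] with x hx
    obtain ⟨N, hN⟩ := exists_nat_ge ‖Φ1 x‖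
    have h1 := hx N
    rwa [Set.indicator_of_mem (by exact hN)] at h1
  refine ⟨Set.indicator {x | ‖Φ1 x‖ ≤ C} Φ1, hΦ1m.indicator (hmeas C), fun x => ?_,
    fun a ha => ?_⟩
  · by_cases hx : ‖Φ1 x‖ ≤ C
    · rw [Set.indicator_of_mem (by exact hx)]
      exact hx
    · rw [Set.indicator_of_notMem (by exact hx), norm_zero]
      exact hC
  · rw [hΦ0T a ha]
    refine integral_congr_ae ?_
    filter_upwards [hΦ1e, hΦ1C] with x hx hx1
    rw [Set.indicator_of_mem (by exact hx1), hx]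

-- END k3

end ker

/-! ## row k4: C11 -/

section phi

variable {K Z : Type*} [CommGroup K] [MeasurableSpace K] [MeasurableSpace Z]
  [MeasurableSpace.CountablyGenerated Z] {u : K}
  {m : Measure K} [IsProbabilityMeasure m] {M : Measure Z} {S : Z → Z} {y : Z → K} {s l : Z → ℝ}
  {E : Type*} [NormedAddCommGroup E] [InnerProductSpace ℂ E] [FiniteDimensional ℂ E] [CompleteSpace E]
  [MeasurableSpace E] [BorelSpace E]
  {G : Type*} [Group G] [Finite G] [MeasurableSpace G] [DiscreteMeasurableSpace G]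

-- BEGIN k4

private theorem k4_int {ι : Type*} {b : ι → K → ℂ} (hb : OB m b) [DecidableEq ι] (i j : ι) {e : E}
    (he : ‖e‖ = 1) : ∫ x, ⟪b i x • e, b j x • e⟫_ℂ ∂m = if i = j then 1 else 0 := by
  have h1 : ∀ x, ⟪b i x • e, b j x • e⟫_ℂ = (starRingEnd ℂ) (b i x) * b j x := by
    intro x
    rw [inner_smul_left, inner_smul_right, inner_self_eq_norm_sq_to_K, he]
    simp
  rw [integral_congr_ae (ae_of_all _ h1)]
  by_cases hij : i = j
  · rw [if_pos hij, ← hij]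
    have h2 : ∀ x, (starRingEnd ℂ) (b i x) * b i x = ((‖b i x‖ ^ 2 : ℝ) : ℂ) := by
      intro x
      rw [Complex.conj_mul']
      push_cast
      rfl
    rw [integral_congr_ae (ae_of_all _ h2), integral_complex_ofReal, hb.norm i]
    simp
  · rw [if_neg hij]
    exact hb.orth i j hij

private theorem k4_bm {b : K → ℂ} (hb : BM b) (e : E) : BM fun x => b x • e := by
  obtain ⟨h1, C, hC⟩ := hb
  refine ⟨?_, C * ‖e‖, fun x => ?_⟩
  · exact h1.smul_const e
  · rw [norm_smul]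
    exact mul_le_mul_of_nonneg_right (hC x) (norm_nonneg _)

/-- `L²(M; E)` is separable: `M` is σ-finite (`Sys.sigmaFinite`), `Lp.SecondCountableTopology` -/
theorem HE_second (h : Sys u m M S y s l) : SecondCountableTopology (HE E M) := by
  haveI : SigmaFinite M := h.sigmaFinite
  haveI : ProperSpace E := FiniteDimensional.proper ℂ E
  haveI : Fact ((2 : ℝ≥0∞) ≠ ∞) := ⟨ENNReal.ofNat_ne_top⟩
  exact Lp.SecondCountableTopology

/-- C11 for one `J`: `exists_kernel` for `T_J`, with `TT_norm_le` and `bessel` (one cocycle, the family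
`b i e`, `e ≠ 0` normalised) -/
theorem exists_phi [MeasurableMul K] (h : Sys u m M S y s l) (herg : Ergodic (fun x => u * x) m)
    {ρ : G →* UE E} (hI : Irr ρ) {c : K → G} (hc : Measurable c) (hM : Min u m c)
    {ι : Type*} {b : ι → K → ℂ} (hb : OB m b) {J : Set ℝ} (hJ : MeasurableSet J)
    (hJf : volume J ≠ ∞) : ∃ Φ : K → E →L[ℂ] HE E M, StronglyMeasurable Φ ∧
      (∀ x, ‖Φ x‖ ≤ Real.sqrt (volume J).toReal) ∧
      ∀ a : K → E, BM a → TT M S y s l (fun x => ρ (c x)) J a = ∫ x, Φ x (a x) ∂m := by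
  classical
  haveI : SecondCountableTopology (HE E M) := HE_second (E := E) h
  have hV : Measurable fun x => ρ (c x) := (Measurable.of_discrete (f := ρ)).comp hc
  refine exists_kernel (m := m) (H := HE E M) hb (TT M S y s l (fun x => ρ (c x)) J)
    (fun a a' ha ha' => TT_add h _ hJ hJf ha ha') (fun t a ha => TT_smul h _ hJ hJf ha t)
    (Real.sqrt_nonneg _) (fun a ha => TT_norm_le h herg hV hJ hJf ha)
    (B := (volume J).toReal) ?_
  intro e he I
  by_cases he0 : e = 0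
  · have h1 : ∀ i ∈ I, ‖TT M S y s l (fun x => ρ (c x)) J (fun x => b i x • e)‖ ^ 2 = 0 := by
      intro i _
      have h2 : (fun x => b i x • e) = fun x => (0 : ℂ) • (b i x • e) := by
        funext x
        rw [he0, smul_zero, smul_zero]
      rw [h2, TT_smul h _ hJ hJf (k4_bm (hb.bm i) e), zero_smul, norm_zero]
      norm_num
    rw [Finset.sum_eq_zero h1]
    exact ENNReal.toReal_nonneg
  · have hn : 0 < ‖e‖ := norm_pos_iff.mpr he0
    obtain ⟨e', he'⟩ : ∃ e' : E, e' = ((‖e‖ : ℂ))⁻¹ • e := ⟨_, rfl⟩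
    have hn' : ‖e'‖ = 1 := by
      rw [he', norm_smul, norm_inv, Complex.norm_real, norm_norm, inv_mul_cancel₀ hn.ne']
    have hee : e = (‖e‖ : ℂ) • e' := by
      rw [he', smul_smul, mul_inv_cancel₀ (by exact_mod_cast hn.ne'), one_smul]
    haveI : Nontrivial E := ⟨⟨e, 0, he0⟩⟩
    have hd : (1 : ℝ) ≤ (Module.finrank ℂ E : ℝ) := by
      exact_mod_cast (Module.finrank_pos (R := ℂ) (M := E))
    have hbs := bessel (ι := Unit) (κ := {i // i ∈ I}) h herg hI (fun _ => c) (fun _ => hc)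
      (fun _ => hM) (fun j j' hj => absurd (Subsingleton.elim j j') hj) hJ hJf
      (fun _ i x => b i.1 x • e') (fun _ i => k4_bm (hb.bm i.1) e') (by
        intro _ i i'
        rw [k4_int hb i.1 i'.1 hn']
        by_cases hii : i = i'
        · rw [if_pos hii, if_pos (congrArg Subtype.val hii)]
        · rw [if_neg hii, if_neg fun h3 => hii (Subtype.ext h3)])
    have h4 : ∀ i ∈ I, ‖TT M S y s l (fun x => ρ (c x)) J (fun x => b i x • e)‖ ^ 2 ≤
        (Module.finrank ℂ E : ℝ) *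
          ‖TT M S y s l (fun x => ρ (c x)) J (fun x => b i x • e')‖ ^ 2 := by
      intro i _
      have h5 : (fun x => b i x • e) = fun x => (‖e‖ : ℂ) • (b i x • e') := by
        funext x
        rw [smul_comm, ← hee]
      rw [h5, TT_smul h _ hJ hJf (k4_bm (hb.bm i) e'), norm_smul, Complex.norm_real, norm_norm,
        mul_pow]
      refine mul_le_mul_of_nonneg_right ?_ (sq_nonneg _)
      exact (pow_le_one₀ (norm_nonneg _) he).trans hd
    refine (Finset.sum_le_sum h4).trans ?_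
    rw [Fintype.sum_unique] at hbs
    rw [← Finset.sum_coe_sort]
    exact hbs

-- END k4

open Classical in
/-- the kernel of `T_J` -/
noncomputable def Phi (m : Measure K) (M : Measure Z) (S : Z → Z) (y : Z → K) (s l : Z → ℝ)
    (V : K → UE E) (J : Set ℝ) : K → E →L[ℂ] HE E M :=
  if h : ∃ Φ : K → E →L[ℂ] HE E M, StronglyMeasurable Φ ∧
      (∀ x, ‖Φ x‖ ≤ Real.sqrt (volume J).toReal) ∧
      ∀ a : K → E, BM a → TT M S y s l V J a = ∫ x, Φ x (a x) ∂m then h.choose else 0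

-- BEGIN k5

theorem Phi_sm (V : K → UE E) (J : Set ℝ) : StronglyMeasurable (Phi m M S y s l V J) := by
  unfold Phi
  split_ifs with h
  · exact h.choose_spec.1
  · exact stronglyMeasurable_zero

theorem Phi_norm_le (V : K → UE E) (J : Set ℝ) (x : K) :
    ‖Phi m M S y s l V J x‖ ≤ Real.sqrt (volume J).toReal := by
  unfold Phi
  split_ifs with h
  · exact h.choose_spec.2.1 x
  · exact (norm_zero (E := E →L[ℂ] HE E M)).trans_le (Real.sqrt_nonneg _)

theorem TT_eq_Phi [MeasurableMul K] (h : Sys u m M S y s l) (herg : Ergodic (fun x => u * x) m)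
    {ρ : G →* UE E} (hI : Irr ρ) {c : K → G} (hc : Measurable c) (hM : Min u m c)
    {ι : Type*} {b : ι → K → ℂ} (hb : OB m b) {J : Set ℝ} (hJ : MeasurableSet J)
    (hJf : volume J ≠ ∞) {a : K → E} (ha : BM a) : TT M S y s l (fun x => ρ (c x)) J a =
      ∫ x, Phi m M S y s l (fun x => ρ (c x)) J x (a x) ∂m := by
  have h1 := exists_phi h herg hI hc hM hb hJ hJf
  have h2 := h1.choose_spec.2.2 a ha
  unfold Phi
  rw [dif_pos h1]
  exact h2

/-- `ker_bound` for the difference and `TT_sub_le` -/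
theorem Phi_sub_le [MeasurableMul K] (h : Sys u m M S y s l) (herg : Ergodic (fun x => u * x) m)
    {ρ : G →* UE E} (hI : Irr ρ) {c : K → G} (hc : Measurable c) (hM : Min u m c)
    {ι : Type*} {b : ι → K → ℂ} (hb : OB m b) {J J' : Set ℝ} (hJ : MeasurableSet J)
    (hJf : volume J ≠ ∞) (hJ' : MeasurableSet J') (hJf' : volume J' ≠ ∞) :
    ∀ᵐ x ∂m, ‖Phi m M S y s l (fun x => ρ (c x)) J x - Phi m M S y s l (fun x => ρ (c x)) J' x‖ ≤
      Real.sqrt (volume (symmDiff J J')).toReal := by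
  have : SecondCountableTopology (HE E M) := HE_second h
  have hV : Measurable fun x => ρ (c x) := (Measurable.of_discrete (f := fun g => ρ g)).comp hc
  have hs : ∀ I : Set ℝ, AEStronglyMeasurable (Phi m M S y s l (fun x => ρ (c x)) I) m :=
    fun I => (Phi_sm _ I).aestronglyMeasurable
  have hn : ∀ I : Set ℝ, ∀ᵐ x ∂m,
      ‖Phi m M S y s l (fun x => ρ (c x)) I x‖ ≤ Real.sqrt (volume I).toReal :=
    fun I => ae_of_all _ fun x => Phi_norm_le _ I x
  refine ker_bound (C' := Real.sqrt (volume J).toReal + Real.sqrt (volume J').toReal)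
    ((hs J).sub (hs J')) ?_ (Real.sqrt_nonneg _) ?_
  · filter_upwards [hn J, hn J'] with x h1 h2
    exact (norm_sub_le _ _).trans (add_le_add h1 h2)
  · intro a ha
    have h3 : ∫ x, (Phi m M S y s l (fun x => ρ (c x)) J x -
        Phi m M S y s l (fun x => ρ (c x)) J' x) (a x) ∂m =
        TT M S y s l (fun x => ρ (c x)) J a - TT M S y s l (fun x => ρ (c x)) J' a := by
      rw [TT_eq_Phi h herg hI hc hM hb hJ hJf ha, TT_eq_Phi h herg hI hc hM hb hJ' hJf' ha,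
        ← integral_sub (ker_integrable (hs J) (hn J) ha) (ker_integrable (hs J') (hn J') ha)]
      rfl
    exact h3 ▸ TT_sub_le h herg hV hJ hJf hJ' hJf' ha

-- END k5

end phi

/-! ## row k6: C13 -/

section gram

variable {K : Type*} [MeasurableSpace K] {m : Measure K} [IsProbabilityMeasure m]
  {E : Type*} [NormedAddCommGroup E] [InnerProductSpace ℂ E] [FiniteDimensional ℂ E]
  [MeasurableSpace E] [BorelSpace E]
  {H H' : Type*} [NormedAddCommGroup H] [InnerProductSpace ℂ H] [CompleteSpace H]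
  [NormedAddCommGroup H'] [InnerProductSpace ℂ H'] [CompleteSpace H']

-- BEGIN k6

omit [CompleteSpace H] in
private lemma k6_int {Ψ : K → E →L[ℂ] H} (hΨ : AEStronglyMeasurable Ψ m) {C : ℝ}
    (hC : ∀ᵐ x ∂m, ‖Ψ x‖ ≤ C) {a : K → E} (ha : BM a) : Integrable (fun x => Ψ x (a x)) m := by
  obtain ⟨ham, A, hA⟩ := ha
  have : ProperSpace E := FiniteDimensional.proper ℂ E
  have has : AEStronglyMeasurable a m := ham.aestronglyMeasurable
  refine Integrable.of_bound
    ((isBoundedBilinearMap_apply (𝕜 := ℂ) (E := E) (F := H)).continuous.comp_aestronglyMeasurable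
      (hΨ.prodMk has)) (C * A) ?_
  filter_upwards [hC] with x hx
  have h0 : 0 ≤ C := (norm_nonneg _).trans hx
  exact ((Ψ x).le_opNorm _).trans (mul_le_mul hx (hA x) (norm_nonneg _) h0)

/-- Proof. `Q` the projection on `Gᗮ`; `∫_B Q (Ψ x e) dm = Q ∫ Ψ x (1_B(x) e) dm = 0` for all measurable
`B`, so `Q (Ψ x e) = 0` a.e. (`Integrable.ae_eq_zero_of_forall_setIntegral_eq_zero`); a basis of `E`. -/
theorem ker_mem {Ψ : K → E →L[ℂ] H} (hΨ : AEStronglyMeasurable Ψ m) {C : ℝ}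
    (hC : ∀ᵐ x ∂m, ‖Ψ x‖ ≤ C) (G : Submodule ℂ H) (hG : IsClosed (G : Set H))
    (h : ∀ a : K → E, BM a → ∫ x, Ψ x (a x) ∂m ∈ G) : ∀ᵐ x ∂m, ∀ e, Ψ x e ∈ G := by
  have : CompleteSpace G := hG.completeSpace_coe
  have key : ∀ e : E, ∀ᵐ x ∂m, Ψ x e ∈ G := by
    intro e
    have hi : Integrable (fun x => Ψ x e) m :=
      k6_int hΨ hC (a := fun _ => e) ⟨measurable_const, ‖e‖, fun _ => le_rfl⟩
    have hq : Integrable (fun x => Gᗮ.starProjection (Ψ x e)) m :=
      Gᗮ.starProjection.integrable_comp hi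
    have hz : (fun x => Gᗮ.starProjection (Ψ x e)) =ᵐ[m] 0 := by
      refine Integrable.ae_eq_zero_of_forall_setIntegral_eq_zero hq fun B hB _ => ?_
      have h1 : ∫ x in B, Ψ x e ∂m ∈ G := by
        have h2 := h (B.indicator fun _ => e) ⟨measurable_const.indicator hB, ‖e‖, fun x => by
          by_cases hx : x ∈ B
          · rw [Set.indicator_of_mem hx]
          · rw [Set.indicator_of_notMem hx, norm_zero]; exact norm_nonneg _⟩
        have h3 : (fun x => Ψ x (B.indicator (fun _ => e) x)) = B.indicator fun x => Ψ x e := by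
          funext x
          by_cases hx : x ∈ B
          · rw [Set.indicator_of_mem hx, Set.indicator_of_mem hx]
          · rw [Set.indicator_of_notMem hx, Set.indicator_of_notMem hx, map_zero]
        rw [h3, integral_indicator hB] at h2
        exact h2
      rw [ContinuousLinearMap.integral_comp_comm _ hi.restrict]
      have h4 : (∫ x in B, Ψ x e ∂m) ∈ Gᗮᗮ := Submodule.le_orthogonal_orthogonal G h1
      exact (Submodule.starProjection_apply_eq_zero_iff _).2 h4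
    filter_upwards [hz] with x hx
    have h5 : Ψ x e ∈ Gᗮᗮ := (Submodule.starProjection_apply_eq_zero_iff _).1 hx
    rwa [Submodule.orthogonal_orthogonal] at h5
  let b := Module.finBasis ℂ E
  have hall : ∀ᵐ x ∂m, ∀ i, Ψ x (b i) ∈ G := ae_all_iff.2 fun i => key (b i)
  filter_upwards [hall] with x hx e
  rw [← b.sum_repr e, map_sum]
  refine Submodule.sum_mem _ fun i _ => ?_
  rw [map_smul]
  exact Submodule.smul_mem _ _ (hx i)

/-- C13. Proof. Let `G` be the closure in `WithLp 2 (H × H')` of the subspace of all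
`(∫ Ψ1 a, ∫ Ψ2 a)`, `BM a`. The continuous sesquilinear form `⟨p.1, q.1⟩ - ⟨p.2, q.2⟩` vanishes on `G × G`
(dense subset), and `(Ψ1 x e, Ψ2 x e) ∈ G` for almost all `x` by `ker_mem` for the kernel
`(Ψ1, Ψ2) : K → E →L WithLp 2 (H × H')`. (`H × H'` with the sup norm also works for closures; only `ker_mem`
needs an inner product.) -/
theorem gram {Ψ1 : K → E →L[ℂ] H} {Ψ2 : K → E →L[ℂ] H'} (h1 : AEStronglyMeasurable Ψ1 m)
    (h2 : AEStronglyMeasurable Ψ2 m) {C : ℝ} (hC1 : ∀ᵐ x ∂m, ‖Ψ1 x‖ ≤ C)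
    (hC2 : ∀ᵐ x ∂m, ‖Ψ2 x‖ ≤ C)
    (h : ∀ a b : K → E, BM a → BM b → ⟪∫ x, Ψ1 x (a x) ∂m, ∫ x, Ψ1 x (b x) ∂m⟫_ℂ =
      ⟪∫ x, Ψ2 x (a x) ∂m, ∫ x, Ψ2 x (b x) ∂m⟫_ℂ) :
    ∃ N : Set K, (∀ᵐ x ∂m, x ∈ N) ∧ ∀ x ∈ N, ∀ x' ∈ N, ∀ e e' : E,
      ⟪Ψ1 x e, Ψ1 x' e'⟫_ℂ = ⟪Ψ2 x e, Ψ2 x' e'⟫_ℂ := by
  classical
  have : ProperSpace E := FiniteDimensional.proper ℂ E
  -- the continuous linear equivalence `H × H' ≃ WithLp 2 (H × H')`
  let J : (H × H') ≃L[ℂ] WithLp 2 (H × H') := (WithLp.prodContinuousLinearEquiv 2 ℂ H H').symm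
  let Ψ : K → E →L[ℂ] WithLp 2 (H × H') := fun x =>
    (J : (H × H') →L[ℂ] WithLp 2 (H × H')) ∘L ((Ψ1 x).prod (Ψ2 x))
  have hJ : ∀ x e, Ψ x e = J (Ψ1 x e, Ψ2 x e) := fun x e => rfl
  have hΨm : AEStronglyMeasurable Ψ m := by
    have hc : Continuous fun p : (E →L[ℂ] H) × (E →L[ℂ] H') =>
        (J : (H × H') →L[ℂ] WithLp 2 (H × H')) ∘L (p.1.prod p.2) := by
      have hp : Continuous fun p : (E →L[ℂ] H) × (E →L[ℂ] H') => p.1.prod p.2 :=
        (ContinuousLinearMap.prodₗᵢ ℂ : (E →L[ℂ] H) × (E →L[ℂ] H') ≃ₗᵢ[ℂ] E →L[ℂ] H × H').continuous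
      exact (ContinuousLinearMap.compL ℂ E (H × H') (WithLp 2 (H × H'))
        (J : (H × H') →L[ℂ] WithLp 2 (H × H'))).continuous.comp hp
    exact hc.comp_aestronglyMeasurable (h1.prodMk h2)
  have hΨC : ∀ᵐ x ∂m, ‖Ψ x‖ ≤ ‖(J : (H × H') →L[ℂ] WithLp 2 (H × H'))‖ * C := by
    filter_upwards [hC1, hC2] with x hx1 hx2
    refine (ContinuousLinearMap.opNorm_comp_le _ _).trans ?_
    refine mul_le_mul_of_nonneg_left ?_ (norm_nonneg _)
    rw [ContinuousLinearMap.opNorm_prod]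
    exact max_le hx1 hx2
  have hint : ∀ a : K → E, BM a →
      ∫ x, Ψ x (a x) ∂m = J (∫ x, Ψ1 x (a x) ∂m, ∫ x, Ψ2 x (a x) ∂m) := by
    intro a ha
    have i1 := k6_int h1 hC1 ha
    have i2 := k6_int h2 hC2 ha
    have e1 : ∫ x, Ψ x (a x) ∂m =
        ∫ x, (J : (H × H') →L[ℂ] WithLp 2 (H × H')) (Ψ1 x (a x), Ψ2 x (a x)) ∂m := rfl
    rw [e1, ContinuousLinearMap.integral_comp_comm _ (i1.prodMk i2), integral_pair i1 i2]
    rfl
  let R : Submodule ℂ (WithLp 2 (H × H')) :=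
    { carrier := {p | ∃ a : K → E, BM a ∧ p = ∫ x, Ψ x (a x) ∂m}
      add_mem' := by
        rintro p q ⟨a, ha, rfl⟩ ⟨b, hb, rfl⟩
        refine ⟨fun x => a x + b x, ⟨ha.1.add hb.1, ?_⟩, ?_⟩
        · obtain ⟨A, hA⟩ := ha.2
          obtain ⟨B, hB⟩ := hb.2
          exact ⟨A + B, fun x => (norm_add_le _ _).trans (add_le_add (hA x) (hB x))⟩
        · rw [← integral_add (k6_int hΨm hΨC ha) (k6_int hΨm hΨC hb)]
          refine integral_congr_ae (ae_of_all _ fun x => ?_)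
          exact (map_add (Ψ x) (a x) (b x)).symm
      zero_mem' := by
        refine ⟨fun _ => 0, ⟨measurable_const, 0, fun _ => by rw [norm_zero]⟩, ?_⟩
        simp only [map_zero, integral_zero]
      smul_mem' := by
        rintro c p ⟨a, ha, rfl⟩
        refine ⟨fun x => c • a x, ⟨ha.1.const_smul c, ?_⟩, ?_⟩
        · obtain ⟨A, hA⟩ := ha.2
          exact ⟨‖c‖ * A, fun x => by
            rw [norm_smul]; exact mul_le_mul_of_nonneg_left (hA x) (norm_nonneg _)⟩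
        · rw [← integral_smul]
          refine integral_congr_ae (ae_of_all _ fun x => ?_)
          exact (map_smul (Ψ x) c (a x)).symm }
  have hGc : IsClosed (R.topologicalClosure : Set (WithLp 2 (H × H'))) :=
    R.isClosed_topologicalClosure
  have hmem : ∀ᵐ x ∂m, ∀ e, Ψ x e ∈ R.topologicalClosure := by
    refine ker_mem hΨm hΨC R.topologicalClosure hGc fun a ha => ?_
    exact R.le_topologicalClosure ⟨a, ha, rfl⟩
  have c1 : Continuous fun p : WithLp 2 (H × H') => p.fst :=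
    continuous_fst.comp (WithLp.prod_continuous_ofLp 2 H H')
  have c2 : Continuous fun p : WithLp 2 (H × H') => p.snd :=
    continuous_snd.comp (WithLp.prod_continuous_ofLp 2 H H')
  -- the form vanishes on the closure
  have f1 : ∀ p ∈ R, ∀ q ∈ R, ⟪p.fst, q.fst⟫_ℂ = ⟪p.snd, q.snd⟫_ℂ := by
    rintro p ⟨a, ha, rfl⟩ q ⟨b, hb, rfl⟩
    rw [hint a ha, hint b hb]
    exact h a b ha hb
  have f2 : ∀ p ∈ R, ∀ q ∈ R.topologicalClosure, ⟪p.fst, q.fst⟫_ℂ = ⟪p.snd, q.snd⟫_ℂ := by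
    intro p hp q hq
    have hcl : IsClosed {q : WithLp 2 (H × H') | ⟪p.fst, q.fst⟫_ℂ = ⟪p.snd, q.snd⟫_ℂ} :=
      isClosed_eq (continuous_const.inner c1) (continuous_const.inner c2)
    exact closure_minimal (fun q hq => f1 p hp q hq) hcl hq
  have f3 : ∀ p ∈ R.topologicalClosure, ∀ q ∈ R.topologicalClosure,
      ⟪p.fst, q.fst⟫_ℂ = ⟪p.snd, q.snd⟫_ℂ := by
    intro p hp q hq
    have hcl : IsClosed {p : WithLp 2 (H × H') | ⟪p.fst, q.fst⟫_ℂ = ⟪p.snd, q.snd⟫_ℂ} :=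
      isClosed_eq (c1.inner continuous_const) (c2.inner continuous_const)
    exact closure_minimal (fun p hp => f2 p hp q hq) hcl hp
  refine ⟨{x | ∀ e, Ψ x e ∈ R.topologicalClosure}, hmem, fun x hx x' hx' e e' => ?_⟩
  exact f3 _ (hx e) _ (hx' e')

-- END k6

end gram

end Pool.Agent.S7C
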