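import Pool.Agent.S7K.K1
import Pool.Agent.S7C.Ker

/-!
# S7 (MP_13664e_an), block C: the characters as an orthonormal basis (helper69)
-/

set_option autoImplicit false

namespace Pool.Agent.S7C

open MeasureTheory Filter Topology ENNReal
open scoped InnerProductSpace

variable {K : Type*} [CommGroup K] [TopologicalSpace K] [IsTopologicalGroup K] [CompactSpace K]
  [T2Space K] [SecondCountableTopology K] [MeasurableSpace K] [BorelSpace K]
  {m : Measure K} [IsProbabilityMeasure m] [m.IsHaarMeasure]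

/-- the characters are an orthonormal basis -/
theorem OB_ch' (sep : ∀ x : K, (∀ χ : PontryaginDual K, χ x = 1) → x = 1) :
    OB m (fun (χ : PontryaginDual K) (y : K) => ((χ y : Circle) : ℂ)) := by
  classical
  refine ⟨fun χ => ⟨(S7K.continuous_ch χ).measurable, 1, fun x => (S7K.norm_ch χ x).le⟩,
    fun χ ψ hne => ?_, fun χ => ?_, fun f hf ε hε => ?_⟩
  · have h := S7K.int_conj_ch (m := m) χ ψ
    rw [if_neg hne] at h
    exact h
  · have h : ∀ x : K, ‖((χ x : Circle) : ℂ)‖ ^ 2 = 1 := fun x => by rw [Circle.norm_coe, one_pow]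
    simp only [h, integral_const, probReal_univ, smul_eq_mul, mul_one]
  · have hmem : MemLp f 2 m := by
      obtain ⟨h1, C, hC⟩ := hf
      exact MemLp.of_bound h1.aestronglyMeasurable C (ae_of_all _ hC)
    obtain ⟨I, v, hv⟩ := S7K.tp_dense_L2 (m := m) sep hmem
      (ε := ENNReal.ofReal (Real.sqrt ε / 2)) (by
        rw [Ne, ENNReal.ofReal_eq_zero, not_le]
        exact half_pos (Real.sqrt_pos.2 hε))
    refine ⟨I, v, ?_⟩
    have hmem2 : MemLp (fun x => f x - ∑ i ∈ I, v i * ((i x : Circle) : ℂ)) 2 m := by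
      refine hmem.sub (memLp_finsetSum _ fun i _ => ?_)
      refine MemLp.of_bound (((S7K.continuous_ch i).measurable.const_mul _).aestronglyMeasurable)
        ‖v i‖ (ae_of_all _ fun x => ?_)
      rw [norm_mul, Circle.norm_coe, mul_one]
    have h1 : (fun y => f y - S7K.tp I v y) = fun x => f x - ∑ i ∈ I, v i * ((i x : Circle) : ℂ) := by
      funext x
      simp only [S7K.tp, S7K.ch, smul_eq_mul]
      refine congrArg _ (Finset.sum_congr rfl fun i _ => mul_comm _ _)
    rw [h1] at hv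
    have h2 : ∫ x, ‖f x - ∑ i ∈ I, v i * ((i x : Circle) : ℂ)‖ ^ 2 ∂m =
        (eLpNorm (fun x => f x - ∑ i ∈ I, v i * ((i x : Circle) : ℂ)) 2 m).toReal ^ 2 := by
      rw [hmem2.eLpNorm_eq_integral_rpow_norm two_ne_zero ENNReal.ofNat_ne_top]
      have h3 : 0 ≤ ∫ x, ‖f x - ∑ i ∈ I, v i * ((i x : Circle) : ℂ)‖ ^ 2 ∂m :=
        integral_nonneg fun x => by positivity
      rw [ENNReal.toReal_ofReal (by positivity)]
      simp only [ENNReal.toReal_ofNat, Real.rpow_ofNat]
      rw [← Real.rpow_natCast, ← Real.rpow_mul h3]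
      norm_num
    rw [h2]
    have h4 : (eLpNorm (fun x => f x - ∑ i ∈ I, v i * ((i x : Circle) : ℂ)) 2 m).toReal ≤
        Real.sqrt ε / 2 := by
      refine (ENNReal.toReal_mono ENNReal.ofReal_ne_top hv).trans ?_
      rw [ENNReal.toReal_ofReal (by positivity)]
    calc (eLpNorm (fun x => f x - ∑ i ∈ I, v i * ((i x : Circle) : ℂ)) 2 m).toReal ^ 2
        ≤ (Real.sqrt ε / 2) ^ 2 := pow_le_pow_left₀ ENNReal.toReal_nonneg h4 2
      _ = ε / 4 := by rw [div_pow, Real.sq_sqrt hε.le]; norm_num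
      _ < ε := by linarith

end Pool.Agent.S7C
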