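import Pool.Agent.S7C.Opr

/-!
# S7 (MP_13664e_an), block C: reduction to irreducible representations (C8; helper69)
-/

set_option autoImplicit false

namespace Pool.Agent.S7C

open MeasureTheory Filter Topology ENNReal
open Pool.Agent.S7 (itc Dq Kq rt Vq)
open scoped InnerProductSpace

section rep

variable {G : Type*} [Group G] {E : Type*} [NormedAddCommGroup E] [InnerProductSpace ℂ E]
  [FiniteDimensional ℂ E] [CompleteSpace E]

/-! ## row d1: restriction of a representation -/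

-- BEGIN d1

omit [FiniteDimensional ℂ E] in
private theorem d1_inv (ρ : G →* UE E) (g : G) (v : E) :
    ((ρ g⁻¹ : UE E) : E →L[ℂ] E) (((ρ g : UE E) : E →L[ℂ] E) v) = v := by
  have h : ((ρ g⁻¹ : UE E) : E →L[ℂ] E) * ((ρ g : UE E) : E →L[ℂ] E) = 1 := by
    rw [← Submonoid.coe_mul, ← map_mul, inv_mul_cancel, map_one]
    rfl
  exact congrArg (fun A : E →L[ℂ] E => A v) h

omit [FiniteDimensional ℂ E] in
private theorem d1_inv' (ρ : G →* UE E) (g : G) (v : E) :
    ((ρ g : UE E) : E →L[ℂ] E) (((ρ g⁻¹ : UE E) : E →L[ℂ] E) v) = v := by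
  have h := d1_inv ρ g⁻¹ v
  rwa [inv_inv] at h

omit [FiniteDimensional ℂ E] in
private theorem d1_mul (ρ : G →* UE E) (g h : G) (v : E) :
    ((ρ (g * h) : UE E) : E →L[ℂ] E) v =
      ((ρ g : UE E) : E →L[ℂ] E) (((ρ h : UE E) : E →L[ℂ] E) v) := by
  rw [map_mul]
  rfl

omit [FiniteDimensional ℂ E] in
private theorem d1_norm (ρ : G →* UE E) (g : G) (v : E) :
    ‖((ρ g : UE E) : E →L[ℂ] E) v‖ = ‖v‖ :=
  (Unitary.linearIsometryEquiv (ρ g)).norm_map v

omit [FiniteDimensional ℂ E] in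
private theorem d1_inner (ρ : G →* UE E) (g : G) (v w : E) :
    ⟪((ρ g : UE E) : E →L[ℂ] E) v, ((ρ g : UE E) : E →L[ℂ] E) w⟫_ℂ = ⟪v, w⟫_ℂ :=
  (Unitary.linearIsometryEquiv (ρ g)).inner_map_map v w

/-- the restriction to an invariant subspace -/
theorem exists_restr (ρ : G →* UE E) (E1 : Submodule ℂ E) [CompleteSpace E1]
    (hinv : ∀ g, ∀ v ∈ E1, ((ρ g : UE E) : E →L[ℂ] E) v ∈ E1) :
    ∃ ρ1 : G →* UE E1, ∀ g (v : E1),
      ((((ρ1 g : UE E1) : E1 →L[ℂ] E1) v : E1) : E) = ((ρ g : UE E) : E →L[ℂ] E) v := by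
  let R : G → (E1 ≃ₗᵢ[ℂ] E1) := fun g =>
    { toFun := fun v => ⟨((ρ g : UE E) : E →L[ℂ] E) v, hinv g v v.2⟩
      invFun := fun v => ⟨((ρ g⁻¹ : UE E) : E →L[ℂ] E) v, hinv g⁻¹ v v.2⟩
      map_add' := fun v w => by
        apply Subtype.ext
        exact map_add _ _ _
      map_smul' := fun c v => by
        apply Subtype.ext
        exact map_smul _ _ _
      left_inv := fun v => by
        apply Subtype.ext
        exact d1_inv ρ g v
      right_inv := fun v => by
        apply Subtype.ext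
        exact d1_inv' ρ g v
      norm_map' := fun v => d1_norm ρ g v }
  let R1 : G →* (E1 ≃ₗᵢ[ℂ] E1) :=
    { toFun := R
      map_one' := by
        ext v
        show ((ρ 1 : UE E) : E →L[ℂ] E) v = v
        rw [map_one]
        rfl
      map_mul' := fun g h => by
        ext v
        exact d1_mul ρ g h v }
  refine ⟨(Unitary.linearIsometryEquiv (𝕜 := ℂ) (H := E1)).symm.toMonoidHom.comp R1, ?_⟩
  intro g v
  rfl

/-- the orthogonal complement of an invariant subspace is invariant (`ρ g` is unitary) -/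
theorem inv_orth (ρ : G →* UE E) (E1 : Submodule ℂ E)
    (hinv : ∀ g, ∀ v ∈ E1, ((ρ g : UE E) : E →L[ℂ] E) v ∈ E1) :
    ∀ g, ∀ v ∈ E1ᗮ, ((ρ g : UE E) : E →L[ℂ] E) v ∈ E1ᗮ := by
  intro g v hv
  rw [Submodule.mem_orthogonal] at hv ⊢
  intro w hw
  have h := d1_inner ρ g (((ρ g⁻¹ : UE E) : E →L[ℂ] E) w) v
  rw [d1_inv'] at h
  rw [h]
  exact hv _ (hinv g⁻¹ w hw)

/-- transport by an isometry -/
theorem exists_transport (ρ : G →* UE E) {E' : Type*} [NormedAddCommGroup E']
    [InnerProductSpace ℂ E'] [CompleteSpace E'] (e : E ≃ₗᵢ[ℂ] E') : ∃ ρ' : G →* UE E',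
      (∀ g v, ((ρ' g : UE E') : E' →L[ℂ] E') (e v) = e (((ρ g : UE E) : E →L[ℂ] E) v)) ∧
      (Irr ρ → Irr ρ') := by
  let R1 : G →* (E' ≃ₗᵢ[ℂ] E') :=
    { toFun := fun g => (e.symm.trans (Unitary.linearIsometryEquiv (ρ g))).trans e
      map_one' := by
        ext v
        show e (((ρ 1 : UE E) : E →L[ℂ] E) (e.symm v)) = v
        rw [map_one]
        exact e.apply_symm_apply v
      map_mul' := fun g h => by
        ext v
        show e (((ρ (g * h) : UE E) : E →L[ℂ] E) (e.symm v)) =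
          e (((ρ g : UE E) : E →L[ℂ] E) (e.symm (e (((ρ h : UE E) : E →L[ℂ] E) (e.symm v)))))
        rw [d1_mul, e.symm_apply_apply] }
  have h1 : ∀ g v, (((Unitary.linearIsometryEquiv (𝕜 := ℂ) (H := E')).symm.toMonoidHom.comp R1 g :
      UE E') : E' →L[ℂ] E') (e v) = e (((ρ g : UE E) : E →L[ℂ] E) v) := by
    intro g v
    show e (((ρ g : UE E) : E →L[ℂ] E) (e.symm (e v))) = _
    rw [e.symm_apply_apply]
  refine ⟨(Unitary.linearIsometryEquiv (𝕜 := ℂ) (H := E')).symm.toMonoidHom.comp R1, h1, ?_⟩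
  intro hI A hA
  let ec : E →L[ℂ] E' := (e : E ≃L[ℂ] E')
  let ei : E' →L[ℂ] E := (e.symm : E' ≃L[ℂ] E)
  obtain ⟨t, ht⟩ := hI (ei ∘L A ∘L ec) (by
    intro g
    ext v
    show ((ρ g : UE E) : E →L[ℂ] E) (e.symm (A (e v))) =
      e.symm (A (e (((ρ g : UE E) : E →L[ℂ] E) v)))
    have h2 := congrArg (fun B : E' →L[ℂ] E' => B (e v)) (hA g)
    rw [← h1 g v]
    have h3 := h1 g (e.symm (A (e v)))
    rw [e.apply_symm_apply] at h3
    have h4 : ((((Unitary.linearIsometryEquiv (𝕜 := ℂ) (H := E')).symm.toMonoidHom.comp R1 g :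
      UE E') : E' →L[ℂ] E')) (A (e v)) = A (((((Unitary.linearIsometryEquiv (𝕜 := ℂ)
      (H := E')).symm.toMonoidHom.comp R1 g : UE E') : E' →L[ℂ] E')) (e v)) := h2
    rw [← h4, h3, e.symm_apply_apply])
  refine ⟨t, ?_⟩
  ext v
  have h2 := congrArg (fun B : E →L[ℂ] E => e (B (e.symm v))) ht
  have h3 : e (e.symm (A (e (e.symm v)))) = e (t • e.symm v) := h2
  rw [e.apply_symm_apply, e.apply_symm_apply, map_smul, e.apply_symm_apply] at h3
  exact h3

/-- an eigenspace of an operator which commutes with `ρ` and is not a scalar -/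
theorem exists_invariant {ρ : G →* UE E} (h : ¬ Irr ρ) : ∃ E1 : Submodule ℂ E, E1 ≠ ⊥ ∧ E1 ≠ ⊤ ∧
    ∀ g, ∀ v ∈ E1, ((ρ g : UE E) : E →L[ℂ] E) v ∈ E1 := by
  unfold Irr at h
  push Not at h
  obtain ⟨A, hA, hne⟩ := h
  have hnt : Nontrivial E := by
    by_contra h0
    rw [not_nontrivial_iff_subsingleton] at h0
    exact hne 0 (ContinuousLinearMap.ext fun v => Subsingleton.elim _ _)
  obtain ⟨c, hc⟩ := Module.End.exists_eigenvalue (A : E →ₗ[ℂ] E)
  refine ⟨Module.End.eigenspace (A : E →ₗ[ℂ] E) c, hc, ?_, ?_⟩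
  · intro htop
    apply hne c
    ext v
    have h1 : v ∈ Module.End.eigenspace (A : E →ₗ[ℂ] E) c := by rw [htop]; trivial
    rw [Module.End.mem_eigenspace_iff] at h1
    exact h1
  · intro g v hv
    rw [Module.End.mem_eigenspace_iff] at hv ⊢
    have h2 := congrArg (fun B : E →L[ℂ] E => B v) (hA g)
    have h3 : ((ρ g : UE E) : E →L[ℂ] E) (A v) = A (((ρ g : UE E) : E →L[ℂ] E) v) := h2
    show A (((ρ g : UE E) : E →L[ℂ] E) v) = c • ((ρ g : UE E) : E →L[ℂ] E) v
    have h4 : A v = c • v := hv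
    rw [← h3, h4, map_smul]

-- END d1

end rep

section red

variable {K Z : Type*} [Group K] [MeasurableSpace K] [MeasurableSpace Z] {u : K} {m : Measure K}
  [IsProbabilityMeasure m] {M : Measure Z} {S : Z → Z} {y : Z → K} {s l : Z → ℝ}
  {E : Type*} [NormedAddCommGroup E] [InnerProductSpace ℂ E] [FiniteDimensional ℂ E] [CompleteSpace E]
  [MeasurableSpace E] [BorelSpace E]

/-! ## row d2: `T_J` and linear maps -/

-- BEGIN d2

private theorem d2_bm {X E1 E2 : Type*} [MeasurableSpace X] [NormedAddCommGroup E1]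
    [InnerProductSpace ℂ E1] [NormedAddCommGroup E2] [InnerProductSpace ℂ E2] (L : E1 →L[ℂ] E2) :
    BM (fun _ : X => L) := ⟨measurable_const, ‖L‖, fun _ => le_rfl⟩

private theorem d2_cancel {E1 : Type*} [NormedAddCommGroup E1] [InnerProductSpace ℂ E1]
    [CompleteSpace E1] (g : UE E1) (v : E1) :
    ((g : UE E1) : E1 →L[ℂ] E1) (((g⁻¹ : UE E1) : E1 →L[ℂ] E1) v) = v := by
  have h1 : ((g : UE E1) : E1 →L[ℂ] E1) * ((g⁻¹ : UE E1) : E1 →L[ℂ] E1) = 1 := by
    rw [← Submonoid.coe_mul, mul_inv_cancel]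
    rfl
  exact congrArg (fun A : E1 →L[ℂ] E1 => A v) h1

/-- If the constant map `L : E → E'` intertwines `V` and `V'`, then `T' (L a) = L (T a)`: `PV_comm` for
`mulL (fun _ => L)`. -/
theorem TT_map (h : Sys u m M S y s l) {E' : Type*} [NormedAddCommGroup E'] [InnerProductSpace ℂ E']
    [FiniteDimensional ℂ E'] [CompleteSpace E'] [MeasurableSpace E'] [BorelSpace E']
    {V : K → UE E} (hV : Measurable V) {V' : K → UE E'} (hV' : Measurable V') (L : E →L[ℂ] E')
    (hL : ∀ x v, L (((V x : UE E) : E →L[ℂ] E) v) = ((V' x : UE E') : E' →L[ℂ] E') (L v))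
    {J : Set ℝ} (hJ : MeasurableSet J) (hJf : volume J ≠ ∞) {a : K → E} (ha : BM a) :
    TT M S y s l V' J (fun x => L (a x)) = mulL (fun _ => L) (TT M S y s l V J a) := by
  have hinv : ∀ x v, L ((((V x)⁻¹ : UE E) : E →L[ℂ] E) v) =
      (((V' x)⁻¹ : UE E') : E' →L[ℂ] E') (L v) := by
    intro x v
    have e2 := hL x ((((V x)⁻¹ : UE E) : E →L[ℂ] E) v)
    rw [d2_cancel] at e2
    rw [e2]
    have e3 := d2_cancel ((V' x)⁻¹ : UE E') (L ((((V x)⁻¹ : UE E) : E →L[ℂ] E) v))
    rw [inv_inv] at e3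
    exact e3.symm
  have hA : ∀ F : HE E M, mulL (fun _ => L) (Uop M S y V F) =
      Uop M S y V' (mulL (fun _ => L) F : HE E' M) := by
    intro F
    refine Lp.ext ?_
    have h4 : ∀ᵐ z ∂M, (mulL (fun _ => L) F : HE E' M) (S z) = L (F (S z)) :=
      h.mp.quasiMeasurePreserving.ae (mulL_coe (d2_bm L) F)
    filter_upwards [mulL_coe (d2_bm L) (Uop M S y V F), Uop_coe h hV F,
      Uop_coe h hV' (mulL (fun _ => L) F : HE E' M), h4] with z h1 h2 h3 h5
    rw [h1, h2, h3, h5]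
    exact hinv _ _
  have haL : BM (fun x => L (a x)) := by
    obtain ⟨h1, C, hC⟩ := ha
    exact ⟨L.measurable.comp h1, ‖L‖ * C, fun x => L.le_of_opNorm_le_of_le le_rfl (hC x)⟩
  have hW : W M y s l J (fun x => L (a x)) = mulL (fun _ => L) (W M y s l J a) := by
    refine Lp.ext ?_
    filter_upwards [W_coe h hJ hJf haL, mulL_coe (d2_bm L) (W M y s l J a),
      W_coe h hJ hJf ha] with z h1 h2 h3
    rw [h1, h2, h3]
    unfold wf
    by_cases hz : z ∈ s ⁻¹' J
    · simp only [Set.indicator_of_mem hz, map_smul]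
    · simp only [Set.indicator_of_notMem hz, map_zero]
  unfold TT
  rw [hW]
  exact (PV_comm h hV hV' (mulL fun _ => L) hA (W M y s l J a)).symm

-- END d2

variable {G : Type*} [Group G] [MeasurableSpace G] [DiscreteMeasurableSpace G]

/-! ## row d3 -/

-- BEGIN d3

private theorem d3_sub (h : Sys u m M S y s l) (ρ : G →* UE E) {c : K → G} (hc : Measurable c)
    {J : Set ℝ} (hJ : MeasurableSet J) (hJf : volume J ≠ ∞) {a : K → E} (ha : BM a)
    (E1 : Submodule ℂ E) [CompleteSpace E1]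
    (hinv : ∀ g, ∀ v ∈ E1, ((ρ g : UE E) : E →L[ℂ] E) v ∈ E1)
    (h0 : TT M S y s l (fun x => ρ (c x)) J (fun x => E1.starProjection (a x)) ≠ 0) :
    ∃ (ρ1 : G →* UE E1) (b : K → E1), BM b ∧ TT M S y s l (fun x => ρ1 (c x)) J b ≠ 0 := by
  obtain ⟨ρ1, hρ1⟩ := exists_restr ρ E1 hinv
  have hb : BM (fun x => E1.orthogonalProjectionOnto (a x)) := by
    obtain ⟨h1, C, hC⟩ := ha
    refine ⟨(E1.orthogonalProjectionOnto).continuous.measurable.comp h1, C, fun x => ?_⟩
    exact (E1.norm_orthogonalProjectionOnto_apply_le (a x)).trans (hC x)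
  refine ⟨ρ1, fun x => E1.orthogonalProjectionOnto (a x), hb, fun hz => h0 ?_⟩
  have key := TT_map h (V := fun x => ρ1 (c x)) ((Measurable.of_discrete (f := ρ1)).comp hc)
    (V' := fun x => ρ (c x)) ((Measurable.of_discrete (f := ρ)).comp hc) E1.subtypeL
    (fun x v => hρ1 (c x) v) hJ hJf hb
  have e : (fun x => E1.subtypeL (E1.orthogonalProjectionOnto (a x)))
      = fun x => E1.starProjection (a x) := rfl
  rw [← e, key, hz, map_zero]

private theorem d3_aux (h : Sys u m M S y s l) {c : K → G} (hc : Measurable c)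
    {J : Set ℝ} (hJ : MeasurableSet J) (hJf : volume J ≠ ∞) (n : ℕ) :
    ∀ (E : Type*) [NormedAddCommGroup E] [InnerProductSpace ℂ E] [FiniteDimensional ℂ E]
      [CompleteSpace E] [MeasurableSpace E] [BorelSpace E] (ρ : G →* UE E) (a : K → E),
      Module.finrank ℂ E = n → BM a → TT M S y s l (fun x => ρ (c x)) J a ≠ 0 →
    ∃ (d : ℕ) (ρ' : G →* UE (EuclideanSpace ℂ (Fin d))) (a' : K → EuclideanSpace ℂ (Fin d)),
      Irr ρ' ∧ BM a' ∧ TT M S y s l (fun x => ρ' (c x)) J a' ≠ 0 := by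
  induction n using Nat.strong_induction_on with
  | _ n ih =>
    intro E _ _ _ _ _ _ ρ a hn ha h0
    by_cases hI : Irr ρ
    · obtain ⟨ρ', hρ', hirr⟩ := exists_transport ρ (stdOrthonormalBasis ℂ E).repr
      have hb : BM (fun x => (stdOrthonormalBasis ℂ E).repr (a x)) := by
        obtain ⟨h1, C, hC⟩ := ha
        refine ⟨((stdOrthonormalBasis ℂ E).repr.continuous).measurable.comp h1, C, fun x => ?_⟩
        rw [LinearIsometryEquiv.norm_map]
        exact hC x
      refine ⟨_, ρ', fun x => (stdOrthonormalBasis ℂ E).repr (a x), hirr hI, hb, fun hz => h0 ?_⟩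
      have key := TT_map h (V := fun x => ρ (c x)) ((Measurable.of_discrete (f := ρ)).comp hc)
        (V' := fun x => ρ' (c x)) ((Measurable.of_discrete (f := ρ')).comp hc)
        ((stdOrthonormalBasis ℂ E).repr.toContinuousLinearEquiv :
          E →L[ℂ] EuclideanSpace ℂ (Fin (Module.finrank ℂ E)))
        (fun x v => (hρ' (c x) v).symm) hJ hJf ha
      have hiso := mulL_isom (M := M) (A := fun _ : Z =>
        ((stdOrthonormalBasis ℂ E).repr.toContinuousLinearEquiv :
          E →L[ℂ] EuclideanSpace ℂ (Fin (Module.finrank ℂ E))))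
        ⟨measurable_const, ‖((stdOrthonormalBasis ℂ E).repr.toContinuousLinearEquiv :
          E →L[ℂ] EuclideanSpace ℂ (Fin (Module.finrank ℂ E)))‖, fun _ => le_rfl⟩
        (fun z x => (stdOrthonormalBasis ℂ E).repr.norm_map x)
        (TT M S y s l (fun x => ρ (c x)) J a)
      rw [← key] at hiso
      have e : (fun x => ((stdOrthonormalBasis ℂ E).repr.toContinuousLinearEquiv :
          E →L[ℂ] EuclideanSpace ℂ (Fin (Module.finrank ℂ E))) (a x))
          = fun x => (stdOrthonormalBasis ℂ E).repr (a x) := rfl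
      rw [e, hz, norm_zero] at hiso
      exact norm_eq_zero.1 hiso.symm
    · obtain ⟨E1, hbot, htop, hinv⟩ := exists_invariant hI
      have hinv2 := inv_orth ρ E1 hinv
      haveI : CompleteSpace E1 := FiniteDimensional.complete ℂ E1
      haveI : CompleteSpace E1ᗮ := FiniteDimensional.complete ℂ E1ᗮ
      have hP : ∀ (F : Submodule ℂ E) [CompleteSpace F], BM (fun x => F.starProjection (a x)) := by
        intro F _
        obtain ⟨h1, C, hC⟩ := ha
        refine ⟨(F.starProjection).continuous.measurable.comp h1, C, fun x => ?_⟩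
        exact (F.norm_starProjection_apply_le (a x)).trans (hC x)
      have hsum : TT M S y s l (fun x => ρ (c x)) J a
          = TT M S y s l (fun x => ρ (c x)) J (fun x => E1.starProjection (a x))
            + TT M S y s l (fun x => ρ (c x)) J (fun x => E1ᗮ.starProjection (a x)) := by
        rw [← TT_add h (fun x => ρ (c x)) hJ hJf (hP E1) (hP E1ᗮ)]
        congr 1
        funext x
        exact (E1.starProjection_add_starProjection_orthogonal (a x)).symm
      by_cases h1 : TT M S y s l (fun x => ρ (c x)) J (fun x => E1.starProjection (a x)) = 0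
      · have h2 : TT M S y s l (fun x => ρ (c x)) J (fun x => E1ᗮ.starProjection (a x)) ≠ 0 := by
          intro h2
          exact h0 (by rw [hsum, h1, h2, add_zero])
        obtain ⟨ρ1, b, hb, hb0⟩ := d3_sub h ρ hc hJ hJf ha E1ᗮ hinv2 h2
        refine ih (Module.finrank ℂ E1ᗮ) ?_ E1ᗮ ρ1 b rfl hb hb0
        rw [← hn]
        exact Submodule.finrank_lt fun ht => hbot ((Submodule.orthogonal_eq_top_iff E1).1 ht)
      · obtain ⟨ρ1, b, hb, hb0⟩ := d3_sub h ρ hc hJ hJf ha E1 hinv h1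
        refine ih (Module.finrank ℂ E1) ?_ E1 ρ1 b rfl hb hb0
        rw [← hn]
        exact Submodule.finrank_lt htop

/-- Proof. Strong induction on `finrank ℂ E` (for all `E` in this universe). If `Irr ρ`: transport to
`EuclideanSpace ℂ (Fin (finrank ℂ E))` (`stdOrthonormalBasis`, `exists_transport`, `TT_map`). Otherwise
`exists_invariant` gives `E1`; `a = a1 + a2` with the orthogonal projections to `E1`, `E1ᗮ` (measurable,
bounded); `T_J a ≠ 0`, so `T_J a1 ≠ 0` or `T_J a2 ≠ 0` (`TT_add`), and by `exists_restr`, `inv_orth`, `TT_map`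
(for the inclusion) the induction hypothesis applies to `E1` or to `E1ᗮ`, both of smaller dimension. -/
theorem exists_irr (h : Sys u m M S y s l) (ρ : G →* UE E) {c : K → G} (hc : Measurable c)
    {J : Set ℝ} (hJ : MeasurableSet J) (hJf : volume J ≠ ∞) {a : K → E} (ha : BM a)
    (h0 : TT M S y s l (fun x => ρ (c x)) J a ≠ 0) :
    ∃ (d : ℕ) (ρ' : G →* UE (EuclideanSpace ℂ (Fin d))) (a' : K → EuclideanSpace ℂ (Fin d)),
      Irr ρ' ∧ BM a' ∧ TT M S y s l (fun x => ρ' (c x)) J a' ≠ 0 := by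
  exact d3_aux h hc hJ hJf (Module.finrank ℂ E) E ρ a rfl ha h0

-- END d3

end red

section red2

variable {K Z : Type*} [CommGroup K] [MeasurableSpace K] [MeasurableSpace Z] {u : K} {m : Measure K}
  [IsProbabilityMeasure m] {M : Measure Z} {S : Z → Z} {y : Z → K} {s l : Z → ℝ}

/-! ## row d4: C8 -/

-- BEGIN d4

/-- C8. Proof. `mackey`: `τ(u x) c(x) τ(x)⁻¹ = c' x`; `TT_gauge` for `ρ τ` (it is an isometry:
`mulL_isom`), then `exists_irr` for the restriction of `ρ` to `G'`. -/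
theorem reduction (h : Sys u m M S y s l) (herg : Ergodic (fun x => u * x) m)
    {G : Type*} [Group G] [Finite G] [MeasurableSpace G] [DiscreteMeasurableSpace G]
    {E : Type*} [NormedAddCommGroup E] [InnerProductSpace ℂ E] [FiniteDimensional ℂ E]
    [CompleteSpace E] [MeasurableSpace E] [BorelSpace E] (ρ : G →* UE E) {c : K → G}
    (hc : Measurable c) {J : Set ℝ} (hJ : MeasurableSet J) (hJf : volume J ≠ ∞) {a : K → E}
    (ha : BM a) (h0 : TT M S y s l (fun x => ρ (c x)) J a ≠ 0) :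
    ∃ (G' : Subgroup G) (c' : K → G') (d : ℕ) (ρ' : G' →* UE (EuclideanSpace ℂ (Fin d)))
      (a' : K → EuclideanSpace ℂ (Fin d)), Measurable c' ∧ Min u m c' ∧ Irr ρ' ∧ BM a' ∧
      TT M S y s l (fun x => ρ' (c' x)) J a' ≠ 0 := by
  obtain ⟨G', c', τ, hc', hτ, hmin, hrel⟩ := mackey herg hc
  have hρ : Measurable fun g : G => ρ g := Measurable.of_discrete
  have hV : Measurable fun x => ρ (c x) := hρ.comp hc
  have hVt : Measurable fun x => ρ (τ x) := hρ.comp hτ
  have hV' : Measurable fun x => ρ ((c' x : G') : G) :=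
    hρ.comp (measurable_subtype_coe.comp hc')
  have hi : ∀ᵐ x ∂m, ρ (τ (u * x)) * ρ (c x) = ρ ((c' x : G') : G) * ρ (τ x) := by
    filter_upwards [hrel] with x hx
    rw [← hx, ← map_mul, ← map_mul, inv_mul_cancel_right]
  have hg := TT_gauge h hV hV' hVt hi hJ hJf ha
  have ha1 : BM fun x => ((ρ (τ x) : UE E) : E →L[ℂ] E) (a x) := by
    obtain ⟨h1, C, hC⟩ := ha
    refine ⟨?_, C, fun x => ?_⟩
    · have h2 : Measurable fun p : G × E => ((ρ p.1 : UE E) : E →L[ℂ] E) p.2 :=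
        measurable_from_prod_countable_right fun g =>
          ((ρ g : UE E) : E →L[ℂ] E).continuous.measurable
      exact h2.comp (hτ.prodMk h1)
    · rw [ue_apply_norm]
      exact hC x
  have h1 : TT M S y s l (fun x => (ρ.comp G'.subtype) (c' x)) J
      (fun x => ((ρ (τ x) : UE E) : E →L[ℂ] E) (a x)) ≠ 0 := by
    intro hz
    have hz' : TT M S y s l (fun x => ρ ((c' x : G') : G)) J
      (fun x => ((ρ (τ x) : UE E) : E →L[ℂ] E) (a x)) = 0 := hz
    rw [hz'] at hg
    have h2 : ‖mulL (M := M) (fun z => ((ρ (τ (y z)) : UE E) : E →L[ℂ] E))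
        (TT M S y s l (fun x => ρ (c x)) J a)‖ = ‖TT M S y s l (fun x => ρ (c x)) J a‖ :=
      mulL_isom (bm_ue (hVt.comp h.my)) (fun z x => ue_apply_norm _ x) _
    rw [← hg, norm_zero] at h2
    exact h0 (norm_eq_zero.1 h2.symm)
  obtain ⟨d, ρ', a', hI, ha', hT⟩ := exists_irr h (ρ.comp G'.subtype) hc' hJ hJf ha1 h1
  exact ⟨G', c', d, ρ', a', hc', hmin, hI, ha', hT⟩
-- END d4

end red2

/-! ## row d5: permutation matrices -/

section perm

open Classical in
/-- the permutation matrix: `permU σ e_j = e_(σ j)`, `(permU σ v) i = v (σ⁻¹ i)` -/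
noncomputable def permU (r : ℕ) : Equiv.Perm (Fin r) →* UE (EuclideanSpace ℂ (Fin r)) where
  toFun σ := Unitary.linearIsometryEquiv.symm (LinearIsometryEquiv.piLpCongrLeft 2 ℂ ℂ σ)
  map_one' := by
    rw [← map_one Unitary.linearIsometryEquiv.symm]
    congr 1
  map_mul' σ τ := by
    rw [← map_mul]
    refine congrArg _ (LinearIsometryEquiv.ext fun v => ?_)
    ext i
    rfl

-- BEGIN d5

theorem permU_apply {r : ℕ} (σ : Equiv.Perm (Fin r)) (v : EuclideanSpace ℂ (Fin r)) (i : Fin r) :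
    (((permU r σ : UE (EuclideanSpace ℂ (Fin r))) :
      EuclideanSpace ℂ (Fin r) →L[ℂ] EuclideanSpace ℂ (Fin r)) v) i = v (σ⁻¹ i) := by
  rfl

theorem permU_inv_apply {r : ℕ} (σ : Equiv.Perm (Fin r)) (v : EuclideanSpace ℂ (Fin r)) (i : Fin r) :
    ((((permU r σ)⁻¹ : UE (EuclideanSpace ℂ (Fin r))) :
      EuclideanSpace ℂ (Fin r) →L[ℂ] EuclideanSpace ℂ (Fin r)) v) i = v (σ i) := by
  rw [← map_inv (permU r) σ, permU_apply, inv_inv]

/-- THEOREM Z from `T_J = 0`: the `i`-th coordinate in `avg_tendsto`. -/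
theorem thmZ_of_TT {K Z : Type*} [Group K] [MeasurableSpace K] [MeasurableSpace Z] {u : K}
    {m : Measure K} [IsProbabilityMeasure m] {M : Measure Z} {S : Z → Z} {y : Z → K} {s l : Z → ℝ}
    (h : Sys u m M S y s l) {r : ℕ} [MeasurableSpace (Equiv.Perm (Fin r))]
    [DiscreteMeasurableSpace (Equiv.Perm (Fin r))] {σ : K → Equiv.Perm (Fin r)} (hσ : Measurable σ)
    {J : Set ℝ} (hJ : MeasurableSet J) (hJf : volume J ≠ ∞)
    {a : K → EuclideanSpace ℂ (Fin r)} (ha : BM a)
    (h0 : TT M S y s l (fun x => permU r (σ x)) J a = 0) (i : Fin r) :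
    Tendsto (fun H : ℕ => ∫ z in s ⁻¹' J, ‖((H : ℂ)⁻¹) * ∑ n ∈ Finset.range H,
      (l (S^[n] z) : ℂ) * a (u ^ n * y z) (itc u σ n (y z) i)‖ ^ 2 ∂M) atTop (𝓝 0) := by
  have hV : Measurable fun x => permU r (σ x) :=
    (Measurable.of_discrete (f := fun τ : Equiv.Perm (Fin r) => permU r τ)).comp hσ
  have h1 := avg_tendsto h hV hJ hJf ha h0
  refine squeeze_zero (fun H => integral_nonneg fun z => by positivity) (fun H => ?_) h1
  have hms : MeasurableSet (s ⁻¹' J) := h.ms hJ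
  have hF : ∀ᵐ z ∂M, z ∈ s ⁻¹' J →
      (((H : ℂ)⁻¹) • ∑ n ∈ Finset.range H,
        (Uop M S y (fun x => permU r (σ x)) ^ n) (W M y s l J a) :
          HE (EuclideanSpace ℂ (Fin r)) M) z =
      ((H : ℂ)⁻¹) • ∑ n ∈ Finset.range H,
        (l (S^[n] z) : ℂ) • (((itc u (fun x => permU r (σ x)) n (y z))⁻¹ :
          UE (EuclideanSpace ℂ (Fin r))) : EuclideanSpace ℂ (Fin r) →L[ℂ]
            EuclideanSpace ℂ (Fin r)) (a (u ^ n * y z)) := by
    have h2 : ∀ᵐ z ∂M, ∀ n : ℕ, ((Uop M S y (fun x => permU r (σ x)) ^ n) (W M y s l J a)) z =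
        Set.indicator (s ⁻¹' J) (fun z =>
      (l (S^[n] z) : ℂ) • (((itc u (fun x => permU r (σ x)) n (y z))⁻¹ :
        UE (EuclideanSpace ℂ (Fin r))) : EuclideanSpace ℂ (Fin r) →L[ℂ]
            EuclideanSpace ℂ (Fin r)) (a (u ^ n * y z))) z :=
      ae_all_iff.2 fun n => Uop_pow_W h hV hJ hJf ha n
    filter_upwards [h2, Lp.coeFn_smul ((H : ℂ)⁻¹) (∑ n ∈ Finset.range H,
        (Uop M S y (fun x => permU r (σ x)) ^ n) (W M y s l J a)),
      Lp.coeFn_finsetSum (Finset.range H) (fun n =>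
        (Uop M S y (fun x => permU r (σ x)) ^ n) (W M y s l J a))] with z hz1 hz2 hz3 hzJ
    rw [hz2, Pi.smul_apply, hz3, Finset.sum_apply]
    congr 1
    refine Finset.sum_congr rfl fun n _ => ?_
    rw [hz1 n, Set.indicator_of_mem hzJ]
  have hI : Integrable (fun z => ‖((H : ℂ)⁻¹) • ∑ n ∈ Finset.range H,
        (l (S^[n] z) : ℂ) • (((itc u (fun x => permU r (σ x)) n (y z))⁻¹ :
          UE (EuclideanSpace ℂ (Fin r))) : EuclideanSpace ℂ (Fin r) →L[ℂ]
            EuclideanSpace ℂ (Fin r)) (a (u ^ n * y z))‖ ^ 2) (M.restrict (s ⁻¹' J)) := by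
    have h3 := (Lp.memLp (((H : ℂ)⁻¹) • ∑ n ∈ Finset.range H,
        (Uop M S y (fun x => permU r (σ x)) ^ n) (W M y s l J a) :
          HE (EuclideanSpace ℂ (Fin r)) M)).integrable_norm_pow (by norm_num)
    refine (h3.restrict (s := s ⁻¹' J)).congr ?_
    refine (ae_restrict_iff' hms).2 ?_
    filter_upwards [hF] with z hz hzJ
    rw [hz hzJ]
  refine integral_mono_of_nonneg (ae_of_all _ fun z => by positivity) hI (ae_of_all _ fun z => ?_)
  refine pow_le_pow_left₀ (norm_nonneg _) ?_ 2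
  refine le_trans (le_of_eq ?_) (PiLp.norm_apply_le _ i)
  congr 1
  rw [PiLp.smul_apply, smul_eq_mul]
  congr 1
  rw [WithLp.ofLp_sum, Finset.sum_apply]
  refine Finset.sum_congr rfl fun n _ => ?_
  rw [PiLp.smul_apply, smul_eq_mul, coc_hom (permU r) n (y z), permU_inv_apply]

-- END d5

end perm

end Pool.Agent.S7C
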