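import Pool.Agent.S7.Kbr
import Pool.Agent.S7C.Red
import Pool.Agent.S7C.Dil
import Pool.Agent.S7C.Ob

/-!
# S7 (MP_13664e_an), block C: the theorems of the contract (`Pool.Agent.S7.Iface`) (helper69)

`E ≃ₗᵢ[ℂ] E` valued cocycles `g` correspond to unitary cocycles `gU g`.
-/

set_option autoImplicit false

namespace Pool.Agent.S7C

open MeasureTheory Filter Topology ENNReal
open Pool.Agent.S7 (itc Dq Kq rt Vq KD DS BMf FM Mi Ir toH av TJ BJ IsKer)
open scoped InnerProductSpace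

/-! ## row g1: finitely valued measurable maps, `gU` -/

section g1

variable {K : Type*} [MeasurableSpace K] {E : Type*} [NormedAddCommGroup E] [InnerProductSpace ℂ E]
  [CompleteSpace E]

/-- the unitary cocycle of a cocycle with values in `E ≃ₗᵢ[ℂ] E` -/
noncomputable def gU {K : Type*} (g : K → (E ≃ₗᵢ[ℂ] E)) (x : K) : UE E :=
  Unitary.linearIsometryEquiv.symm (g x)

-- BEGIN g1

/-- every function of a finitely valued measurable map is measurable -/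
theorem FM_meas {X Y : Type*} [MeasurableSpace Y] {g : K → X} (hg : FM g) (φ : X → Y) :
    Measurable fun x => φ (g x) := by
  intro s _
  have h1 : (fun x => φ (g x)) ⁻¹' s = ⋃ v ∈ {v | v ∈ Set.range g ∧ φ v ∈ s}, g ⁻¹' {v} := by
    ext x
    simp only [Set.mem_preimage, Set.mem_iUnion, Set.mem_singleton_iff, exists_prop]
    constructor
    · intro hx
      exact ⟨g x, ⟨⟨x, rfl⟩, hx⟩, rfl⟩
    · rintro ⟨v, ⟨-, hv⟩, rfl⟩
      exact hv
  rw [h1]
  exact (hg.1.subset fun v hv => hv.1).measurableSet_biUnion fun v _ => hg.2 v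

theorem FM_of_meas {X : Type*} [Finite X] [MeasurableSpace X] [MeasurableSingletonClass X]
    {g : K → X} (hg : Measurable g) : FM g :=
  ⟨Set.toFinite _, fun x => hg (measurableSet_singleton x)⟩

theorem FM_comp {X Y : Type*} {g : K → X} (hg : FM g) (φ : X → Y) : FM fun x => φ (g x) := by
  constructor
  · have h1 : Set.range (fun x => φ (g x)) = φ '' Set.range g := Set.range_comp φ g
    rw [h1]
    exact hg.1.image φ
  · intro y
    letI : MeasurableSpace Y := ⊤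
    exact FM_meas hg φ MeasurableSpace.measurableSet_top

theorem FM_prod {X Y : Type*} {g : K → X} {g' : K → Y} (hg : FM g) (hg' : FM g') :
    FM fun x => (g x, g' x) := by
  constructor
  · refine (hg.1.prod hg'.1).subset ?_
    rintro _ ⟨x, rfl⟩
    exact ⟨⟨x, rfl⟩, ⟨x, rfl⟩⟩
  · rintro ⟨a, b⟩
    have h1 : (fun x => (g x, g' x)) ⁻¹' {(a, b)} = g ⁻¹' {a} ∩ g' ⁻¹' {b} := by
      ext x
      simp only [Set.mem_preimage, Set.mem_singleton_iff, Prod.mk.injEq, Set.mem_inter_iff]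
    rw [h1]
    exact (hg.2 a).inter (hg'.2 b)

theorem FM_pre {X : Type*} {g : K → X} (hg : FM g) {p : K → K} (hp : Measurable p) :
    FM fun x => g (p x) := by
  constructor
  · refine hg.1.subset ?_
    rintro _ ⟨x, rfl⟩
    exact ⟨p x, rfl⟩
  · intro x
    exact hp (hg.2 x)

theorem gU_meas {g : K → (E ≃ₗᵢ[ℂ] E)} (hg : FM g) : Measurable (gU g) :=
  FM_meas hg fun e => Unitary.linearIsometryEquiv.symm e

omit [MeasurableSpace K] in
theorem gU_apply (g : K → (E ≃ₗᵢ[ℂ] E)) (x : K) (v : E) :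
    ((gU g x : UE E) : E →L[ℂ] E) v = g x v := rfl

omit [MeasurableSpace K] in
theorem gU_inv_apply (g : K → (E ≃ₗᵢ[ℂ] E)) (x : K) (v : E) :
    (((gU g x)⁻¹ : UE E) : E →L[ℂ] E) v = (g x)⁻¹ v := by
  unfold gU
  rw [← map_inv]
  rfl

omit [MeasurableSpace K] in
theorem gU_mul (g g' : K → (E ≃ₗᵢ[ℂ] E)) (x x' : K) :
    gU g x * gU g' x' = Unitary.linearIsometryEquiv.symm (g x * g' x') := by
  unfold gU
  rw [map_mul]

omit [MeasurableSpace K] in
theorem itc_gU [Monoid K] (u : K) (g : K → (E ≃ₗᵢ[ℂ] E)) (h : ℕ) (x : K) :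
    itc u (gU g) h x = gU (fun x => itc u g h x) x := by
  induction h with
  | zero =>
    show (1 : UE E) = Unitary.linearIsometryEquiv.symm 1
    rw [map_one]
  | succ h ih =>
    show gU g (u ^ h * x) * itc u (gU g) h x = _
    rw [ih, gU_mul]
    rfl

omit [MeasurableSpace K] in
theorem Dq_gU [Monoid K] (u : K) (g : K → (E ≃ₗᵢ[ℂ] E)) (q : ℕ) :
    Dq u (gU g) q = gU (Dq u g q) := by
  funext x
  exact itc_gU u g q (x ^ q)

theorem FM_itc' {Γ : Type*} [Group Γ] [Group K] [MeasurableMul K] {c : K → Γ} (hc : FM c) (u : K)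
    (h : ℕ) : FM (itc u c h) := by
  induction h with
  | zero =>
    refine ⟨(Set.finite_singleton (1 : Γ)).subset ?_, fun x => ?_⟩
    · rintro _ ⟨x, rfl⟩
      exact rfl
    · exact MeasurableSet.const ((1 : Γ) = x)
  | succ h ih =>
    exact FM_comp (FM_prod (FM_pre hc (measurable_const_mul (u ^ h))) ih)
      (fun p : Γ × Γ => p.1 * p.2)

theorem FM_Dq {Γ : Type*} [Group Γ] [Group K] [MeasurableMul K] [MeasurablePow K ℕ] {c : K → Γ}
    (hc : FM c) (u : K) (q : ℕ) : FM (Dq u c q) :=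
  FM_pre (FM_itc' hc u q) (measurable_id.pow_const q)

-- END g1

end g1

section main

variable {K : Type*} [CommGroup K] [TopologicalSpace K] [IsTopologicalGroup K] [CompactSpace K]
  [T2Space K] [SecondCountableTopology K] [MeasurableSpace K] [BorelSpace K]
  {u : K} {m : Measure K} [IsProbabilityMeasure m] [m.IsHaarMeasure]

variable {Z : Type*} [MeasurableSpace Z] [StandardBorelSpace Z] {M : Measure Z} {S : Z ≃ᵐ Z}
  {y : Z → K} {s l : Z → ℝ}

/-! ## row g2: the hypotheses -/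

-- BEGIN g2

omit [IsTopologicalGroup K] [CompactSpace K] [T2Space K] [SecondCountableTopology K]
  [TopologicalSpace K] [BorelSpace K] [m.IsHaarMeasure] [IsProbabilityMeasure m]
  [StandardBorelSpace Z] in
theorem Sys.of_DS (hD : DS u m M S y s l) : Sys u m M S y s l :=
  ⟨hD.inv, hD.ym, hD.sm, hD.lm, hD.yS, hD.sS, hD.l1, hD.law⟩

omit [IsTopologicalGroup K] [CompactSpace K] [T2Space K] [SecondCountableTopology K]
  [TopologicalSpace K] [BorelSpace K] [m.IsHaarMeasure] [IsProbabilityMeasure m]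
  [StandardBorelSpace Z] in
theorem exists_Dil (hD : DS u m M S y s l) {q : ℕ} (hq : q.Prime) : ∃ D, Dil M S y s l q D := by
  obtain ⟨D, h1, h2, h3⟩ := hD.dil q hq
  exact ⟨D, h1, fun z hz => (h2 z hz).1, fun z hz => (h2 z hz).2.1, fun z hz => (h2 z hz).2.2.1,
    fun z hz => (h2 z hz).2.2.2, h3⟩

/-- uses `S7.pow_inj`, `S7.Kq_open`, `S7.coset`, `S7.upow_mem`, `S7.map_pow` -/
theorem Pw.of_KD (hK : KD K u) {q : ℕ} (hq : 1 ≤ q) : Pw u m q where
  q0 := hq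
  inj := S7.pow_inj hK hq
  me := ((continuous_pow q).isClosedEmbedding (S7.pow_inj hK hq)).measurableEmbedding
  cov := by
    intro y
    obtain ⟨j, ⟨x, hx⟩, -⟩ := S7.coset hK hq y
    exact ⟨j, j.2, x, hx⟩
  mem := fun n => S7.upow_mem hK hq n
  pf := S7.map_pow hK hq

/-- uses `S7.inv_set` -/
theorem erg_of_KD (hK : KD K u) : Ergodic (fun x => u * x) m := by
  refine ⟨measurePreserving_mul_left m u, ⟨fun s hs h => ?_⟩⟩
  rw [Filter.eventuallyConst_set']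
  have h1 : ∀ᵐ y ∂m, (u * y ∈ s ↔ y ∈ s) := by
    refine Filter.Eventually.of_forall fun y => ?_
    constructor
    · intro hy
      rw [← h]
      exact hy
    · intro hy
      rw [← h] at hy
      exact hy
  rcases S7.inv_set hK hs h1 with h2 | h2
  · exact Or.inl (ae_eq_empty.2 h2)
  · refine Or.inr (ae_eq_univ.2 ?_)
    rw [prob_compl_eq_zero_iff hs]
    exact h2

omit [IsTopologicalGroup K] [CompactSpace K] [T2Space K] [SecondCountableTopology K]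
  [TopologicalSpace K] [BorelSpace K] [m.IsHaarMeasure] [IsProbabilityMeasure m] in
theorem Min_iff {Γ : Type*} [Group Γ] {c : K → Γ} : Mi u m c ↔ Min u m c := by
  have h1 : ∀ (A : K → Set Γ) (y : K), (A (u * y) = (fun g => c y * g) '' A y) ↔
      ∀ g, g ∈ A (u * y) ↔ (c y)⁻¹ * g ∈ A y := by
    intro A y
    rw [Set.image_mul_left, Set.ext_iff]
    rfl
  unfold Mi Min
  simp only [h1]

-- END g2

variable {E : Type*} [NormedAddCommGroup E] [InnerProductSpace ℂ E] [FiniteDimensional ℂ E]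

-- BEGIN g2b

omit [IsTopologicalGroup K] [CompactSpace K] [T2Space K] [SecondCountableTopology K]
  [TopologicalSpace K] [BorelSpace K] [m.IsHaarMeasure] [IsProbabilityMeasure m] in
theorem Disj_iff [CompleteSpace E] {g g' : K → (E ≃ₗᵢ[ℂ] E)} :
    S7.Disj u m g g' ↔ Disj u m (gU g) (gU g') := by
  have h1 : ∀ (N : K → E →L[ℂ] E) (y : K), (∀ v, N (u * y) (g y v) = g' y (N y v)) ↔
      N (u * y) * ((gU g y : UE E) : E →L[ℂ] E) = ((gU g' y : UE E) : E →L[ℂ] E) * N y := by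
    intro N y
    constructor
    · intro h
      exact ContinuousLinearMap.ext h
    · intro h v
      exact congrArg (fun A : E →L[ℂ] E => A v) h
  unfold S7.Disj Disj Twn BM
  simp only [h1, and_imp]

theorem Ir_iff [CompleteSpace E] {Γ : Type*} [Group Γ] (ρ : Γ →* (E ≃ₗᵢ[ℂ] E)) (ρ' : Γ →* UE E)
    (h : ∀ g, ρ' g = Unitary.linearIsometryEquiv.symm (ρ g)) : Ir ρ ↔ Irr ρ' := by
  have h1 : ∀ (A : E →L[ℂ] E) (g : Γ), (∀ v, A (ρ g v) = ρ g (A v)) ↔
      ((ρ' g : UE E) : E →L[ℂ] E) * A = A * ((ρ' g : UE E) : E →L[ℂ] E) := by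
    intro A g
    rw [h g]
    constructor
    · intro h
      exact ContinuousLinearMap.ext fun v => (h v).symm
    · intro h v
      exact (congrArg (fun A : E →L[ℂ] E => A v) h).symm
  have h2 : ∀ (A : E →L[ℂ] E) (t : ℂ), (∀ v, A v = t • v) ↔ A = t • (1 : E →L[ℂ] E) := by
    intro A t
    constructor
    · intro h
      exact ContinuousLinearMap.ext h
    · rintro rfl v
      rfl
  unfold Ir Irr
  simp only [h1, h2]

theorem volume_symmDiff_Ioc {α β α' β' : ℝ} (h : α ≤ β) (h' : α' ≤ β') :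
    volume (symmDiff (Set.Ioc α β) (Set.Ioc α' β')) ≤ ENNReal.ofReal (|α - α'| + |β - β'|) := by
  have h1 : symmDiff (Set.Ioc α β) (Set.Ioc α' β') ⊆
      Set.Ioc (min α α') (max α α') ∪ Set.Ioc (min β β') (max β β') := by
    intro x hx
    rcases Set.mem_symmDiff.1 hx with ⟨h2, h3⟩ | ⟨h2, h3⟩
    · by_cases h4 : α' < x
      · have h5 : β' < x := not_le.1 fun h6 => h3 ⟨h4, h6⟩
        exact Or.inr ⟨min_lt_iff.2 (Or.inr h5), le_max_iff.2 (Or.inl h2.2)⟩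
      · exact Or.inl ⟨min_lt_iff.2 (Or.inl h2.1), le_max_iff.2 (Or.inr (not_lt.1 h4))⟩
    · by_cases h4 : α < x
      · have h5 : β < x := not_le.1 fun h6 => h3 ⟨h4, h6⟩
        exact Or.inr ⟨min_lt_iff.2 (Or.inl h5), le_max_iff.2 (Or.inr h2.2)⟩
      · exact Or.inl ⟨min_lt_iff.2 (Or.inr h2.1), le_max_iff.2 (Or.inl (not_lt.1 h4))⟩
  refine (measure_mono h1).trans ((measure_union_le _ _).trans ?_)
  rw [Real.volume_Ioc, Real.volume_Ioc, max_sub_min_eq_abs, max_sub_min_eq_abs,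
    ← ENNReal.ofReal_add (abs_nonneg _) (abs_nonneg _), abs_sub_comm α' α, abs_sub_comm β' β]

-- END g2b

/-- `ρ` as a homomorphism to `UE E` -/
noncomputable def rU [CompleteSpace E] {Γ : Type*} [Group Γ] (ρ : Γ →* (E ≃ₗᵢ[ℂ] E)) : Γ →* UE E :=
  (Unitary.linearIsometryEquiv (𝕜 := ℂ) (H := E)).symm.toMonoidHom.comp ρ

variable [MeasurableSpace E] [BorelSpace E]

/-! ## row g3: `T_J` -/

-- BEGIN g3

/-- `Uop_pow_W`, `itc_gU`; both sides are classes of the same function -/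
theorem toH_av [CompleteSpace E] (hD : DS u m M S y s l) {g : K → (E ≃ₗᵢ[ℂ] E)} (hg : FM g)
    (α β : ℝ) {a : K → E} (ha : BMf a) (H : ℕ) : toH M (av u S y s l g α β a H) =
      ((H : ℂ)⁻¹) • ∑ n ∈ Finset.range H, (Uop M S y (gU g) ^ n) (W M y s l (Set.Ioc α β) a) := by
  classical
  have hS : Sys u m M S y s l := Sys.of_DS hD
  have hV : Measurable (gU g) := gU_meas hg
  have hJ : MeasurableSet (Set.Ioc α β) := measurableSet_Ioc
  have hJf : volume (Set.Ioc α β) ≠ ∞ := measure_Ioc_lt_top.ne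
  have haB : BM a := ⟨ha.meas, ha.bdd⟩
  set R : HE E M := ((H : ℂ)⁻¹) • ∑ n ∈ Finset.range H,
    (Uop M S y (gU g) ^ n) (W M y s l (Set.Ioc α β) a) with hR
  have hsum : ∀ N : ℕ, (((∑ n ∈ Finset.range N,
      (Uop M S y (gU g) ^ n) (W M y s l (Set.Ioc α β) a) : HE E M)) : Z → E) =ᵐ[M]
      fun z => ∑ n ∈ Finset.range N, Set.indicator (s ⁻¹' Set.Ioc α β) (fun z =>
        (l (S^[n] z) : ℂ) • ((itc u g n (y z))⁻¹ (a (u ^ n * y z)))) z := by
    intro N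
    induction N with
    | zero =>
      simp only [Finset.range_zero, Finset.sum_empty]
      exact Lp.coeFn_zero E 2 M
    | succ N ih =>
      rw [Finset.sum_range_succ]
      filter_upwards [Lp.coeFn_add (∑ n ∈ Finset.range N,
        (Uop M S y (gU g) ^ n) (W M y s l (Set.Ioc α β) a) : HE E M)
        ((Uop M S y (gU g) ^ N) (W M y s l (Set.Ioc α β) a)), ih,
        Uop_pow_W hS hV hJ hJf haB N] with z h1 h2 h3
      rw [h1, Pi.add_apply, h2, h3, Finset.sum_range_succ]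
      congr 1
      by_cases hz : z ∈ s ⁻¹' Set.Ioc α β
      · rw [Set.indicator_of_mem hz, Set.indicator_of_mem hz, itc_gU, gU_inv_apply]
      · rw [Set.indicator_of_notMem hz, Set.indicator_of_notMem hz]
  have hRc : (av u S y s l g α β a H) =ᵐ[M] (R : Z → E) := by
    filter_upwards [Lp.coeFn_smul ((H : ℂ)⁻¹) (∑ n ∈ Finset.range H,
        (Uop M S y (gU g) ^ n) (W M y s l (Set.Ioc α β) a) : HE E M), hsum H] with z h1 h2
    rw [hR, h1, Pi.smul_apply, h2, av]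
    by_cases hz : z ∈ s ⁻¹' Set.Ioc α β
    · rw [Set.indicator_of_mem hz]
      congr 1
      refine Finset.sum_congr rfl fun n _ => ?_
      rw [Set.indicator_of_mem hz]
    · rw [Set.indicator_of_notMem hz, Finset.sum_eq_zero, smul_zero]
      intro n _
      rw [Set.indicator_of_notMem hz]
  have hmem : MemLp (av u S y s l g α β a H) 2 M := (memLp_congr_ae hRc).2 (Lp.memLp R)
  rw [toH, dif_pos hmem]
  exact Lp.ext ((MemLp.coeFn_toLp hmem).trans hRc)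

/-- `PV_tendsto` -/
theorem TJ_eq [CompleteSpace E] (hD : DS u m M S y s l) {g : K → (E ≃ₗᵢ[ℂ] E)} (hg : FM g)
    (α β : ℝ) {a : K → E} (ha : BMf a) :
    TJ M u S y s l g α β a = TT M S y s l (gU g) (Set.Ioc α β) a := by
  have h1 : Tendsto (fun H : ℕ => toH M (av u S y s l g α β a H)) atTop
      (𝓝 (TT M S y s l (gU g) (Set.Ioc α β) a)) := by
    simp only [toH_av hD hg α β ha]
    exact PV_tendsto (Sys.of_DS hD) (gU_meas hg) (W M y s l (Set.Ioc α β) a)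
  exact h1.limUnder_eq

theorem TJ_lim (hK : KD K u) (hD : DS u m M S y s l) {g : K → (E ≃ₗᵢ[ℂ] E)} (hg : FM g) (α β : ℝ)
    {a : K → E} (ha : BMf a) :
    Tendsto (fun H : ℕ => toH M (av u S y s l g α β a H)) atTop (𝓝 (TJ M u S y s l g α β a)) := by
  have hE : CompleteSpace E := FiniteDimensional.complete ℂ E
  rw [TJ_eq hD hg α β ha]
  simp only [toH_av hD hg α β ha]
  exact PV_tendsto (Sys.of_DS hD) (gU_meas hg) (W M y s l (Set.Ioc α β) a)

theorem TJ_le_av (hK : KD K u) (hD : DS u m M S y s l) {g : K → (E ≃ₗᵢ[ℂ] E)} (hg : FM g) (α β : ℝ)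
    {a : K → E} (ha : BMf a) {H : ℕ} (hH : 1 ≤ H) :
    ‖TJ M u S y s l g α β a‖ ≤ ‖toH M (av u S y s l g α β a H)‖ := by
  have hE : CompleteSpace E := FiniteDimensional.complete ℂ E
  rw [TJ_eq hD hg α β ha, toH_av hD hg α β ha]
  exact PV_avg_le (Sys.of_DS hD) (gU_meas hg) (W M y s l (Set.Ioc α β) a) hH
-- END g3

/-! ## row g4 -/

-- BEGIN g4

theorem BJ_le (hK : KD K u) (hD : DS u m M S y s l) {g : K → (E ≃ₗᵢ[ℂ] E)} (hg : FM g) {α β : ℝ}
    (hαβ : α ≤ β) {a b : K → E} (ha : BMf a) (hb : BMf b) :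
    ‖BJ M u S y s l g α β a b‖ ≤ (β - α) * (∫ y, ‖a y‖ ∂m) * (∫ y, ‖b y‖ ∂m) := by
  have hE : CompleteSpace E := FiniteDimensional.complete ℂ E
  have hS := Sys.of_DS hD
  have he := erg_of_KD (m := m) hK
  have haB : BM a := ⟨ha.meas, ha.bdd⟩
  have hbB : BM b := ⟨hb.meas, hb.bdd⟩
  have h1 := TT_norm_le hS he (gU_meas hg) (measurableSet_Ioc (a := α) (b := β))
    (by rw [Real.volume_Ioc]; exact ENNReal.ofReal_ne_top) haB
  have h2 := TT_norm_le hS he (gU_meas hg) (measurableSet_Ioc (a := α) (b := β))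
    (by rw [Real.volume_Ioc]; exact ENNReal.ofReal_ne_top) hbB
  rw [Real.volume_Ioc, ENNReal.toReal_ofReal (sub_nonneg.2 hαβ)] at h1 h2
  rw [BJ, TJ_eq hD hg α β ha, TJ_eq hD hg α β hb]
  refine (norm_inner_le_norm _ _).trans ((mul_le_mul h1 h2 (norm_nonneg _) ?_).trans_eq ?_)
  · exact mul_nonneg (Real.sqrt_nonneg _) (integral_nonneg fun _ => norm_nonneg _)
  · have h3 := Real.mul_self_sqrt (sub_nonneg.2 hαβ)
    calc Real.sqrt (β - α) * (∫ y, ‖a y‖ ∂m) * (Real.sqrt (β - α) * ∫ y, ‖b y‖ ∂m)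
        = (Real.sqrt (β - α) * Real.sqrt (β - α)) * (∫ y, ‖a y‖ ∂m) * (∫ y, ‖b y‖ ∂m) := by ring
      _ = _ := by rw [h3]

/-- `TT_inner_sub_le`, `volume_symmDiff_Ioc` -/
theorem BJ_cont (hK : KD K u) (hD : DS u m M S y s l) {g : K → (E ≃ₗᵢ[ℂ] E)} (hg : FM g)
    {α β α' β' : ℝ} (hαβ : α ≤ β) (hαβ' : α' ≤ β') {a b : K → E} (ha : BMf a) (hb : BMf b) :
    ‖BJ M u S y s l g α β a b - BJ M u S y s l g α' β' a b‖ ≤
      (|α - α'| + |β - β'|) * (∫ y, ‖a y‖ ∂m) * (∫ y, ‖b y‖ ∂m) := by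
  have hE : CompleteSpace E := FiniteDimensional.complete ℂ E
  have hS := Sys.of_DS hD
  have he := erg_of_KD (m := m) hK
  have haB : BM a := ⟨ha.meas, ha.bdd⟩
  have hbB : BM b := ⟨hb.meas, hb.bdd⟩
  have h1 := TT_inner_sub_le hS he (gU_meas hg) (measurableSet_Ioc (a := α) (b := β))
    (by rw [Real.volume_Ioc]; exact ENNReal.ofReal_ne_top) (measurableSet_Ioc (a := α') (b := β'))
    (by rw [Real.volume_Ioc]; exact ENNReal.ofReal_ne_top) haB hbB
  have h2 : (volume (symmDiff (Set.Ioc α β) (Set.Ioc α' β'))).toReal ≤ |α - α'| + |β - β'| := by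
    refine ENNReal.toReal_le_of_le_ofReal (by positivity) (volume_symmDiff_Ioc hαβ hαβ')
  rw [BJ, BJ, TJ_eq hD hg α β ha, TJ_eq hD hg α β hb, TJ_eq hD hg α' β' ha, TJ_eq hD hg α' β' hb]
  refine h1.trans ?_
  refine mul_le_mul_of_nonneg_right (mul_le_mul_of_nonneg_right h2 ?_) ?_
  · exact integral_nonneg fun _ => norm_nonneg _
  · exact integral_nonneg fun _ => norm_nonneg _

theorem TJ_mono (hK : KD K u) (hD : DS u m M S y s l) {g : K → (E ≃ₗᵢ[ℂ] E)} (hg : FM g)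
    {α β α' β' : ℝ} (h1 : α' ≤ α) (h2 : β ≤ β') {a : K → E} (ha : BMf a) :
    ‖TJ M u S y s l g α β a‖ ≤ ‖TJ M u S y s l g α' β' a‖ := by
  have hE : CompleteSpace E := FiniteDimensional.complete ℂ E
  rw [TJ_eq hD hg α β ha, TJ_eq hD hg α' β' ha]
  exact TT_mono (Sys.of_DS hD) (gU_meas hg) measurableSet_Ioc
    (by rw [Real.volume_Ioc]; exact ENNReal.ofReal_ne_top) measurableSet_Ioc
    (Set.Ioc_subset_Ioc h1 h2) ⟨ha.meas, ha.bdd⟩

/-- `TT_gauge_inner` -/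
theorem BJ_intw (hK : KD K u) (hD : DS u m M S y s l) {g g' τ : K → (E ≃ₗᵢ[ℂ] E)} (hg : FM g)
    (hg' : FM g') (hτ : FM τ) (h : ∀ᵐ y ∂m, τ (u * y) * g y = g' y * τ y) (α β : ℝ)
    {a b : K → E} (ha : BMf a) (hb : BMf b) :
    BJ M u S y s l g' α β (fun y => τ y (a y)) (fun y => τ y (b y)) = BJ M u S y s l g α β a b := by
  have hE : CompleteSpace E := FiniteDimensional.complete ℂ E
  have hS := Sys.of_DS hD
  have haB : BM a := ⟨ha.meas, ha.bdd⟩
  have hbB : BM b := ⟨hb.meas, hb.bdd⟩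
  have hi : ∀ᵐ x ∂m, gU τ (u * x) * gU g x = gU g' x * gU τ x := by
    filter_upwards [h] with x hx
    rw [gU_mul, gU_mul, hx]
  have h1 := TT_gauge_inner hS (gU_meas hg) (gU_meas hg') (gU_meas hτ) hi
    (measurableSet_Ioc (a := α) (b := β)) (by rw [Real.volume_Ioc]; exact ENNReal.ofReal_ne_top)
    haB hbB
  simp only [gU_apply] at h1
  have hm : ∀ c : K → E, BMf c → BMf fun y => τ y (c y) := fun c hc => by
    have h2 := bm_ue (gU_meas hτ)
    refine ⟨?_, ?_⟩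
    · have h3 : Measurable fun y => ((gU τ y : UE E) : E →L[ℂ] E) (c y) :=
        (isBoundedBilinearMap_apply (𝕜 := ℂ) (E := E) (F := E)).continuous.measurable.comp
          (h2.1.prodMk hc.meas)
      simpa only [gU_apply] using h3
    · obtain ⟨C, hC⟩ := hc.bdd
      exact ⟨C, fun y => by rw [LinearIsometryEquiv.norm_map]; exact hC y⟩
  rw [BJ, BJ, TJ_eq hD hg' α β (hm a ha), TJ_eq hD hg' α β (hm b hb), TJ_eq hD hg α β ha,
    TJ_eq hD hg α β hb]
  exact h1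

-- END g4

/-! ## row g5: C8 -/

-- BEGIN g5

/-- `thmZ_of_TT` and `reduction` (for `permU r`), then `Ir_iff`, `Min_iff`, `TJ_eq` -/
theorem reduce (hK : KD K u) (hD : DS u m M S y s l) (r : ℕ) (σ : K → Equiv.Perm (Fin r))
    (hσ : FM σ) (a : K → Fin r → ℂ) (ha : Measurable a) (hb : ∃ C : ℝ, ∀ y i, ‖a y i‖ ≤ C) (α β : ℝ)
    (i : Fin r) (hne : ¬ Tendsto (fun H : ℕ => ∫ z in s ⁻¹' Set.Ioc α β,
      ‖(H : ℂ)⁻¹ * ∑ h ∈ Finset.range H,
        (l (S^[h] z) : ℂ) * a (u ^ h * y z) (itc u σ h (y z) i)‖ ^ 2 ∂M) atTop (𝓝 0)) :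
    ∃ (Γ : Subgroup (Equiv.Perm (Fin r))) (c : K → Γ) (d : ℕ)
      (ρ : Γ →* (EuclideanSpace ℂ (Fin d) ≃ₗᵢ[ℂ] EuclideanSpace ℂ (Fin d)))
      (b : K → EuclideanSpace ℂ (Fin d)),
      FM c ∧ Mi u m c ∧ Ir ρ ∧ BMf b ∧ TJ M u S y s l (fun y => ρ (c y)) α β b ≠ 0 := by
  classical
  let : MeasurableSpace (Equiv.Perm (Fin r)) := ⊤
  have : DiscreteMeasurableSpace (Equiv.Perm (Fin r)) := ⟨fun _ => trivial⟩
  have hJf : volume (Set.Ioc α β) ≠ ∞ := by
    rw [Real.volume_Ioc]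
    exact ENNReal.ofReal_ne_top
  have hσm : Measurable σ := FM_meas hσ fun x => x
  have ha' : BM fun x => (WithLp.toLp 2 (a x) : EuclideanSpace ℂ (Fin r)) := by
    refine ⟨(WithLp.measurable_toLp 2 (Fin r → ℂ)).comp ha, ?_⟩
    obtain ⟨C, hC⟩ := hb
    refine ⟨Real.sqrt (∑ _i : Fin r, C ^ 2), fun x => ?_⟩
    rw [EuclideanSpace.norm_eq]
    exact Real.sqrt_le_sqrt (Finset.sum_le_sum fun i _ => pow_le_pow_left₀ (norm_nonneg _) (hC x i) 2)
  have h0 : TT M S y s l (fun x => permU r (σ x)) (Set.Ioc α β)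
      (fun x => (WithLp.toLp 2 (a x) : EuclideanSpace ℂ (Fin r))) ≠ 0 := by
    intro h0
    exact hne (thmZ_of_TT (Sys.of_DS hD) hσm measurableSet_Ioc hJf ha' h0 i)
  obtain ⟨G', c', d, ρ', b, hc', hmin, hirr, hb', hT⟩ :=
    reduction (Sys.of_DS hD) (erg_of_KD hK) (permU r) hσm measurableSet_Ioc hJf ha' h0
  have hFM : FM c' := FM_of_meas hc'
  let ρ'' : G' →* (EuclideanSpace ℂ (Fin d) ≃ₗᵢ[ℂ] EuclideanSpace ℂ (Fin d)) :=
    (Unitary.linearIsometryEquiv (𝕜 := ℂ) (H := EuclideanSpace ℂ (Fin d))).toMonoidHom.comp ρ'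
  have hsy : ∀ g, ρ' g = Unitary.linearIsometryEquiv.symm (ρ'' g) := fun g =>
    (Unitary.linearIsometryEquiv.symm_apply_apply (ρ' g)).symm
  refine ⟨G', c', d, ρ'', b, hFM, Min_iff.2 hmin, (Ir_iff ρ'' ρ' hsy).2 hirr, ⟨hb'.1, hb'.2⟩, ?_⟩
  rw [TJ_eq hD (FM_comp hFM ρ'') α β ⟨hb'.1, hb'.2⟩]
  have hgU : gU (fun x => ρ'' (c' x)) = fun x => ρ' (c' x) := funext fun x => (hsy (c' x)).symm
  rw [hgU]
  exact hT

-- END g5

variable {Γ : Type*} [Group Γ] [Finite Γ]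

/-! ## row g6: C2, C4 -/

-- BEGIN g6
/-- `Min.dq` with the measurable space `⊤` on `Γ` -/
theorem Mi_Dq (hK : KD K u) {c : K → Γ} (hc : FM c) (hm : Mi u m c) {q : ℕ} (hq : 1 ≤ q) :
    Mi u m (Dq u c q) ∧ FM (Dq u c q) := by
  letI : MeasurableSpace Γ := ⊤
  haveI : DiscreteMeasurableSpace Γ := ⟨fun _ => trivial⟩
  have hmp : MeasurePreserving (fun y : K => u * y) m m := measurePreserving_mul_left m u
  have hcm : Measurable c := FM_meas hc (fun x => x)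
  exact ⟨Min_iff.2 (Min.dq hmp (Pw.of_KD hK hq) hcm (Min_iff.1 hm)), FM_Dq hc u q⟩

/-- `schur_unitary` -/
theorem schur (hK : KD K u) (ρ : Γ →* (E ≃ₗᵢ[ℂ] E)) (hρ : Ir ρ) {c c' : K → Γ} (hc : FM c)
    (hc' : FM c') (hm : Mi u m c) (hm' : Mi u m c')
    (h : ¬ S7.Disj u m (fun y => ρ (c y)) (fun y => ρ (c' y))) :
    ∃ τ : K → (E ≃ₗᵢ[ℂ] E), (Measurable fun y => ((τ y : E ≃L[ℂ] E) : E →L[ℂ] E)) ∧
      ∀ᵐ y ∂m, τ (u * y) * ρ (c y) = ρ (c' y) * τ y := by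
  haveI : CompleteSpace E := FiniteDimensional.complete ℂ E
  letI : MeasurableSpace Γ := ⊤
  haveI : DiscreteMeasurableSpace Γ := ⟨fun _ => trivial⟩
  have hI : Irr (rU ρ) := (Ir_iff ρ (rU ρ) (fun g => rfl)).1 hρ
  have hD : ¬ Disj u m (fun y => rU ρ (c y)) (fun y => rU ρ (c' y)) := fun hd => h (Disj_iff.2 hd)
  obtain ⟨τ, h1, h2⟩ := schur_unitary hI (Min_iff.1 hm) hD
  refine ⟨fun y => Unitary.linearIsometryEquiv (τ y), ?_, ?_⟩
  · exact measurable_subtype_coe.comp h1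
  · filter_upwards [h2] with y hy
    have h3 : Unitary.linearIsometryEquiv (rU ρ (c y)) = ρ (c y) :=
      Unitary.linearIsometryEquiv.apply_symm_apply _
    have h4 : Unitary.linearIsometryEquiv (rU ρ (c' y)) = ρ (c' y) :=
      Unitary.linearIsometryEquiv.apply_symm_apply _
    rw [← h3, ← h4, ← map_mul, ← map_mul, hy]
-- END g6

/-! ## row g7: C10 -/

-- BEGIN g7

theorem bessel_ (hK : KD K u) (hD : DS u m M S y s l) (ρ : Γ →* (E ≃ₗᵢ[ℂ] E)) (hρ : Ir ρ)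
    {ι κ : Type*} [Fintype ι] [Fintype κ] [DecidableEq κ] (c : ι → K → Γ) (hc : ∀ i, FM (c i))
    (hm : ∀ i, Mi u m (c i))
    (hd : ∀ i j, i ≠ j → S7.Disj u m (fun y => ρ (c i y)) (fun y => ρ (c j y)))
    (a : ι → κ → K → E) (ha : ∀ i j, BMf (a i j))
    (ho : ∀ i j j', ∫ y, inner ℂ (a i j y) (a i j' y) ∂m = if j = j' then 1 else 0)
    {α β : ℝ} (hαβ : α ≤ β) :
    ∑ i, ∑ j, (Module.finrank ℂ E : ℝ) * ‖TJ M u S y s l (fun y => ρ (c i y)) α β (a i j)‖ ^ 2 ≤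
      β - α := by
  have : CompleteSpace E := FiniteDimensional.complete ℂ E
  let _ : MeasurableSpace Γ := ⊤
  have : DiscreteMeasurableSpace Γ := ⟨fun _ => trivial⟩
  have hFM : ∀ i, FM (fun y => ρ (c i y)) := fun i => FM_comp (hc i) ρ
  have hTJ : ∀ i j, TJ M u S y s l (fun y => ρ (c i y)) α β (a i j) =
      TT M S y s l (fun x => rU ρ (c i x)) (Set.Ioc α β) (a i j) := fun i j =>
    TJ_eq hD (hFM i) α β (ha i j)
  have hb := bessel (Sys.of_DS hD) (erg_of_KD hK) ((Ir_iff ρ (rU ρ) fun _ => rfl).1 hρ) c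
    (fun i => FM_meas (hc i) id) (fun i => Min_iff.1 (hm i))
    (fun i j hij => Disj_iff.1 (hd i j hij)) (measurableSet_Ioc (a := α) (b := β))
    (by rw [Real.volume_Ioc]; exact ENNReal.ofReal_ne_top) a
    (fun i j => ⟨(ha i j).meas, (ha i j).bdd⟩) ho
  rw [Real.volume_Ioc, ENNReal.toReal_ofReal (sub_nonneg.2 hαβ)] at hb
  simp only [hTJ]
  exact hb

-- END g7

/-! ## row g8: C11 -/

/-- the characters are an orthonormal basis -/
theorem OB_ch (hK : KD K u) :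
    OB m (fun (χ : PontryaginDual K) (y : K) => ((χ y : Circle) : ℂ)) :=
  OB_ch' hK.sep

-- BEGIN g8

/-- `exists_phi` and `OB_ch` -/
theorem exists_ker (hK : KD K u) (hD : DS u m M S y s l) (ρ : Γ →* (E ≃ₗᵢ[ℂ] E)) (hρ : Ir ρ)
    {c : K → Γ} (hc : FM c) (hm : Mi u m c) {α β : ℝ} (hαβ : α ≤ β) :
    ∃ Φ : K → (E →L[ℂ] Lp E 2 M), IsKer m M u S y s l (fun y => ρ (c y)) α β Φ := by
  haveI : CompleteSpace E := FiniteDimensional.complete ℂ E
  letI : MeasurableSpace Γ := ⊤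
  haveI : DiscreteMeasurableSpace Γ := ⟨fun _ => trivial⟩
  have hI : Irr (rU ρ) := (Ir_iff ρ (rU ρ) (fun _ => rfl)).1 hρ
  have hcm : Measurable c := FM_meas hc id
  have hvol : volume (Set.Ioc α β) ≠ ∞ := by
    rw [Real.volume_Ioc]; exact ENNReal.ofReal_ne_top
  obtain ⟨Φ, h1, h2, h3⟩ := exists_phi (Sys.of_DS hD) (erg_of_KD hK) hI hcm (Min_iff.1 hm)
    (OB_ch hK) (measurableSet_Ioc (a := α) (b := β)) hvol
  refine ⟨Φ, h1, fun x => ?_, fun a ha => ?_⟩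
  · have h4 := h2 x
    rw [Real.volume_Ioc, ENNReal.toReal_ofReal (sub_nonneg.2 hαβ)] at h4
    exact h4
  · rw [TJ_eq hD (FM_comp hc ρ) α β ha]
    exact h3 a ⟨ha.meas, ha.bdd⟩

/-- `ker_bound` for the difference, `TT_sub_le`, `volume_symmDiff_Ioc`, `HE_second` -/
theorem ker_cont (hK : KD K u) (hD : DS u m M S y s l) {g : K → (E ≃ₗᵢ[ℂ] E)} (hg : FM g)
    {α β α' β' : ℝ} (hαβ : α ≤ β) (hαβ' : α' ≤ β') {Φ Φ' : K → (E →L[ℂ] Lp E 2 M)}
    (h : IsKer m M u S y s l g α β Φ) (h' : IsKer m M u S y s l g α' β' Φ') :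
    ∀ᵐ y ∂m, ‖Φ y - Φ' y‖ ≤ Real.sqrt (|α - α'| + |β - β'|) := by
  haveI : CompleteSpace E := FiniteDimensional.complete ℂ E
  haveI : SecondCountableTopology (Lp E 2 M) := HE_second (E := E) (Sys.of_DS hD)
  have hvol : volume (Set.Ioc α β) ≠ ∞ := by
    rw [Real.volume_Ioc]; exact ENNReal.ofReal_ne_top
  have hvol' : volume (Set.Ioc α' β') ≠ ∞ := by
    rw [Real.volume_Ioc]; exact ENNReal.ofReal_ne_top
  have hsm : AEStronglyMeasurable (fun x => Φ x - Φ' x) m :=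
    (h.sm.sub h'.sm).aestronglyMeasurable
  refine ker_bound (C' := Real.sqrt (β - α) + Real.sqrt (β' - α')) hsm
    (Eventually.of_forall fun x => ?_) (Real.sqrt_nonneg _) fun a ha => ?_
  · exact (norm_sub_le _ _).trans (add_le_add (h.bdd x) (h'.bdd x))
  · have ha' : BMf a := ⟨ha.1, ha.2⟩
    have i1 : Integrable (fun x => Φ x (a x)) m := ker_integrable h.sm.aestronglyMeasurable
      (Eventually.of_forall h.bdd) ha
    have i2 : Integrable (fun x => Φ' x (a x)) m := ker_integrable h'.sm.aestronglyMeasurable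
      (Eventually.of_forall h'.bdd) ha
    have e1 : ∫ x, (Φ x - Φ' x) (a x) ∂m =
        TT M S y s l (gU g) (Set.Ioc α β) a - TT M S y s l (gU g) (Set.Ioc α' β') a := by
      rw [← TJ_eq hD hg α β ha', ← TJ_eq hD hg α' β' ha', h.rep a ha', h'.rep a ha',
        ← integral_sub i1 i2]
      rfl
    refine (congrArg norm e1).trans_le ?_
    refine (TT_sub_le (Sys.of_DS hD) (erg_of_KD hK) (gU_meas hg) measurableSet_Ioc hvol
      measurableSet_Ioc hvol' ha).trans ?_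
    refine mul_le_mul_of_nonneg_right (Real.sqrt_le_sqrt ?_)
      (integral_nonneg fun x => norm_nonneg _)
    have h5 := ENNReal.toReal_mono ENNReal.ofReal_ne_top (volume_symmDiff_Ioc hαβ hαβ')
    rwa [ENNReal.toReal_ofReal (by positivity)] at h5

-- END g8

/-! ## row g9: C12, C13 -/

-- BEGIN g9

/-- `TT_dil`, `Dq_gU`; `sh (-log q) (Ioc α β) = Ioc (α - log q) (β - log q)` -/
theorem BJ_dil (hK : KD K u) (hD : DS u m M S y s l) {g : K → (E ≃ₗᵢ[ℂ] E)} (hg : FM g) {q : ℕ}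
    (hq : q.Prime) (α β : ℝ) {a b : K → E} (ha : BMf a) (hb : BMf b) :
    BJ M u S y s l (Dq u g q) (α - Real.log q) (β - Real.log q) a b =
      BJ M u S y s l g α β (Vq q a) (Vq q b) := by
  haveI : CompleteSpace E := FiniteDimensional.complete ℂ E
  have hp : Pw u m q := Pw.of_KD hK hq.one_le
  obtain ⟨D, hd⟩ := exists_Dil hD hq
  have hDg : FM (Dq u g q) := FM_Dq hg u q
  have hVa : BMf (Vq q a) := ⟨(BM_Vq hp (show BM a from ⟨ha.meas, ha.bdd⟩)).1,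
    (BM_Vq hp (show BM a from ⟨ha.meas, ha.bdd⟩)).2⟩
  have hVb : BMf (Vq q b) := ⟨(BM_Vq hp (show BM b from ⟨hb.meas, hb.bdd⟩)).1,
    (BM_Vq hp (show BM b from ⟨hb.meas, hb.bdd⟩)).2⟩
  have hsh : sh (-Real.log q) (Set.Ioc α β) = Set.Ioc (α - Real.log q) (β - Real.log q) := by
    ext x
    simp only [sh, Set.mem_preimage, Set.mem_Ioc]
    constructor
    · rintro ⟨h1, h2⟩
      exact ⟨by linarith, by linarith⟩
    · rintro ⟨h1, h2⟩
      exact ⟨by linarith, by linarith⟩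
  have hV' : Measurable (Dq u (gU g) q) := by
    rw [Dq_gU]
    exact gU_meas hDg
  have hfin : volume (Set.Ioc α β) ≠ ∞ := by
    rw [Real.volume_Ioc]
    exact ENNReal.ofReal_ne_top
  have key := TT_dil (Sys.of_DS hD) hd hp (gU_meas hg) hV' measurableSet_Ioc hfin
    (show BM a from ⟨ha.meas, ha.bdd⟩) (show BM b from ⟨hb.meas, hb.bdd⟩)
  unfold BJ
  rw [TJ_eq hD hDg _ _ ha, TJ_eq hD hDg _ _ hb, TJ_eq hD hg _ _ hVa, TJ_eq hD hg _ _ hVb, key,
    Dq_gU, hsh]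

/-- `int_Vq` -/
theorem ker_Vq (hK : KD K u) (hD : DS u m M S y s l) {g : K → (E ≃ₗᵢ[ℂ] E)} (hg : FM g) {α β : ℝ}
    {Φ : K → (E →L[ℂ] Lp E 2 M)} (h : IsKer m M u S y s l g α β Φ) {q : ℕ} (hq : 1 ≤ q)
    {a : K → E} (ha : BMf a) :
    TJ M u S y s l g α β (Vq q a) = ∫ y, Φ (y ^ q) (a y) ∂m := by
  haveI : CompleteSpace E := FiniteDimensional.complete ℂ E
  have hp : Pw u m q := Pw.of_KD hK hq
  have hVa : BMf (Vq q a) := ⟨(BM_Vq hp (show BM a from ⟨ha.meas, ha.bdd⟩)).1,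
    (BM_Vq hp (show BM a from ⟨ha.meas, ha.bdd⟩)).2⟩
  rw [h.rep _ hVa]
  exact int_Vq hp h.sm (show BM a from ⟨ha.meas, ha.bdd⟩)

/-- `gram` of `Ker.lean` -/
theorem gram_ {H : Type*} [NormedAddCommGroup H] [InnerProductSpace ℂ H] [CompleteSpace H]
    {Ψ₁ Ψ₂ : K → (E →L[ℂ] H)} (h1 : StronglyMeasurable Ψ₁) (h2 : StronglyMeasurable Ψ₂)
    (b1 : ∃ C : ℝ, ∀ y, ‖Ψ₁ y‖ ≤ C) (b2 : ∃ C : ℝ, ∀ y, ‖Ψ₂ y‖ ≤ C)
    (hG : ∀ a b : K → E, BMf a → BMf b → inner ℂ (∫ y, Ψ₁ y (a y) ∂m) (∫ y, Ψ₁ y (b y) ∂m) =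
      inner ℂ (∫ y, Ψ₂ y (a y) ∂m) (∫ y, Ψ₂ y (b y) ∂m)) :
    ∃ N : Set K, m N = 0 ∧ ∀ x ∉ N, ∀ x' ∉ N, ∀ e e' : E,
      inner ℂ (Ψ₁ x e) (Ψ₁ x' e') = inner ℂ (Ψ₂ x e) (Ψ₂ x' e') := by
  obtain ⟨C1, hC1⟩ := b1
  obtain ⟨C2, hC2⟩ := b2
  obtain ⟨N, hN, hx⟩ := gram (m := m) h1.aestronglyMeasurable h2.aestronglyMeasurable
    (C := max C1 C2) (Filter.Eventually.of_forall fun x => (hC1 x).trans (le_max_left _ _))
    (Filter.Eventually.of_forall fun x => (hC2 x).trans (le_max_right _ _))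
    (fun a b ha hb => hG a b ⟨ha.1, ha.2⟩ ⟨hb.1, hb.2⟩)
  refine ⟨Nᶜ, ?_, ?_⟩
  · rw [← mem_ae_iff]
    exact hN
  · intro x hx1 x' hx2 e e'
    exact hx x (Set.notMem_compl_iff.mp hx1) x' (Set.notMem_compl_iff.mp hx2) e e'

-- END g9

end main

end Pool.Agent.S7C
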