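import Pool.Agent.S7C.Ops

/-!
# S7 (MP_13664e_an), block C: cocycles with values in a finite group (C1 - C4; helper69)
-/

set_option autoImplicit false

namespace Pool.Agent.S7C

open MeasureTheory Filter Topology ENNReal
open Pool.Agent.S7 (itc Dq Kq rt Vq)

section coc

variable {K G : Type*} [Group K] [Group G] {u : K} {c : K → G}

/-! ## row a1 -/

-- BEGIN a1

theorem coc_add (h k : ℕ) (y : K) : itc u c (h + k) y = itc u c h (u ^ k * y) * itc u c k y := by
  induction h with
  | zero => simp [itc]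
  | succ h ih =>
    rw [show h + 1 + k = (h + k) + 1 by omega]
    simp only [itc]
    rw [ih, pow_add, mul_assoc (u ^ h) (u ^ k) y, mul_assoc]

theorem coc_one (y : K) : itc u c 1 y = c y := by
  simp [itc]

/-- `c_h (u y) c y = c_(h+1) y` -/
theorem coc_succ' (h : ℕ) (y : K) : itc u c (h + 1) y = itc u c h (u * y) * c y := by
  rw [coc_add, coc_one, pow_one]

theorem coc_hom {G' : Type*} [Group G'] (ρ : G →* G') (h : ℕ) (y : K) :
    itc u (fun x => ρ (c x)) h y = ρ (itc u c h y) := by
  induction h with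
  | zero => simp [itc]
  | succ h ih => simp only [itc]; rw [ih, map_mul]

theorem coc_measurable [MeasurableSpace K] [MeasurableMul K] [MeasurableSpace G] [MeasurableMul₂ G]
    (hc : Measurable c) (h : ℕ) : Measurable (itc u c h) := by
  induction h with
  | zero => exact measurable_const
  | succ h ih => exact (hc.comp (measurable_const_mul (u ^ h))).mul ih

-- END a1

end coc

section comm

variable {K G : Type*} [CommGroup K] [Group G] {u : K} {c : K → G}

/-! ## row a2 -/

-- BEGIN a2

/-- `(u^h y)^q = u^(q h) y^q` and `coc_add` -/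
theorem coc_Dq (q h : ℕ) (y : K) : itc u (Dq u c q) h y = itc u c (q * h) (y ^ q) := by
  induction h with
  | zero => rfl
  | succ h ih =>
    change Dq u c q (u ^ h * y) * itc u (Dq u c q) h y = _
    rw [ih, Nat.mul_succ, add_comm (q * h) q, coc_add, pow_mul', ← mul_pow]
    rfl

theorem Dq_hom {G' : Type*} [Group G'] (ρ : G →* G') (q : ℕ) (y : K) :
    Dq u (fun x => ρ (c x)) q y = ρ (Dq u c q y) := by
  unfold Dq
  exact coc_hom ρ q (y ^ q)

theorem Dq_measurable [MeasurableSpace K] [MeasurableMul K] [MeasurablePow K ℕ] [MeasurableSpace G]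
    [MeasurableMul₂ G] (hc : Measurable c) (q : ℕ) : Measurable (Dq u c q) := by
  unfold Dq
  exact (coc_measurable hc q).comp (measurable_id.pow_const q)
-- END a2

end comm

/-! ## the power map -/

/-- What is needed of the `q`-power map (block K, for `q` prime): it is injective, its image has index
`q` with coset representatives `u ^ j`, and (PF). -/
structure Pw {K : Type*} [CommGroup K] [MeasurableSpace K] (u : K) (m : Measure K) (q : ℕ) : Prop where
  q0 : 0 < q
  inj : Function.Injective fun y : K => y ^ q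
  me : MeasurableEmbedding fun y : K => y ^ q
  cov : ∀ y : K, ∃ j < q, ∃ x : K, y = u ^ j * x ^ q
  mem : ∀ n : ℕ, (∃ x : K, x ^ q = u ^ n) ↔ q ∣ n
  pf : m.map (fun y : K => y ^ q) = (q : ℝ≥0∞) • m.restrict (Kq K q)

section ergodic

variable {K : Type*} [CommGroup K] [MeasurableSpace K] {u : K} {m : Measure K}
  [IsProbabilityMeasure m]

/-! ## row a3 -/

-- BEGIN a3

theorem rt_pow {q : ℕ} {y : K} (h : ∃ x : K, x ^ q = y) : rt q y ^ q = y := by
  rw [rt, dif_pos h]
  exact h.choose_spec

theorem Pw.rt_pow' {q : ℕ} (h : Pw u m q) (x : K) : rt q (x ^ q) = x :=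
  h.inj (rt_pow ⟨x, rfl⟩)

/-- `rt q` is measurable: on the measurable set `range (· ^ q)` it is the inverse of a measurable
embedding (`MeasurableEmbedding.invFun` / `MeasurableEquiv`), outside it is constant -/
theorem Pw.rt_measurable {q : ℕ} (h : Pw u m q) : Measurable (rt q : K → K) := by
  have h1 : (rt q : K → K) = Function.extend (fun y : K => y ^ q) id (fun _ => 1) := by
    funext y
    rw [rt, Function.extend]
    rfl
  rw [h1]
  exact h.me.measurable_extend measurable_id measurable_const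

/-- a null set has a null preimage: `m {x | x ^ q ∈ N} = q m (N ∩ range) = 0` -/
theorem Pw.null {q : ℕ} (h : Pw u m q) {p : K → Prop} (hp : ∀ᵐ y ∂m, p y) : ∀ᵐ x ∂m, p (x ^ q) := by
  rw [← h.me.ae_map_iff, h.pf]
  exact Measure.ae_smul_measure (ae_restrict_of_ae hp) _

/-- conversely, a property of `x ^ q` for almost all `x` holds for almost all `y` in the image -/
theorem Pw.null' {q : ℕ} (h : Pw u m q) {p : K → Prop} (hp : ∀ᵐ x ∂m, p (x ^ q)) :
    ∀ᵐ y ∂m, (∃ x : K, x ^ q = y) → p y := by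
  have hq : (q : ℝ≥0∞) ≠ 0 := by
    have := h.q0
    simpa using this.ne'
  rw [← h.me.ae_map_iff, h.pf] at hp
  have h2 : ∀ᵐ y ∂(m.restrict (Kq K q)), p y := by
    rwa [Measure.ae_ennreal_smul_measure_eq hq] at hp
  have h3 := (ae_restrict_iff' (μ := m) (s := Kq K q) (p := p) h.me.measurableSet_range).1 h2
  filter_upwards [h3] with y hy hx
  exact hy hx

-- END a3

variable {G : Type*} [Group G] [Finite G] [MeasurableSpace G] [DiscreteMeasurableSpace G]

/-! ## row a4: C2 -/

-- BEGIN a4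

omit [IsProbabilityMeasure m] in
private theorem a4_uniq {q : ℕ} (h : Pw u m q) {j j' : ℕ} (hj : j < q) (hj' : j' < q) {x x' : K}
    (he : u ^ j * x ^ q = u ^ j' * x' ^ q) : j = j' ∧ x = x' := by
  have key : ∀ {a b : ℕ} {y z : K}, a ≤ b → b < q → u ^ a * y ^ q = u ^ b * z ^ q → a = b := by
    intro a b y z hab hb h1
    have h2 : (y * z⁻¹) ^ q = u ^ (b - a) := by
      have h3 : u ^ b = u ^ (b - a) * u ^ a := by
        rw [← pow_add]
        congr 1
        omega
      rw [h3] at h1
      rw [mul_pow, inv_pow]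
      have h4 : y ^ q = u ^ (b - a) * z ^ q := by
        have h5 : u ^ a * y ^ q = u ^ a * (u ^ (b - a) * z ^ q) := by
          rw [h1, mul_comm (u ^ (b - a)) (u ^ a), mul_assoc]
        exact mul_left_cancel h5
      rw [h4, mul_inv_cancel_right]
    have h3 : q ∣ b - a := (h.mem (b - a)).mp ⟨_, h2⟩
    have h4 : b - a = 0 := Nat.eq_zero_of_dvd_of_lt h3 (by omega)
    omega
  have hjj : j = j' := by
    rcases le_total j j' with h1 | h1
    · exact key h1 hj' he
    · exact (key h1 hj he.symm).symm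
  refine ⟨hjj, ?_⟩
  rw [hjj] at he
  exact h.inj (mul_left_cancel he)

/-- the family on `K` induced by `A` -/
private def a4_ext (u : K) (c : K → G) (q : ℕ) (A : K → Set G) (y : K) : Set G :=
  {g | ∃ j < q, ∃ x : K, y = u ^ j * x ^ q ∧ (itc u c j (x ^ q))⁻¹ * g ∈ A x}

omit [IsProbabilityMeasure m] [Finite G] [MeasurableSpace G] [DiscreteMeasurableSpace G] in
private theorem a4_mem {q : ℕ} (h : Pw u m q) {c : K → G} {A : K → Set G} {j : ℕ} (hj : j < q)
    (x : K) (g : G) :
    g ∈ a4_ext u c q A (u ^ j * x ^ q) ↔ (itc u c j (x ^ q))⁻¹ * g ∈ A x := by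
  constructor
  · rintro ⟨j', hj', x', he, hg⟩
    obtain ⟨h1, h2⟩ := a4_uniq h hj hj' he
    subst h1
    subst h2
    exact hg
  · intro hg
    exact ⟨j, hj, x, rfl, hg⟩

/-- C2. Proof. Given `A` for `D_q c`, every `y` is `u ^ j x ^ q` with a unique `j < q` (`Pw.cov`,
`Pw.mem`) and a unique `x` (`Pw.inj`). Put `A' (u ^ j x ^ q) := coc c j (x ^ q) • A x` (left translate),
i.e. `g ∈ A' y ↔ (coc c j (x ^ q))⁻¹ * g ∈ A x` with `x = rt q (u ^ (-j) y)`. Measurable. For `j + 1 < q`:
`A' (u y) = c(y) A' y` by the definition of `coc`; for `j = q - 1`: `u y = (u x) ^ q`, `A' (u y) = A (u x) =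
(D_q c x) A x = c (u^(q-1) x^q) coc c (q-1) (x^q) A x = c(y) A' y` for almost all `x` (`Pw.null'`,
rotation invariance of `m`). So `A' = ∅` or `univ` a.e., and `A x = A' (x ^ q)` (`Pw.null`). -/
theorem Min.dq [MeasurableMul K] (hmp : MeasurePreserving (fun y => u * y) m m) {q : ℕ}
    (h : Pw u m q) {c : K → G} (hc : Measurable c) (hM : Min u m c) : Min u m (Dq u c q) := by
  intro A hA hE
  have hq := h.q0
  have hpow : Measurable fun x : K => x ^ q := h.me.measurable
  -- measurability
  have hA' : ∀ g, MeasurableSet {y | g ∈ a4_ext u c q A y} := by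
    intro g
    have h1 : {y | g ∈ a4_ext u c q A y} = ⋃ j ∈ Set.Iio q,
        (fun x : K => u ^ j * x ^ q) '' {x | (itc u c j (x ^ q))⁻¹ * g ∈ A x} := by
      ext y
      simp only [Set.mem_ofPred_eq, Set.mem_iUnion, Set.mem_image, Set.mem_Iio, exists_prop]
      constructor
      · rintro ⟨j, hj, x, he, hg⟩
        exact ⟨j, hj, x, hg, he.symm⟩
      · rintro ⟨j, hj, x, hg, he⟩
        exact ⟨j, hj, x, he.symm, hg⟩
    rw [h1]
    refine MeasurableSet.biUnion (Set.to_countable _) fun j _ => ?_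
    have hemb : MeasurableEmbedding fun x : K => u ^ j * x ^ q :=
      (MeasurableEquiv.mulLeft (u ^ j)).measurableEmbedding.comp h.me
    refine hemb.measurableSet_image.mpr ?_
    have h2 : {x | (itc u c j (x ^ q))⁻¹ * g ∈ A x} = ⋃ γ : G,
        ({x | itc u c j (x ^ q) = γ} ∩ {x | γ⁻¹ * g ∈ A x}) := by
      ext x
      simp only [Set.mem_ofPred_eq, Set.mem_iUnion, Set.mem_inter_iff]
      constructor
      · intro hx
        exact ⟨_, rfl, hx⟩
      · rintro ⟨γ, h3, h4⟩
        rw [h3]
        exact h4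
    rw [h2]
    refine MeasurableSet.iUnion fun γ => ?_
    refine MeasurableSet.inter ?_ (hA _)
    have h3 : Measurable fun x : K => itc u c j (x ^ q) := (coc_measurable hc j).comp hpow
    exact h3 (MeasurableSet.singleton γ)
  -- equivariance
  have hP : ∀ᵐ z ∂m, (∃ x : K, x ^ q = z) →
      ∀ g, g ∈ A (u * rt q z) ↔ (Dq u c q (rt q z))⁻¹ * g ∈ A (rt q z) := by
    refine h.null' (p := fun z => ∀ g, g ∈ A (u * rt q z) ↔
      (Dq u c q (rt q z))⁻¹ * g ∈ A (rt q z)) ?_
    filter_upwards [hE] with x hx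
    rw [h.rt_pow' x]
    exact hx
  have hmp2 : MeasurePreserving (fun y : K => u ^ (q - 1) * y) m m := by
    have h1 := hmp.iterate (q - 1)
    have h2 : ∀ n : ℕ, (fun y : K => u * y)^[n] = fun y => u ^ n * y := by
      intro n
      induction n with
      | zero =>
        funext y
        simp
      | succ n ih =>
        funext y
        rw [Function.iterate_succ_apply', ih, pow_succ', mul_assoc]
    rwa [h2] at h1
  have hmp3 : MeasurePreserving (MeasurableEquiv.mulLeft (u ^ (q - 1))) m m := hmp2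
  have hmp4 := (MeasurePreserving.symm _ hmp3).quasiMeasurePreserving.ae hP
  have hE' : ∀ᵐ y ∂m, ∀ g, g ∈ a4_ext u c q A (u * y) ↔ (c y)⁻¹ * g ∈ a4_ext u c q A y := by
    filter_upwards [hmp4] with y hy g
    obtain ⟨j, hj, x, he⟩ := h.cov y
    by_cases hj1 : j + 1 < q
    · have h1 : u * y = u ^ (j + 1) * x ^ q := by
        rw [he, pow_succ', mul_assoc]
      rw [h1, he, a4_mem h hj1, a4_mem h hj]
      have h2 : itc u c (j + 1) (x ^ q) = c (u ^ j * x ^ q) * itc u c j (x ^ q) := rfl
      rw [h2, mul_inv_rev, mul_assoc]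
    · have hjq : j = q - 1 := by omega
      have h0 : u * y = u ^ 0 * (u * x) ^ q := by
        rw [he, pow_zero, one_mul, mul_pow, ← mul_assoc, ← pow_succ', hjq, Nat.sub_add_cancel hq]
      have hz : (MeasurableEquiv.mulLeft (u ^ (q - 1))).symm y = x ^ q := by
        have h3 : y = MeasurableEquiv.mulLeft (u ^ (q - 1)) (x ^ q) := by
          rw [he, hjq]
          rfl
        rw [h3, MeasurableEquiv.symm_apply_apply]
      have h3 := hy ⟨x, hz.symm⟩ g
      rw [hz, h.rt_pow' x] at h3
      rw [h0, a4_mem h hq, he, a4_mem h hj]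
      have h4 : itc u c 0 ((u * x) ^ q) = 1 := rfl
      rw [h4, inv_one, one_mul, h3]
      have h5 : Dq u c q x = c (u ^ j * x ^ q) * itc u c j (x ^ q) := by
        unfold Dq
        have h6 : q = j + 1 := by omega
        have h7 : ∀ n, n = j + 1 → ∀ w : K, itc u c n w = c (u ^ j * w) * itc u c j w := by
          intro n hn w
          subst hn
          rfl
        exact h7 q h6 (x ^ q)
      rw [h5, mul_inv_rev, mul_assoc]
  have hback : ∀ x, a4_ext u c q A (x ^ q) = A x := by
    intro x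
    ext g
    have h1 := a4_mem (c := c) (A := A) h hq x g
    have h2 : itc u c 0 (x ^ q) = 1 := rfl
    rw [pow_zero, one_mul, h2, inv_one, one_mul] at h1
    exact h1
  rcases hM (a4_ext u c q A) hA' hE' with h1 | h1
  · left
    filter_upwards [h.null h1] with x hx
    rw [← hback x]
    exact hx
  · right
    filter_upwards [h.null h1] with x hx
    rw [← hback x]
    exact hx

-- END a4

/-! ## row a5: C3 -/

-- BEGIN a5

/-- C3. Proof. For measurable `B ⊆ V` put `A y := {g | g⁻¹ • F y ∈ B}`; it is equivariant, so for almost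
all `y` all `g⁻¹ • F y` are in `B`, or for almost all `y` none is. `B` from a countable separating family
(`HasCountableSeparatingOn`, e.g. `MeasureTheory.ae_eq_const...`, `Filter.exists_mem_singleton_mem_of_...`):
first (with `g = 1`) `F` is a.e. constant `v` (zero-one law for all measurable `B`), then, with
`B = {v}`-complements or the separating family, `g⁻¹ • v = v`. -/
theorem Min.eq_const {c : K → G} (hM : Min u m c) {V : Type*} [MeasurableSpace V]
    [MeasurableSpace.CountablySeparated V] [Nonempty V] [MulAction G V]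
    (hact : ∀ g : G, Measurable fun v : V => g • v) (F : K → V) (hF : Measurable F)
    (hE : ∀ᵐ y ∂m, F (u * y) = c y • F y) :
    ∃ v : V, (∀ᵐ y ∂m, F y = v) ∧ ∀ g : G, g • v = v := by
  have h01 : ∀ B : Set V, MeasurableSet B → (∀ᵐ y ∂m, ∀ g : G, g⁻¹ • F y ∉ B) ∨
      (∀ᵐ y ∂m, ∀ g : G, g⁻¹ • F y ∈ B) := by
    intro B hB
    have hEq : ∀ᵐ y ∂m, ∀ g : G, g ∈ (fun y => {g : G | g⁻¹ • F y ∈ B}) (u * y) ↔
        (c y)⁻¹ * g ∈ (fun y => {g : G | g⁻¹ • F y ∈ B}) y := by
      filter_upwards [hE] with y hy g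
      change g⁻¹ • F (u * y) ∈ B ↔ ((c y)⁻¹ * g)⁻¹ • F y ∈ B
      rw [hy, smul_smul, mul_inv_rev, inv_inv]
    rcases hM (fun y => {g : G | g⁻¹ • F y ∈ B}) (fun g => ((hact g⁻¹).comp hF) hB) hEq with h | h
    · left
      filter_upwards [h] with y hy g hg
      have h1 : g ∈ {g : G | g⁻¹ • F y ∈ B} := hg
      rw [hy] at h1
      exact h1
    · right
      filter_upwards [h] with y hy g
      have h1 : g ∈ {g : G | g⁻¹ • F y ∈ B} := by
        rw [hy]
        exact Set.mem_univ g
      exact h1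
  have hne : (ae m).NeBot := inferInstance
  obtain ⟨v, hv⟩ := Filter.exists_eventuallyEq_const_of_forall_separating (l := ae m) (f := F)
    MeasurableSet (fun B hB => by
      rcases h01 B hB with h | h
      · right
        filter_upwards [h] with y hy
        have := hy 1
        rwa [inv_one, one_smul] at this
      · left
        filter_upwards [h] with y hy
        have := hy 1
        rwa [inv_one, one_smul] at this)
  have hv' : ∀ᵐ y ∂m, F y = v := hv
  refine ⟨v, hv', fun g => ?_⟩
  have : MeasurableSingletonClass V :=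
    MeasurableSpace.measurableSingletonClass_of_countablySeparated
  have h1 : g⁻¹ • v = v := by
    rcases h01 {v} (measurableSet_singleton v) with h | h
    · obtain ⟨y, hy, hy'⟩ := (h.and hv').exists
      have h2 := hy 1
      rw [inv_one, one_smul, hy'] at h2
      exact absurd rfl h2
    · obtain ⟨y, hy, hy'⟩ := (h.and hv').exists
      have h2 := hy g
      rwa [hy'] at h2
  calc g • v = g • g⁻¹ • v := by rw [h1]
    _ = v := smul_inv_smul g v

-- END a5

/-! ## rows a6, a7: C1 (Mackey) -/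

-- BEGIN a6

omit [IsProbabilityMeasure m] in
private theorem a6_meas {A : K → Set G} (hA : ∀ g, MeasurableSet {y | g ∈ A y}) (B : Set G) :
    MeasurableSet {y | A y = B} := by
  have h1 : {y | A y = B} = ⋂ g : G, {y | g ∈ A y ↔ g ∈ B} := by
    ext y
    simp only [Set.mem_ofPred_eq, Set.mem_iInter, Set.ext_iff]
  rw [h1]
  refine MeasurableSet.iInter fun g => ?_
  by_cases hg : g ∈ B
  · simpa [hg] using hA g
  · have : {y | g ∈ A y ↔ g ∈ B} = {y | g ∈ A y}ᶜ := by
      ext y
      simp [hg]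
    rw [this]
    exact (hA g).compl

/-- C1, one step. Proof. `A` an equivariant family which is neither a.e. empty nor a.e. everything. The
orbit `{g • A y | g}` is invariant under the rotation; finitely many orbits, so by ergodicity a.e. constant:
there is `A0` with `A y = t y • A0` a.e. Choose `t y` as a measurable function of `A y` (finitely many
values of `A y`). `A0 ≠ ∅, univ`, since otherwise `A y` would be that set for almost all `y`. Then
`t (u y) A0 = A (u y) = c y A y = c y t y A0`. -/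
theorem mackey_step (herg : Ergodic (fun y => u * y) m) {c : K → G} (hc : Measurable c)
    (h : ¬ Min u m c) : ∃ (t : K → G) (A0 : Set G), Measurable t ∧ A0.Nonempty ∧ A0 ≠ Set.univ ∧
      ∀ᵐ y ∂m, ∀ g : G, g ∈ A0 ↔ ((t (u * y))⁻¹ * c y * t y)⁻¹ * g ∈ A0 := by
  classical
  have h' : ∃ A : K → Set G, (∀ g, MeasurableSet {y | g ∈ A y}) ∧
      (∀ᵐ y ∂m, ∀ g, g ∈ A (u * y) ↔ (c y)⁻¹ * g ∈ A y) ∧
      ¬ (∀ᵐ y ∂m, A y = ∅) ∧ ¬ (∀ᵐ y ∂m, A y = Set.univ) := by
    by_contra hcon
    refine h fun A hA hE => ?_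
    by_contra h2
    rw [not_or] at h2
    exact hcon ⟨A, hA, hE, h2.1, h2.2⟩
  obtain ⟨A, hA, hE, hn1, hn2⟩ := h'
  -- translate
  set tr : G → Set G → Set G := fun g B => {x | g⁻¹ * x ∈ B} with htr
  set E : Set G → Set K := fun B => {y | ∃ g : G, A y = tr g B} with hEd
  have hEm : ∀ B, MeasurableSet (E B) := by
    intro B
    have : E B = ⋃ g : G, {y | A y = tr g B} := by
      ext y; simp [hEd]
    rw [this]
    exact MeasurableSet.iUnion fun g => a6_meas hA _
  have hinv : ∀ B, (fun y => u * y) ⁻¹' (E B) =ᵐ[m] E B := by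
    intro B
    filter_upwards [hE] with y hy
    refine propext ⟨?_, ?_⟩
    · rintro ⟨g, hg⟩
      refine ⟨(c y)⁻¹ * g, ?_⟩
      ext x
      have h1 := hy (c y * x)
      rw [inv_mul_cancel_left] at h1
      rw [← h1]
      simp only at hg
      rw [hg]
      simp [htr, mul_assoc]
    · rintro ⟨g, hg⟩
      refine ⟨c y * g, ?_⟩
      ext x
      simp only
      rw [hy x, hg]
      simp [htr, mul_assoc]
  have h01 : ∀ B, (∀ᵐ y ∂m, y ∈ E B) ∨ ∀ᵐ y ∂m, y ∉ E B := fun B =>
    herg.quasiErgodic.ae_mem_or_ae_notMem₀ (hEm B).nullMeasurableSet (hinv B)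
  have hex : ∃ B, ∀ᵐ y ∂m, y ∈ E B := by
    by_contra hne
    have h2 : ∀ B, ∀ᵐ y ∂m, y ∉ E B := fun B => (h01 B).resolve_left fun hB => hne ⟨B, hB⟩
    have h3 : ∀ᵐ y ∂m, ∀ B, y ∉ E B := ae_all_iff.2 h2
    obtain ⟨y, hy⟩ := h3.exists
    exact hy (A y) ⟨1, by ext x; simp [htr]⟩
  obtain ⟨A0, hA0⟩ := hex
  set T : Set G → G := fun B => if hB : ∃ g, B = tr g A0 then hB.choose else 1 with hT
  have hTs : ∀ B, (∃ g, B = tr g A0) → B = tr (T B) A0 := by
    intro B hB
    have h4 := hB.choose_spec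
    rw [hT]
    simp only [dif_pos hB]
    exact h4
  have hquasi : ∀ᵐ y ∂m, u * y ∈ E A0 := herg.toMeasurePreserving.quasiMeasurePreserving.ae hA0
  refine ⟨fun y => T (A y), A0, ?_, ?_, ?_, ?_⟩
  · refine measurable_to_countable' fun g => ?_
    have : (fun y => T (A y)) ⁻¹' {g} = ⋃ B ∈ {B : Set G | T B = g}, {y | A y = B} := by
      ext y
      simp
    rw [this]
    exact MeasurableSet.biUnion (Set.to_countable _) fun B _ => a6_meas hA B
  · rw [Set.nonempty_iff_ne_empty]
    rintro rfl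
    refine hn1 ?_
    filter_upwards [hA0] with y hy
    obtain ⟨g, hg⟩ := hy
    rw [hg]
    ext x
    simp [htr]
  · rintro rfl
    refine hn2 ?_
    filter_upwards [hA0] with y hy
    obtain ⟨g, hg⟩ := hy
    rw [hg]
    ext x
    simp [htr]
  · filter_upwards [hA0, hquasi, hE] with y h1 h2 h3 g
    have e1 := hTs _ h1
    have e2 := hTs _ h2
    have h4 := h3 (T (A (u * y)) * g)
    have k1 : T (A (u * y)) * g ∈ A (u * y) ↔ g ∈ A0 := by
      have := Set.ext_iff.1 e2 (T (A (u * y)) * g)
      simp only [htr, Set.mem_ofPred_eq, inv_mul_cancel_left] at this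
      exact this
    have k2 : (c y)⁻¹ * (T (A (u * y)) * g) ∈ A y ↔
        (T (A y))⁻¹ * ((c y)⁻¹ * (T (A (u * y)) * g)) ∈ A0 := by
      have := Set.ext_iff.1 e1 ((c y)⁻¹ * (T (A (u * y)) * g))
      simp only [htr, Set.mem_ofPred_eq] at this
      exact this
    rw [← k1, h4, k2]
    simp only [mul_inv_rev, inv_inv, mul_assoc]

-- END a6

-- BEGIN a7

omit [IsProbabilityMeasure m] in
private theorem a7_iso {H H' : Type*} [Group H] [Group H'] (e : H ≃* H') {c : K → H}
    (h : Min u m c) : Min u m (fun y => e (c y)) := by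
  intro A hA hE
  have h0 := h (fun y => e ⁻¹' (A y)) (fun g => hA (e g)) (by
    filter_upwards [hE] with y hy g
    have h1 := hy (e g)
    rw [← map_inv, ← map_mul] at h1
    exact h1)
  rcases h0 with h1 | h1
  · left
    filter_upwards [h1] with y hy
    refine Set.eq_empty_of_forall_notMem fun g hg => ?_
    have h2 : e.symm g ∈ e ⁻¹' (A y) := by
      rw [Set.mem_preimage, MulEquiv.apply_symm_apply]
      exact hg
    rw [hy] at h2
    exact h2
  · right
    filter_upwards [h1] with y hy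
    refine Set.eq_univ_of_forall fun g => ?_
    have h2 : e.symm g ∈ e ⁻¹' (A y) := by
      rw [hy]
      exact Set.mem_univ _
    rw [Set.mem_preimage, MulEquiv.apply_symm_apply] at h2
    exact h2

/-- the stabiliser of a set -/
private def a7_stab {H : Type*} [Group H] (A0 : Set H) : Subgroup H where
  carrier := {g | ∀ x, x ∈ A0 ↔ g⁻¹ * x ∈ A0}
  one_mem' := fun x => by simp
  mul_mem' := fun {g h} hg hh x => by
    rw [hg x, hh (g⁻¹ * x), mul_inv_rev, mul_assoc]
  inv_mem' := fun {g} hg x => by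
    rw [inv_inv, hg (g * x), inv_mul_cancel_left]

private theorem a7_aux.{v} (herg : Ergodic (fun y => u * y) m) (n : ℕ) :
    ∀ (H : Type v) [Group H] [Finite H] [MeasurableSpace H] [DiscreteMeasurableSpace H]
      (c : K → H), Nat.card H ≤ n → Measurable c →
      ∃ (G' : Subgroup H) (c' : K → G') (τ : K → H), Measurable c' ∧ Measurable τ ∧ Min u m c' ∧
        ∀ᵐ y ∂m, τ (u * y) * c y * (τ y)⁻¹ = (c' y : H) := by
  induction n with
  | zero =>
    intro H _ _ _ _ c hn hc
    exact absurd hn (not_le.2 Nat.card_pos)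
  | succ n ih =>
    intro H _ _ _ _ c hn hc
    by_cases hM : Min u m c
    · refine ⟨⊤, fun y => Subgroup.topEquiv.symm (c y), fun _ => 1, ?_, measurable_const,
        a7_iso Subgroup.topEquiv.symm hM, ae_of_all _ fun y => ?_⟩
      · exact Measurable.of_discrete.comp hc
      · rw [one_mul, inv_one, mul_one]
        rfl
    · obtain ⟨t, A0, ht, hne, hnu, hst⟩ := mackey_step herg hc hM
      classical
      set G1 : Subgroup H := a7_stab A0 with hG1
      have hG1m : ∀ g : H, g ∈ G1 ↔ ∀ x, x ∈ A0 ↔ g⁻¹ * x ∈ A0 := fun g => Iff.rfl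
      have htop : G1 ≠ ⊤ := by
        intro h1
        obtain ⟨a, ha⟩ := hne
        refine hnu (Set.eq_univ_of_forall fun b => ?_)
        have h2 : a * b⁻¹ ∈ G1 := by
          rw [h1]
          exact Subgroup.mem_top _
        have h3 := ((hG1m _).1 h2 a).1 ha
        rwa [mul_inv_rev, inv_inv, inv_mul_cancel_right] at h3
      have hcard : Nat.card G1 < Nat.card H := by
        refine lt_of_le_of_ne (Subgroup.card_le_card_group G1) fun h1 => htop ?_
        exact Subgroup.eq_top_of_card_eq G1 h1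
      set f : K → H := fun y => (t (u * y))⁻¹ * c y * t y with hf
      have hfm : Measurable f := by
        have h1 : Measurable fun y : K => (t (u * y), c y, t y) :=
          (ht.comp herg.toMeasurePreserving.measurable).prodMk (hc.prodMk ht)
        exact (Measurable.of_discrete (f := fun p : H × H × H => p.1⁻¹ * p.2.1 * p.2.2)).comp h1
      set φ : H → G1 := fun g => if h : g ∈ G1 then ⟨g, h⟩ else 1 with hφ
      have hc1 : Measurable fun y => φ (f y) := (Measurable.of_discrete (f := φ)).comp hfm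
      obtain ⟨G2, c2, τ1, hc2, hτ1, hM2, hE2⟩ := ih G1 (fun y => φ (f y)) (by omega) hc1
      refine ⟨G2.map G1.subtype,
        fun y => G2.equivMapOfInjective G1.subtype G1.subtype_injective (c2 y),
        fun y => (τ1 y : H) * (t y)⁻¹, Measurable.of_discrete.comp hc2, ?_, a7_iso _ hM2, ?_⟩
      · exact (Measurable.of_discrete (f := fun p : G1 × H => (p.1 : H) * p.2⁻¹)).comp
          (hτ1.prodMk ht)
      · filter_upwards [hst, hE2] with y hy1 hy2
        have h1 : f y ∈ G1 := (hG1m _).2 hy1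
        have h2 : ((φ (f y) : G1) : H) = f y := by
          rw [hφ]
          simp only
          rw [dif_pos h1]
        have h3 := congrArg (Subtype.val : G1 → H) hy2
        rw [Subgroup.coe_mul, Subgroup.coe_mul, Subgroup.coe_inv, h2] at h3
        rw [Subgroup.coe_equivMapOfInjective_apply]
        refine Eq.trans ?_ h3
        rw [hf]
        simp only
        group

/-- C1. Proof. Induction on the cardinality of `G` (for all `G` in this universe). If `Min c`: `G' = ⊤`,
`τ = 1`. Otherwise `mackey_step`: the stabiliser `G1` of `A0` (all `g` with `∀ x, x ∈ A0 ↔ g⁻¹ * x ∈ A0`) is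
a proper subgroup (it is not `⊤`, as `G` is transitive on itself), `c1 y := t (u y)⁻¹ c y t y ∈ G1` a.e.
(put `1` elsewhere), and the induction hypothesis for `G1` gives `G2 ≤ G1`, `c'`, `τ1`; `G' := G2` mapped to
`G`, `τ := τ1 t⁻¹`. -/
theorem mackey (herg : Ergodic (fun y => u * y) m) {c : K → G} (hc : Measurable c) :
    ∃ (G' : Subgroup G) (c' : K → G') (τ : K → G), Measurable c' ∧ Measurable τ ∧ Min u m c' ∧
      ∀ᵐ y ∂m, τ (u * y) * c y * (τ y)⁻¹ = (c' y : G) :=
  a7_aux herg _ G c le_rfl hc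

-- END a7

variable {E : Type*} [NormedAddCommGroup E] [InnerProductSpace ℂ E] [FiniteDimensional ℂ E]
  [CompleteSpace E]

/-! ## row a8: C4 (i) -/

-- BEGIN a8

/-- C4 (i). Proof. `Min.eq_const` for the action of `G` on `E →L[ℂ] E` by conjugation (a `MulAction` given
by a local instance or by `MulAction.compHom`; `N (u y) = ρ(c y) N y ρ(c y)⁻¹`): `N = v` a.e., `v`
commutes with all `ρ g`, so it is a scalar by `Irr`. -/
theorem schur_scalar {ρ : G →* UE E} (hI : Irr ρ) {c : K → G} (hM : Min u m c)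
    {N : K → E →L[ℂ] E} (hN : Measurable N)
    (hT : Twn u m (fun y => ρ (c y)) (fun y => ρ (c y)) N) :
    ∃ t : ℂ, ∀ᵐ y ∂m, N y = t • (1 : E →L[ℂ] E) := by
  let act : MulAction G (E →L[ℂ] E) :=
    { smul := fun g A => ((ρ g : UE E) : E →L[ℂ] E) * A * (((ρ g)⁻¹ : UE E) : E →L[ℂ] E)
      one_smul := fun A => by
        show ((ρ 1 : UE E) : E →L[ℂ] E) * A * (((ρ 1)⁻¹ : UE E) : E →L[ℂ] E) = A
        rw [map_one, inv_one, OneMemClass.coe_one, one_mul, mul_one]
      mul_smul := fun g h A => by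
        show ((ρ (g * h) : UE E) : E →L[ℂ] E) * A * (((ρ (g * h))⁻¹ : UE E) : E →L[ℂ] E)
          = ((ρ g : UE E) : E →L[ℂ] E) * (((ρ h : UE E) : E →L[ℂ] E) * A
            * (((ρ h)⁻¹ : UE E) : E →L[ℂ] E)) * (((ρ g)⁻¹ : UE E) : E →L[ℂ] E)
        rw [map_mul, mul_inv_rev, Submonoid.coe_mul, Submonoid.coe_mul]
        simp only [mul_assoc] }
  have hsm : ∀ (g : G) (A : E →L[ℂ] E),
      act.smul g A = ((ρ g : UE E) : E →L[ℂ] E) * A * (((ρ g)⁻¹ : UE E) : E →L[ℂ] E) :=
    fun g A => rfl
  have hmeas : ∀ g : G, Measurable fun A : E →L[ℂ] E => act.smul g A := by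
    intro g
    have h1 : Continuous fun A : E →L[ℂ] E =>
        ((ρ g : UE E) : E →L[ℂ] E) * A * (((ρ g)⁻¹ : UE E) : E →L[ℂ] E) := by fun_prop
    exact h1.measurable
  have hE : ∀ᵐ y ∂m, N (u * y) = act.smul (c y) (N y) := by
    filter_upwards [hT] with y hy
    rw [hsm, ← hy, mul_assoc, ← Submonoid.coe_mul, mul_inv_cancel, OneMemClass.coe_one, mul_one]
  obtain ⟨v, hv, hfix⟩ := Min.eq_const (V := E →L[ℂ] E) hM hmeas N hN hE
  obtain ⟨t, ht⟩ := hI v (fun g => by
    have h1 : act.smul g v = v := hfix g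
    rw [hsm] at h1
    have h2 : ((ρ g : UE E) : E →L[ℂ] E) * v * (((ρ g)⁻¹ : UE E) : E →L[ℂ] E)
        * ((ρ g : UE E) : E →L[ℂ] E) = v * ((ρ g : UE E) : E →L[ℂ] E) := by rw [h1]
    rw [mul_assoc, ← Submonoid.coe_mul, inv_mul_cancel, OneMemClass.coe_one, mul_one] at h2
    exact h2)
  refine ⟨t, ?_⟩
  filter_upwards [hv] with y hy
  rw [hy, ht]

-- END a8

/-! ## row a9: C4 (ii) -/

-- BEGIN a9

omit [CompleteSpace E] in
private theorem a9_comm {A B : E →L[ℂ] E} (h : A * B = 1) : B * A = 1 := by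
  have h1 : (A : E →ₗ[ℂ] E) * (B : E →ₗ[ℂ] E) = 1 := by
    ext x
    exact congrArg (fun C : E →L[ℂ] E => C x) h
  have h2 := mul_eq_one_comm.1 h1
  ext x
  exact congrArg (fun C : E →ₗ[ℂ] E => C x) h2

omit [FiniteDimensional ℂ E] in
private theorem a9_key {V V' N N' : E →L[ℂ] E} (hV : V * star V = 1) (hV' : star V' * V' = 1)
    (h : N' * V = V' * N) : (star N' * N') * V = V * (star N * N) := by
  have h1 : star V * star N' = star N * star V' := by
    rw [← star_mul, ← star_mul, h]
  have h2 : star N' = V * (star N * star V') := by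
    rw [← h1, ← mul_assoc, hV, one_mul]
  calc (star N' * N') * V = star N' * (N' * V) := mul_assoc _ _ _
    _ = V * (star N * star V') * (V' * N) := by rw [h, h2]
    _ = V * (star N * ((star V' * V') * N)) := by simp only [mul_assoc]
    _ = V * (star N * N) := by rw [hV', one_mul]

omit [FiniteDimensional ℂ E] in
private theorem a9_pos {N : E →L[ℂ] E} (hN : N ≠ 0) {t : ℂ}
    (h : star N * N = t • (1 : E →L[ℂ] E)) : ∃ r : ℝ, 0 < r ∧ t = (r : ℂ) := by
  obtain ⟨x, hx⟩ : ∃ x, N x ≠ 0 := by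
    by_contra hcon
    push Not at hcon
    exact hN (ContinuousLinearMap.ext fun x => hcon x)
  have hx0 : x ≠ 0 := by
    rintro rfl
    exact hx (map_zero N)
  have hxn : 0 < ‖x‖ := norm_pos_iff.2 hx0
  have hNn : 0 < ‖N x‖ := norm_pos_iff.2 hx
  have h1 : inner ℂ x ((star N * N) x) = ((‖N x‖ : ℂ)) ^ 2 := by
    have h2 : (star N * N) x = ContinuousLinearMap.adjoint N (N x) := rfl
    rw [h2, ContinuousLinearMap.adjoint_inner_right, inner_self_eq_norm_sq_to_K]
    rfl
  have h3 : inner ℂ x ((star N * N) x) = t * ((‖x‖ : ℂ)) ^ 2 := by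
    rw [h]
    have h4 : (t • (1 : E →L[ℂ] E)) x = t • x := rfl
    rw [h4, inner_smul_right, inner_self_eq_norm_sq_to_K]
    rfl
  refine ⟨‖N x‖ ^ 2 / ‖x‖ ^ 2, by positivity, ?_⟩
  have h5 : t * ((‖x‖ : ℂ)) ^ 2 = ((‖N x‖ : ℂ)) ^ 2 := h3.symm.trans h1
  have h6 : ((‖x‖ : ℂ)) ^ 2 ≠ 0 := by
    have : ((‖x‖ : ℝ) : ℂ) ≠ 0 := by exact_mod_cast hxn.ne'
    exact pow_ne_zero 2 this
  push_cast
  rw [eq_div_iff h6]
  exact h5

/-- C4 (ii). Proof. `N* N` intertwines `ρ c` with itself, so is a scalar `t`, `t ≥ 0`; `t = 0` would give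
`N = 0` a.e. So `t > 0`, `(N y / √t)* (N y / √t) = 1` a.e.; in finite dimension it is unitary. Change it to
`1` on a null set (measurable: `N* N = t` is a closed condition; `UE E` has the subtype
measurable structure, `Measurable.subtype_mk`). -/
theorem schur_unitary {ρ : G →* UE E} (hI : Irr ρ) {c c' : K → G} (hM : Min u m c)
    (hD : ¬ Disj u m (fun y => ρ (c y)) (fun y => ρ (c' y))) :
    ∃ τ : K → UE E, Measurable τ ∧ ∀ᵐ y ∂m, τ (u * y) * ρ (c y) = ρ (c' y) * τ y := by
  classical
  simp only [Disj, not_forall] at hD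
  obtain ⟨N, hN, hT, hne⟩ := hD
  have hcont : Continuous fun A : E →L[ℂ] E => star A * A := continuous_star.mul continuous_id
  have hmeas : Measurable fun y => star (N y) * N y := hcont.measurable.comp hN.1
  have hV1 : ∀ g : G, ((ρ g : UE E) : E →L[ℂ] E) * star ((ρ g : UE E) : E →L[ℂ] E) = 1 :=
    fun g => Unitary.coe_mul_star_self (ρ g)
  have hV2 : ∀ g : G, star ((ρ g : UE E) : E →L[ℂ] E) * ((ρ g : UE E) : E →L[ℂ] E) = 1 :=
    fun g => Unitary.coe_star_mul_self (ρ g)
  have hTT : Twn u m (fun y => ρ (c y)) (fun y => ρ (c y)) (fun y => star (N y) * N y) := by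
    unfold Twn at hT ⊢
    filter_upwards [hT] with y hy
    exact a9_key (hV1 _) (hV2 _) hy
  obtain ⟨t, ht⟩ := schur_scalar hI hM hmeas hTT
  obtain ⟨y₀, hy₀, hy₁⟩ := ((Filter.not_eventually.1 hne).and_eventually ht).exists
  obtain ⟨r, hr, rfl⟩ := a9_pos hy₀ hy₁
  have hs : 0 < Real.sqrt r := Real.sqrt_pos.2 hr
  have hs2 : Real.sqrt r * Real.sqrt r = r := Real.mul_self_sqrt hr.le
  set a : ℂ := (((Real.sqrt r)⁻¹ : ℝ) : ℂ) with ha
  have haa : star a * a * (r : ℂ) = 1 := by
    have h1 : star a = a := by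
      rw [ha]
      exact Complex.conj_ofReal _
    have h2 : (Real.sqrt r)⁻¹ * (Real.sqrt r)⁻¹ * r = 1 := by
      have h3 : (Real.sqrt r)⁻¹ * (Real.sqrt r)⁻¹ * (Real.sqrt r * Real.sqrt r) = 1 := by
        field_simp
      rwa [hs2] at h3
    rw [h1, ha]
    exact_mod_cast h2
  let B : Set K := {y | star (N y) * N y = (r : ℂ) • (1 : E →L[ℂ] E)}
  have hB : MeasurableSet B := hmeas (measurableSet_singleton ((r : ℂ) • (1 : E →L[ℂ] E)))
  let f : K → E →L[ℂ] E := fun y => if y ∈ B then a • N y else 1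
  have hf : Measurable f := Measurable.ite hB (hN.1.const_smul a) measurable_const
  have hfB : ∀ y ∈ B, f y = a • N y := fun y hy => if_pos hy
  have hU : ∀ y, f y ∈ unitary (E →L[ℂ] E) := by
    intro y
    by_cases hy : y ∈ B
    · rw [hfB y hy, Unitary.mem_iff]
      have h1 : star (a • N y) * (a • N y) = 1 := by
        rw [star_smul, smul_mul_smul_comm, (show star (N y) * N y = (r : ℂ) • (1 : E →L[ℂ] E) from hy),
          smul_smul, haa, one_smul]
      exact ⟨h1, a9_comm h1⟩
    · have h1 : f y = 1 := if_neg hy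
      rw [h1]
      exact one_mem _
  refine ⟨fun y => ⟨f y, hU y⟩, hf.subtype_mk, ?_⟩
  unfold Twn at hT
  filter_upwards [hT, ht] with y hy hy2
  have hyB : y ∈ B := hy2
  have hyB' : u * y ∈ B := by
    have h1 := a9_key (hV1 (c y)) (hV2 (c' y)) hy
    rw [hy2] at h1
    have h2 : star (N (u * y)) * N (u * y) * ((ρ (c y) : UE E) : E →L[ℂ] E) *
        star ((ρ (c y) : UE E) : E →L[ℂ] E) = (r : ℂ) • (1 : E →L[ℂ] E) := by
      rw [h1, mul_smul_comm, mul_one, smul_mul_assoc, hV1]
    rw [mul_assoc, hV1, mul_one] at h2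
    exact h2
  apply Subtype.ext
  change f (u * y) * ((ρ (c y) : UE E) : E →L[ℂ] E) = ((ρ (c' y) : UE E) : E →L[ℂ] E) * f y
  rw [hfB y hyB, hfB _ hyB', smul_mul_assoc, mul_smul_comm, hy]

-- END a9

end ergodic

end Pool.Agent.S7C
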