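import Pool.Agent.S7C.Coc

/-!
# S7 (MP_13664e_an), block C: the operators on `L²(M; E)` (C5 - C7; helper69)
-/

set_option autoImplicit false

namespace Pool.Agent.S7C

open MeasureTheory Filter Topology ENNReal
open Pool.Agent.S7 (itc Dq Kq rt Vq)
open scoped InnerProductSpace

/-! ## row b1: the skew system -/

section b1

variable {K Z : Type*} [Group K] [MeasurableSpace K] [MeasurableSpace Z] {u : K} {m : Measure K}
  [IsProbabilityMeasure m] {M : Measure Z} {S : Z → Z} {y : Z → K} {s l : Z → ℝ}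

-- BEGIN b1

/-- from `Sys.law`: `∫⁻ g(y) 1_J(s) dM` is the integral of `g(x) 1_J(t)` over `m × volume` -/
theorem Sys.lint (h : Sys u m M S y s l) {J : Set ℝ} (hJ : MeasurableSet J) {g : K → ℝ≥0∞}
    (hg : Measurable g) : ∫⁻ z in s ⁻¹' J, g (y z) ∂M = volume J * ∫⁻ x, g x ∂m := by
  have hI : Measurable (J.indicator (1 : ℝ → ℝ≥0∞)) := measurable_one.indicator hJ
  have h1 : ∫⁻ z in s ⁻¹' J, g (y z) ∂M = ∫⁻ z, g (y z) * J.indicator 1 (s z) ∂M := by
    rw [← lintegral_indicator (h.ms hJ)]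
    refine lintegral_congr fun z => ?_
    by_cases hz : s z ∈ J
    · simp [Set.indicator, hz]
    · simp [Set.indicator, hz]
  have h2 : ∫⁻ z, g (y z) * J.indicator 1 (s z) ∂M =
      ∫⁻ p, g p.1 * J.indicator 1 p.2 ∂(M.map fun z => (y z, s z)) := by
    rw [lintegral_map]
    · exact (hg.comp measurable_fst).mul (hI.comp measurable_snd)
    · exact h.my.prodMk h.ms
  rw [h1, h2, h.law, lintegral_prod_mul hg.aemeasurable hI.aemeasurable,
    lintegral_indicator_one hJ, mul_comm]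

theorem Sys.meas (h : Sys u m M S y s l) {J : Set ℝ} (hJ : MeasurableSet J) :
    M (s ⁻¹' J) = volume J := by
  have h1 := h.lint hJ (g := fun _ => 1) measurable_const
  simpa using h1

private theorem b1_map (h : Sys u m M S y s l) {J : Set ℝ} (hJ : MeasurableSet J) :
    (M.restrict (s ⁻¹' J)).map y = volume J • m := by
  ext A hA
  have h1 := h.lint hJ (g := A.indicator 1) (measurable_one.indicator hA)
  rw [lintegral_indicator_one hA] at h1
  rw [Measure.map_apply h.my hA, Measure.smul_apply, smul_eq_mul, ← h1]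
  rw [← lintegral_indicator_one (h.my hA)]
  rfl

/-- `s ⁻¹' [-n, n]` has finite measure -/
theorem Sys.sigmaFinite (h : Sys u m M S y s l) : SigmaFinite M := by
  have hm : AEMeasurable (fun z => (y z, s z)) M := (h.my.prodMk h.ms).aemeasurable
  refine SigmaFinite.of_map M hm ?_
  rw [h.law]
  infer_instance

theorem Sys.null (h : Sys u m M S y s l) {p : K → Prop} (hp : ∀ᵐ x ∂m, p x) :
    ∀ᵐ z ∂M, p (y z) := by
  have q1 : Measure.QuasiMeasurePreserving (fun z => (y z, s z)) M (m.prod volume) :=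
    ⟨h.my.prodMk h.ms, h.law.le.absolutelyContinuous⟩
  exact (Measure.quasiMeasurePreserving_fst.comp q1).ae hp

theorem Sys.mp_restrict (h : Sys u m M S y s l) {J : Set ℝ} (hJ : MeasurableSet J) :
    MeasurePreserving S (M.restrict (s ⁻¹' J)) (M.restrict (s ⁻¹' J)) := by
  have h1 := h.mp.restrict_preimage (h.ms hJ)
  have h2 : S ⁻¹' (s ⁻¹' J) = s ⁻¹' J := by
    ext z
    simp only [Set.mem_preimage]
    rw [h.sS]
  rwa [h2] at h1

theorem Sys.y_iter (h : Sys u m M S y s l) (n : ℕ) (z : Z) : y (S^[n] z) = u ^ n * y z := by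
  induction n with
  | zero => simp
  | succ n ih => rw [Function.iterate_succ_apply', h.yS, ih, pow_succ', mul_assoc]

theorem Sys.s_iter (h : Sys u m M S y s l) (n : ℕ) (z : Z) : s (S^[n] z) = s z := by
  induction n with
  | zero => simp
  | succ n ih => rw [Function.iterate_succ_apply', h.sS, ih]

theorem Sys.abs_l (h : Sys u m M S y s l) (z : Z) : |l z| = 1 := by
  rcases h.lpm z with hz | hz <;> simp [hz]

/-- the rotation preserves `m` (push `law` forward, `J = [0, 1]`) -/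
theorem Sys.mpK [MeasurableMul K] (h : Sys u m M S y s l) : MeasurePreserving (fun x => u * x) m m := by
  have hJ : MeasurableSet (Set.Icc (0 : ℝ) 1) := measurableSet_Icc
  have h1 := b1_map h hJ
  have hv : volume (Set.Icc (0 : ℝ) 1) = 1 := by simp
  rw [hv, one_smul] at h1
  refine ⟨measurable_const_mul u, ?_⟩
  conv_lhs => rw [← h1]
  rw [Measure.map_map (measurable_const_mul u) h.my]
  have h2 : (fun x => u * x) ∘ y = y ∘ S := by
    funext z
    exact (h.yS z).symm
  rw [h2, ← Measure.map_map h.my h.mp.measurable, (h.mp_restrict hJ).map_eq, h1]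

theorem Sys.integral (h : Sys u m M S y s l) {J : Set ℝ} (hJ : MeasurableSet J)
    (hJf : volume J ≠ ∞) {W' : Type*} [NormedAddCommGroup W'] [NormedSpace ℝ W'] [CompleteSpace W']
    {g : K → W'} (hg : AEStronglyMeasurable g m) :
    ∫ z in s ⁻¹' J, g (y z) ∂M = (volume J).toReal • ∫ x, g x ∂m := by
  rw [← integral_smul_measure, ← b1_map h hJ, integral_map h.my.aemeasurable]
  rw [b1_map h hJ]
  exact hg.smul_measure _

-- END b1

end b1

/-! ## row b2: multiplication operators -/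

section b2

variable {Z : Type*} [MeasurableSpace Z] {M : Measure Z}
  {E F G : Type*} [NormedAddCommGroup E] [InnerProductSpace ℂ E]
  [NormedAddCommGroup F] [InnerProductSpace ℂ F] [NormedAddCommGroup G] [InnerProductSpace ℂ G]
  [FiniteDimensional ℂ E] [FiniteDimensional ℂ F] [FiniteDimensional ℂ G]

-- BEGIN b2

theorem mulL_norm_le {A : Z → E →L[ℂ] F} (hA : BM A) {C : ℝ} (h : ∀ z, ‖A z‖ ≤ C) (f : HE E M) :
    ‖mulL A f‖ ≤ C * ‖f‖ := by
  refine Lp.norm_le_mul_norm_of_ae_le_mul ?_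
  filter_upwards [mulL_coe hA f] with z hz
  rw [hz]
  exact (A z).le_of_opNorm_le (h z) (f z)

theorem mulL_isom {A : Z → E →L[ℂ] F} (hA : BM A) (h : ∀ z x, ‖A z x‖ = ‖x‖) (f : HE E M) :
    ‖mulL A f‖ = ‖f‖ := by
  rw [Lp.norm_def, Lp.norm_def]
  congr 1
  refine eLpNorm_congr_norm_ae ?_
  filter_upwards [mulL_coe hA f] with z hz
  rw [hz]
  exact h z (f z)

theorem BM.comp {A : Z → E →L[ℂ] F} (hA : BM A) {B : Z → F →L[ℂ] G} (hB : BM B) :
    BM fun z => (B z) ∘L (A z) := by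
  obtain ⟨h1, C, hC⟩ := hA
  obtain ⟨h2, D, hD⟩ := hB
  refine ⟨?_, D * C, fun z => ?_⟩
  · have h3 : StronglyMeasurable fun z => (B z, A z) :=
      h2.stronglyMeasurable.prodMk h1.stronglyMeasurable
    exact ((isBoundedBilinearMap_comp (𝕜 := ℂ) (E := E) (F := F)
      (G := G)).continuous.comp_stronglyMeasurable h3).measurable
  · refine (ContinuousLinearMap.opNorm_comp_le _ _).trans ?_
    exact mul_le_mul (hD z) (hC z) (norm_nonneg _) ((norm_nonneg _).trans (hD z))

theorem mulL_comp {A : Z → E →L[ℂ] F} (hA : BM A) {B : Z → F →L[ℂ] G} (hB : BM B) (f : HE E M) :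
    mulL B (mulL A f) = mulL (fun z => (B z) ∘L (A z)) f := by
  refine Lp.ext ?_
  filter_upwards [mulL_coe hB (mulL A f), mulL_coe hA f, mulL_coe (BM.comp hA hB) f]
    with z h1 h2 h3
  rw [h1, h2, h3]
  rfl

theorem mulL_congr {A A' : Z → E →L[ℂ] F} (hA : BM A) (hA' : BM A') (h : A =ᵐ[M] A')
    (f : HE E M) : mulL A f = mulL A' f := by
  refine Lp.ext ?_
  filter_upwards [mulL_coe hA f, mulL_coe hA' f, h] with z h1 h2 h3
  rw [h1, h2, h3]

theorem BM.adjoint [CompleteSpace E] [CompleteSpace F] {A : Z → E →L[ℂ] F} (hA : BM A) :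
    BM fun z => ContinuousLinearMap.adjoint (A z) := by
  obtain ⟨h1, C, hC⟩ := hA
  refine ⟨?_, C, fun z => ?_⟩
  · exact (ContinuousLinearMap.adjoint (𝕜 := ℂ) (E := E) (F := F)).continuous.measurable.comp h1
  · rw [LinearIsometryEquiv.norm_map]
    exact hC z

theorem mulL_inner [CompleteSpace E] [CompleteSpace F] {A : Z → E →L[ℂ] F} (hA : BM A)
    (f : HE E M) (g : HE F M) :
    ⟪mulL A f, g⟫_ℂ = ⟪f, mulL (fun z => ContinuousLinearMap.adjoint (A z)) g⟫_ℂ := by
  rw [L2.inner_def, L2.inner_def]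
  refine integral_congr_ae ?_
  filter_upwards [mulL_coe hA f, mulL_coe (BM.adjoint hA) g] with z h1 h2
  rw [h1, h2, ContinuousLinearMap.adjoint_inner_right]

-- END b2

end b2

section ops

variable {K Z : Type*} [Group K] [MeasurableSpace K] [MeasurableSpace Z] {u : K} {m : Measure K}
  [IsProbabilityMeasure m] {M : Measure Z} {S : Z → Z} {y : Z → K} {s l : Z → ℝ}
  {E : Type*} [NormedAddCommGroup E] [InnerProductSpace ℂ E] [FiniteDimensional ℂ E] [CompleteSpace E]

/-! ## row b3: `U_V` -/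

-- BEGIN b3

theorem ue_apply_norm (g : UE E) (x : E) : ‖((g : UE E) : E →L[ℂ] E) x‖ = ‖x‖ :=
  Unitary.norm_map g x

/-- `V⁻¹ = V*` is measurable if `V` is, and its norm is at most 1 -/
theorem bm_inv (hy : Measurable y) {V : K → UE E} (hV : Measurable V) :
    BM fun z => (((V (y z))⁻¹ : UE E) : E →L[ℂ] E) := by
  refine ⟨?_, 1, fun z => ?_⟩
  · have h1 : Measurable fun z => ((V (y z) : UE E) : E →L[ℂ] E) :=
      measurable_subtype_coe.comp (hV.comp hy)
    have h2 : Measurable fun A : E →L[ℂ] E => star A := continuous_star.measurable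
    exact h2.comp h1
  · refine ContinuousLinearMap.opNorm_le_bound _ zero_le_one fun x => ?_
    rw [one_mul, ue_apply_norm]

theorem bm_ue {X : Type*} [MeasurableSpace X] {V : X → UE E} (hV : Measurable V) :
    BM fun z => ((V z : UE E) : E →L[ℂ] E) := by
  refine ⟨measurable_subtype_coe.comp hV, 1, fun z => ?_⟩
  refine ContinuousLinearMap.opNorm_le_bound _ zero_le_one fun x => ?_
  rw [one_mul, ue_apply_norm]

theorem Uop_coe (h : Sys u m M S y s l) {V : K → UE E} (hV : Measurable V) (F : HE E M) :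
    Uop M S y V F =ᵐ[M] fun z => (((V (y z))⁻¹ : UE E) : E →L[ℂ] E) (F (S z)) := by
  have h1 : Uop M S y V F = mulL (fun z => (((V (y z))⁻¹ : UE E) : E →L[ℂ] E))
      (KS M S E F) := rfl
  have h2 : KS M S E F = Lp.compMeasurePreserving S h.mp F := by
    unfold KS
    rw [dif_pos h.mp]
    rfl
  rw [h1]
  refine (mulL_coe (bm_inv h.my hV) _).trans ?_
  rw [h2]
  filter_upwards [Lp.coeFn_compMeasurePreserving F h.mp] with z hz
  rw [hz]
  rfl

theorem Uop_norm (h : Sys u m M S y s l) {V : K → UE E} (hV : Measurable V) (F : HE E M) :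
    ‖Uop M S y V F‖ = ‖F‖ := by
  have h1 : Uop M S y V F = mulL (fun z => (((V (y z))⁻¹ : UE E) : E →L[ℂ] E))
      (KS M S E F) := rfl
  have h2 : KS M S E F = Lp.compMeasurePreserving S h.mp F := by
    unfold KS
    rw [dif_pos h.mp]
    rfl
  rw [h1, mulL_isom (bm_inv h.my hV) (fun z x => ue_apply_norm _ x), h2,
    Lp.norm_compMeasurePreserving]

/-- induction with `coc_succ'` -/
theorem Uop_pow_coe (h : Sys u m M S y s l) {V : K → UE E} (hV : Measurable V) (n : ℕ)
    (F : HE E M) : (Uop M S y V ^ n) F =ᵐ[M]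
      fun z => (((itc u V n (y z))⁻¹ : UE E) : E →L[ℂ] E) (F (S^[n] z)) := by
  induction n with
  | zero =>
    refine Filter.Eventually.of_forall fun z => ?_
    show F z = (((1 : UE E)⁻¹ : UE E) : E →L[ℂ] E) (F z)
    rw [inv_one]
    rfl
  | succ n ih =>
    have h1 : (Uop M S y V ^ (n + 1)) F = Uop M S y V ((Uop M S y V ^ n) F) := by
      rw [pow_succ']
      rfl
    rw [h1]
    have h2 := Uop_coe h hV ((Uop M S y V ^ n) F)
    have h3 : ∀ᵐ z ∂M, ((Uop M S y V ^ n) F) (S z) =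
        (((itc u V n (y (S z)))⁻¹ : UE E) : E →L[ℂ] E) (F (S^[n] (S z))) :=
      h.mp.quasiMeasurePreserving.ae ih
    filter_upwards [h2, h3] with z hz2 hz3
    rw [hz2, hz3, h.yS z, coc_succ', mul_inv_rev]
    rfl

-- END b3

/-! ## row b4: `P_V` -/

-- BEGIN b4

theorem PV_fix (V : K → UE E) (F : HE E M) : Uop M S y V (PV M S y V F) = PV M S y V F := by
  exact Submodule.starProjection_apply_mem
    ((Uop M S y V).eqLocus (1 : HE E M →L[ℂ] HE E M)) F

theorem PV_of_fix {V : K → UE E} {F : HE E M} (hF : Uop M S y V F = F) : PV M S y V F = F := by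
  exact Submodule.starProjection_eq_self_iff.2 hF

theorem PV_norm_le (V : K → UE E) (F : HE E M) : ‖PV M S y V F‖ ≤ ‖F‖ := by
  have h := ContinuousLinearMap.le_of_opNorm_le _
    (Submodule.starProjection_norm_le ((Uop M S y V).eqLocus (1 : HE E M →L[ℂ] HE E M))) F
  rwa [one_mul] at h

/-- the projection is self-adjoint and idempotent -/
theorem PV_inner (V : K → UE E) (F G : HE E M) :
    ⟪PV M S y V F, PV M S y V G⟫_ℂ = ⟪F, PV M S y V G⟫_ℂ := by
  have h := Submodule.starProjection_inner_eq_zero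
    (K := (Uop M S y V).eqLocus (1 : HE E M →L[ℂ] HE E M)) F (PV M S y V G) (PV_fix V G)
  rw [inner_sub_left, sub_eq_zero] at h
  exact h.symm

private theorem b4_it (A : HE E M →L[ℂ] HE E M) (n : ℕ) (F : HE E M) : (A)^[n] F = (A ^ n) F := by
  induction n with
  | zero => rfl
  | succ n ih =>
    rw [Function.iterate_succ_apply', pow_succ', ih]
    rfl

/-- Mathlib: `ContinuousLinearMap.tendsto_birkhoffAverage_orthogonalProjection`; `‖U_V‖ ≤ 1` by `Uop_norm` -/
theorem PV_tendsto (h : Sys u m M S y s l) {V : K → UE E} (hV : Measurable V) (F : HE E M) :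
    Tendsto (fun H : ℕ => ((H : ℂ)⁻¹) • ∑ n ∈ Finset.range H, (Uop M S y V ^ n) F) atTop
      (𝓝 (PV M S y V F)) := by
  have h1 : ‖Uop M S y V‖ ≤ 1 := by
    refine ContinuousLinearMap.opNorm_le_bound _ zero_le_one fun G => ?_
    rw [Uop_norm h hV, one_mul]
  have h2 := ContinuousLinearMap.tendsto_birkhoffAverage_orthogonalProjection (Uop M S y V) h1 F
  refine h2.congr fun H => ?_
  simp only [birkhoffAverage, birkhoffSum, id_eq]
  congr 1
  refine Finset.sum_congr rfl fun n _ => ?_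
  exact b4_it _ n F

/-- the pointwise form of `PV_fix` -/
theorem PV_apply (h : Sys u m M S y s l) {V : K → UE E} (hV : Measurable V) (F : HE E M) :
    ∀ᵐ z ∂M, PV M S y V F (S z) = ((V (y z) : UE E) : E →L[ℂ] E) (PV M S y V F z) := by
  have h1 := Uop_coe h hV (PV M S y V F)
  rw [PV_fix] at h1
  filter_upwards [h1] with z hz
  rw [hz]
  have h2 : ((V (y z) * (V (y z))⁻¹ : UE E) : E →L[ℂ] E) (PV M S y V F (S z)) =
      PV M S y V F (S z) := by
    rw [mul_inv_cancel]; rfl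
  exact h2.symm

private theorem b4_PU (h : Sys u m M S y s l) {V : K → UE E} (hV : Measurable V) (F : HE E M) :
    PV M S y V (Uop M S y V F) = PV M S y V F := by
  refine Submodule.eq_starProjection_of_mem_of_inner_eq_zero (PV_fix V F) fun w hw => ?_
  have hw' : Uop M S y V w = w := hw
  have h1 : ⟪Uop M S y V F, w⟫_ℂ = ⟪F, w⟫_ℂ := by
    have h2 := LinearIsometry.inner_map_map
      (⟨(Uop M S y V : HE E M →ₗ[ℂ] HE E M), fun G => Uop_norm h hV G⟩ : HE E M →ₗᵢ[ℂ] HE E M) F w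
    have h3 : ⟪Uop M S y V F, Uop M S y V w⟫_ℂ = ⟪F, w⟫_ℂ := h2
    rwa [hw'] at h3
  rw [inner_sub_left, h1, ← inner_sub_left]
  exact Submodule.starProjection_inner_eq_zero
    (K := (Uop M S y V).eqLocus (1 : HE E M →L[ℂ] HE E M)) F w hw

private theorem b4_PUn (h : Sys u m M S y s l) {V : K → UE E} (hV : Measurable V) (F : HE E M)
    (n : ℕ) : PV M S y V ((Uop M S y V ^ n) F) = PV M S y V F := by
  induction n with
  | zero => rfl
  | succ n ih =>
    rw [pow_succ']
    exact (b4_PU h hV _).trans ih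

/-- `P_V F = P_V (average of F)` -/
theorem PV_avg_le (h : Sys u m M S y s l) {V : K → UE E} (hV : Measurable V) (F : HE E M) {H : ℕ}
    (hH : 0 < H) : ‖PV M S y V F‖ ≤
      ‖((H : ℂ)⁻¹) • ∑ n ∈ Finset.range H, (Uop M S y V ^ n) F‖ := by
  have h1 : PV M S y V (((H : ℂ)⁻¹) • ∑ n ∈ Finset.range H, (Uop M S y V ^ n) F) =
      PV M S y V F := by
    rw [map_smul, map_sum, Finset.sum_congr rfl fun n _ => b4_PUn h hV F n, Finset.sum_const,
      Finset.card_range, ← Nat.cast_smul_eq_nsmul ℂ, smul_smul,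
      inv_mul_cancel₀ (Nat.cast_ne_zero.2 hH.ne'), one_smul]
  rw [← h1]
  exact PV_norm_le _ _

/-- An operator which intertwines `U_V` and `U_V'` intertwines the projections: it intertwines the
averages, pass to the limit (`PV_tendsto`). -/
theorem PV_comm (h : Sys u m M S y s l) {E' : Type*} [NormedAddCommGroup E'] [InnerProductSpace ℂ E']
    [FiniteDimensional ℂ E'] [CompleteSpace E'] {V : K → UE E} (hV : Measurable V)
    {V' : K → UE E'} (hV' : Measurable V') (A : HE E M →L[ℂ] HE E' M)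
    (hA : ∀ F, A (Uop M S y V F) = Uop M S y V' (A F)) (F : HE E M) :
    A (PV M S y V F) = PV M S y V' (A F) := by
  have h0 : ∀ n : ℕ, A ((Uop M S y V ^ n) F) = (Uop M S y V' ^ n) (A F) := by
    intro n
    induction n with
    | zero => rfl
    | succ n ih =>
      rw [pow_succ', pow_succ']
      have h3 : A (Uop M S y V ((Uop M S y V ^ n) F)) =
          Uop M S y V' ((Uop M S y V' ^ n) (A F)) := by rw [hA, ih]
      exact h3
  have h1 := (A.continuous.tendsto _).comp (PV_tendsto h hV F)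
  have h2 := PV_tendsto h hV' (A F)
  refine tendsto_nhds_unique h1 (h2.congr fun H => ?_)
  rw [Function.comp_apply, map_smul, map_sum]
  congr 1
  exact Finset.sum_congr rfl fun n _ => (h0 n).symm

-- END b4

/-! ## row b5: `w_J` -/

variable [MeasurableSpace E] [BorelSpace E]

-- BEGIN b5

/-- bounded, and the support `s ⁻¹' J` has finite measure -/
theorem wf_memLp (h : Sys u m M S y s l) {J : Set ℝ} (hJ : MeasurableSet J) (hJf : volume J ≠ ∞)
    {a : K → E} (ha : BM a) : MemLp (wf y s l J a) 2 M := by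
  obtain ⟨h1, C, hC⟩ := ha
  have hJs : MeasurableSet (s ⁻¹' J) := h.ms hJ
  unfold wf
  rw [memLp_indicator_iff_restrict hJs]
  have hf : IsFiniteMeasure (M.restrict (s ⁻¹' J)) := by
    refine ⟨?_⟩
    rw [Measure.restrict_apply_univ, h.meas hJ]
    exact lt_top_iff_ne_top.2 hJf
  have hm : Measurable fun z => (l z : ℂ) • a (y z) :=
    (Complex.measurable_ofReal.comp h.ml).smul (h1.comp h.my)
  refine MemLp.of_bound hm.aestronglyMeasurable C (ae_of_all _ fun z => ?_)
  rw [norm_smul, Complex.norm_real, Real.norm_eq_abs, h.abs_l z, one_mul]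
  exact hC _

theorem W_coe (h : Sys u m M S y s l) {J : Set ℝ} (hJ : MeasurableSet J) (hJf : volume J ≠ ∞)
    {a : K → E} (ha : BM a) : W M y s l J a =ᵐ[M] wf y s l J a := by
  unfold W
  rw [dif_pos (wf_memLp h hJ hJf ha)]
  exact MemLp.coeFn_toLp _

private theorem b5_bm_add {a b : K → E} (ha : BM a) (hb : BM b) : BM fun x => a x + b x := by
  obtain ⟨h1, C, hC⟩ := ha
  obtain ⟨h2, D, hD⟩ := hb
  exact ⟨h1.add h2, C + D, fun x => (norm_add_le _ _).trans (add_le_add (hC x) (hD x))⟩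

private theorem b5_bm_smul {a : K → E} (ha : BM a) (c : ℂ) : BM fun x => c • a x := by
  obtain ⟨h1, C, hC⟩ := ha
  exact ⟨h1.const_smul c, ‖c‖ * C, fun x => by
    rw [norm_smul]
    exact mul_le_mul_of_nonneg_left (hC x) (norm_nonneg c)⟩

theorem W_add (h : Sys u m M S y s l) {J : Set ℝ} (hJ : MeasurableSet J) (hJf : volume J ≠ ∞)
    {a b : K → E} (ha : BM a) (hb : BM b) :
    W M y s l J (fun x => a x + b x) = W M y s l J a + W M y s l J b := by
  refine Lp.ext ?_
  filter_upwards [W_coe h hJ hJf (b5_bm_add ha hb), W_coe h hJ hJf ha, W_coe h hJ hJf hb,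
    Lp.coeFn_add (W M y s l J a) (W M y s l J b)] with z h1 h2 h3 h4
  rw [h1, h4, Pi.add_apply, h2, h3]
  unfold wf
  by_cases hz : z ∈ s ⁻¹' J
  · simp only [Set.indicator_of_mem hz, smul_add]
  · simp only [Set.indicator_of_notMem hz, add_zero]

theorem W_smul (h : Sys u m M S y s l) {J : Set ℝ} (hJ : MeasurableSet J) (hJf : volume J ≠ ∞)
    {a : K → E} (ha : BM a) (c : ℂ) : W M y s l J (fun x => c • a x) = c • W M y s l J a := by
  refine Lp.ext ?_
  filter_upwards [W_coe h hJ hJf (b5_bm_smul ha c), W_coe h hJ hJf ha,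
    Lp.coeFn_smul c (W M y s l J a)] with z h1 h2 h3
  rw [h1, h3, Pi.smul_apply, h2]
  unfold wf
  by_cases hz : z ∈ s ⁻¹' J
  · simp only [Set.indicator_of_mem hz]
    exact smul_comm _ _ _
  · simp only [Set.indicator_of_notMem hz, smul_zero]

theorem W_congr (h : Sys u m M S y s l) {J : Set ℝ} (hJ : MeasurableSet J) (hJf : volume J ≠ ∞)
    {a b : K → E} (ha : BM a) (hb : BM b) (hab : a =ᵐ[m] b) : W M y s l J a = W M y s l J b := by
  refine Lp.ext ?_
  filter_upwards [W_coe h hJ hJf ha, W_coe h hJ hJf hb, h.null hab] with z h1 h2 h3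
  rw [h1, h2]
  unfold wf
  by_cases hz : z ∈ s ⁻¹' J
  · simp only [Set.indicator_of_mem hz, h3]
  · simp only [Set.indicator_of_notMem hz]

/-- `Sys.integral` -/
theorem W_inner (h : Sys u m M S y s l) {J : Set ℝ} (hJ : MeasurableSet J) (hJf : volume J ≠ ∞)
    {a b : K → E} (ha : BM a) (hb : BM b) :
    ⟪W M y s l J a, W M y s l J b⟫_ℂ = ((volume J).toReal : ℂ) * ∫ x, ⟪a x, b x⟫_ℂ ∂m := by
  have hJs : MeasurableSet (s ⁻¹' J) := h.ms hJ
  have h1 : ⟪W M y s l J a, W M y s l J b⟫_ℂ = ∫ z in s ⁻¹' J, ⟪a (y z), b (y z)⟫_ℂ ∂M := by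
    rw [L2.inner_def, ← integral_indicator hJs]
    refine integral_congr_ae ?_
    filter_upwards [W_coe h hJ hJf ha, W_coe h hJ hJf hb] with z h1 h2
    rw [h1, h2]
    unfold wf
    by_cases hz : z ∈ s ⁻¹' J
    · simp only [Set.indicator_of_mem hz]
      rw [inner_smul_left, inner_smul_right, Complex.conj_ofReal, ← mul_assoc, ← Complex.ofReal_mul]
      have h3 : l z * l z = 1 := by
        rcases h.lpm z with h4 | h4 <;> rw [h4] <;> norm_num
      rw [h3, Complex.ofReal_one, one_mul]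
    · simp only [Set.indicator_of_notMem hz, inner_zero_left]
  rw [h1, h.integral hJ hJf (g := fun x => ⟪a x, b x⟫_ℂ)]
  · rw [Complex.real_smul]
  · exact (ha.1.aestronglyMeasurable.inner hb.1.aestronglyMeasurable)

theorem W_norm (h : Sys u m M S y s l) {J : Set ℝ} (hJ : MeasurableSet J) (hJf : volume J ≠ ∞)
    {a : K → E} (ha : BM a) :
    ‖W M y s l J a‖ ^ 2 = (volume J).toReal * ∫ x, ‖a x‖ ^ 2 ∂m := by
  have h1 := W_inner h hJ hJf ha ha
  rw [inner_self_eq_norm_sq_to_K] at h1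
  have h2 : ∫ x, ⟪a x, a x⟫_ℂ ∂m = ((∫ x, ‖a x‖ ^ 2 ∂m : ℝ) : ℂ) := by
    rw [← integral_complex_ofReal]
    refine integral_congr_ae (ae_of_all _ fun x => ?_)
    simp only [inner_self_eq_norm_sq_to_K]
    norm_cast
  rw [h2] at h1
  refine Complex.ofReal_injective ?_
  rw [Complex.ofReal_mul, Complex.ofReal_pow]
  exact h1

-- END b5

/-! ## row b6: `T_J` -/

-- BEGIN b6

theorem TT_add (h : Sys u m M S y s l) (V : K → UE E) {J : Set ℝ} (hJ : MeasurableSet J)
    (hJf : volume J ≠ ∞) {a b : K → E} (ha : BM a) (hb : BM b) :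
    TT M S y s l V J (fun x => a x + b x) = TT M S y s l V J a + TT M S y s l V J b := by
  unfold TT
  rw [W_add h hJ hJf ha hb, map_add]

theorem TT_smul (h : Sys u m M S y s l) (V : K → UE E) {J : Set ℝ} (hJ : MeasurableSet J)
    (hJf : volume J ≠ ∞) {a : K → E} (ha : BM a) (c : ℂ) :
    TT M S y s l V J (fun x => c • a x) = c • TT M S y s l V J a := by
  unfold TT
  rw [W_smul h hJ hJf ha c, map_smul]

theorem TT_congr (h : Sys u m M S y s l) (V : K → UE E) {J : Set ℝ} (hJ : MeasurableSet J)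
    (hJf : volume J ≠ ∞) {a b : K → E} (ha : BM a) (hb : BM b) (hab : a =ᵐ[m] b) :
    TT M S y s l V J a = TT M S y s l V J b := by
  unfold TT
  rw [W_congr h hJ hJf ha hb hab]

theorem TT_norm_le2 (h : Sys u m M S y s l) (V : K → UE E) {J : Set ℝ} (hJ : MeasurableSet J)
    (hJf : volume J ≠ ∞) {a : K → E} (ha : BM a) :
    ‖TT M S y s l V J a‖ ^ 2 ≤ (volume J).toReal * ∫ x, ‖a x‖ ^ 2 ∂m := by
  rw [← W_norm h hJ hJf ha]
  exact pow_le_pow_left₀ (norm_nonneg _) (PV_norm_le V _) 2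

/-- multiplication by `1_J(s)` -/
private noncomputable def b6_ind {Z : Type*} (s : Z → ℝ) (E : Type*) [NormedAddCommGroup E]
    [InnerProductSpace ℂ E] (J : Set ℝ) : Z → E →L[ℂ] E :=
  Set.indicator (s ⁻¹' J) fun _ => ContinuousLinearMap.id ℂ E

omit [FiniteDimensional ℂ E] [CompleteSpace E] [MeasurableSpace E] [BorelSpace E]
  [IsProbabilityMeasure m] in
private theorem b6_bm (h : Sys u m M S y s l) {J : Set ℝ} (hJ : MeasurableSet J) :
    BM (b6_ind s E J) := by
  refine ⟨measurable_const.indicator (h.ms hJ), 1, fun z => ?_⟩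
  unfold b6_ind
  by_cases hz : z ∈ s ⁻¹' J
  · rw [Set.indicator_of_mem hz]
    exact ContinuousLinearMap.norm_id_le
  · rw [Set.indicator_of_notMem hz, norm_zero]
    exact zero_le_one

omit [FiniteDimensional ℂ E] [CompleteSpace E] [MeasurableSpace E] [BorelSpace E] in
private theorem b6_apply (J : Set ℝ) (f : Z → E) (z : Z) :
    b6_ind s E J z (f z) = Set.indicator (s ⁻¹' J) f z := by
  unfold b6_ind
  by_cases hz : z ∈ s ⁻¹' J
  · rw [Set.indicator_of_mem hz, Set.indicator_of_mem hz]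
    rfl
  · rw [Set.indicator_of_notMem hz, Set.indicator_of_notMem hz]
    rfl

omit [MeasurableSpace E] [BorelSpace E] in
private theorem b6_comm (h : Sys u m M S y s l) {V : K → UE E} (hV : Measurable V) {J : Set ℝ}
    (hJ : MeasurableSet J) (F : HE E M) :
    mulL (b6_ind s E J) (Uop M S y V F) = Uop M S y V (mulL (b6_ind s E J) F) := by
  have hA : BM (b6_ind s E J) := b6_bm h hJ
  refine Lp.ext ?_
  filter_upwards [mulL_coe hA (Uop M S y V F), Uop_coe h hV F,
    Uop_coe h hV (mulL (b6_ind s E J) F),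
    h.mp.quasiMeasurePreserving.ae (mulL_coe hA F)] with z h1 h2 h3 h4
  rw [h1, h3, h4, h2]
  have hS : b6_ind s E J (S z) = b6_ind s E J z := by
    unfold b6_ind
    by_cases hz : z ∈ s ⁻¹' J
    · have hz' : S z ∈ s ⁻¹' J := by
        rw [Set.mem_preimage, h.sS]
        exact hz
      rw [Set.indicator_of_mem hz, Set.indicator_of_mem hz']
    · have hz' : S z ∉ s ⁻¹' J := by
        rw [Set.mem_preimage, h.sS]
        exact hz
      rw [Set.indicator_of_notMem hz, Set.indicator_of_notMem hz']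
  rw [hS]
  unfold b6_ind
  by_cases hz : z ∈ s ⁻¹' J
  · rw [Set.indicator_of_mem hz]
    rfl
  · rw [Set.indicator_of_notMem hz, ContinuousLinearMap.zero_apply,
      ContinuousLinearMap.zero_apply, map_zero]

/-- `PV_comm` for the multiplication by `1_J'(s)`, which commutes with `U_V` as `s (S z) = s z` -/
theorem TT_restrict (h : Sys u m M S y s l) {V : K → UE E} (hV : Measurable V) {J J' : Set ℝ}
    (hJ : MeasurableSet J) (hJf : volume J ≠ ∞) (hJ' : MeasurableSet J') (hsub : J' ⊆ J)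
    {a : K → E} (ha : BM a) : TT M S y s l V J' a =ᵐ[M]
      Set.indicator (s ⁻¹' J') (TT M S y s l V J a) := by
  have hA : BM (b6_ind s E J') := b6_bm h hJ'
  have hJf' : volume J' ≠ ∞ := ne_top_of_le_ne_top hJf (measure_mono hsub)
  have hW : mulL (b6_ind s E J') (W M y s l J a) = W M y s l J' a := by
    refine Lp.ext ?_
    filter_upwards [mulL_coe hA (W M y s l J a), W_coe h hJ hJf ha, W_coe h hJ' hJf' ha]
      with z h1 h2 h3
    rw [h1, h2, h3]
    unfold wf
    rw [b6_apply J' (Set.indicator (s ⁻¹' J) fun z => (l z : ℂ) • a (y z)) z]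
    rw [Set.indicator_indicator, Set.inter_eq_left.2 (Set.preimage_mono hsub)]
  have hT : mulL (b6_ind s E J') (TT M S y s l V J a) = TT M S y s l V J' a := by
    unfold TT
    rw [PV_comm h hV hV (mulL (b6_ind s E J')) (fun F => b6_comm h hV hJ' F), hW]
  rw [← hT]
  filter_upwards [mulL_coe hA (TT M S y s l V J a)] with z h1
  rw [h1]
  exact b6_apply J' (TT M S y s l V J a) z

theorem TT_supp (h : Sys u m M S y s l) {V : K → UE E} (hV : Measurable V) {J : Set ℝ}
    (hJ : MeasurableSet J) (hJf : volume J ≠ ∞) {a : K → E} (ha : BM a) :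
    ∀ᵐ z ∂M, s z ∉ J → TT M S y s l V J a z = 0 := by
  filter_upwards [TT_restrict h hV hJ hJf hJ (subset_refl J) ha] with z h1 hz
  rw [h1, Set.indicator_of_notMem]
  exact hz

theorem TT_inner (h : Sys u m M S y s l) (V : K → UE E) (J : Set ℝ) (a b : K → E) :
    ⟪W M y s l J a, TT M S y s l V J b⟫_ℂ = ⟪TT M S y s l V J a, TT M S y s l V J b⟫_ℂ :=
  (PV_inner V _ _).symm

/-- the pointwise equivariance of `T_J a` -/
theorem TT_apply (h : Sys u m M S y s l) {V : K → UE E} (hV : Measurable V) (J : Set ℝ)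
    (a : K → E) : ∀ᵐ z ∂M, TT M S y s l V J a (S z) =
      ((V (y z) : UE E) : E →L[ℂ] E) (TT M S y s l V J a z) :=
  PV_apply h hV _

-- END b6

/-! ## row b7: the mean ergodic theorem on `K` -/

-- BEGIN b7

omit [Group K] [IsProbabilityMeasure m] in
private theorem b7_iter {T : K → K} (h : MeasurePreserving T m m) {g : K → ℝ} (hg : MemLp g 2 m)
    (n : ℕ) : (⇑((Lp.compMeasurePreservingₗᵢ ℝ T h).toContinuousLinearMap :
      Lp ℝ 2 m →L[ℝ] Lp ℝ 2 m))^[n] (hg.toLp g) =
      (hg.comp_measurePreserving (h.iterate n)).toLp (g ∘ T^[n]) := by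
  induction n with
  | zero => rfl
  | succ n ih =>
    rw [Function.iterate_succ_apply', ih]
    rfl

omit [Group K] [IsProbabilityMeasure m] in
private theorem b7_sum {T : K → K} (h : MeasurePreserving T m m) {g : K → ℝ} (hg : MemLp g 2 m)
    (H : ℕ) : ((∑ n ∈ Finset.range H, (hg.comp_measurePreserving (h.iterate n)).toLp (g ∘ T^[n]) :
      Lp ℝ 2 m) : K → ℝ) =ᵐ[m] fun x => ∑ n ∈ Finset.range H, g (T^[n] x) := by
  induction H with
  | zero =>
    simp only [Finset.range_zero, Finset.sum_empty]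
    exact Lp.coeFn_zero ℝ 2 m
  | succ H ih =>
    rw [Finset.sum_range_succ]
    filter_upwards [ih, Lp.coeFn_add (∑ n ∈ Finset.range H,
      (hg.comp_measurePreserving (h.iterate n)).toLp (g ∘ T^[n]))
      ((hg.comp_measurePreserving (h.iterate H)).toLp (g ∘ T^[H])),
      MemLp.coeFn_toLp (hg.comp_measurePreserving (h.iterate H))] with x h1 h2 h3
    rw [h2, Pi.add_apply, h1, h3, Finset.sum_range_succ]
    rfl

omit [Group K] in
/-- the mean minimises the quadratic deviation -/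
private theorem b7_var {a : K → ℝ} (ha : MemLp a 2 m) (c' : ℝ) :
    ∫ x, (a x - ∫ x, a x ∂m) ^ 2 ∂m ≤ ∫ x, (a x - c') ^ 2 ∂m := by
  have hi : Integrable a m := ha.integrable (by norm_num)
  set c : ℝ := ∫ x, a x ∂m with hc
  have h1 : Integrable (fun x => (a x - c) ^ 2) m := (ha.sub (memLp_const c)).integrable_sq
  have h2 : Integrable (fun x => 2 * (c - c') * (a x - c)) m :=
    (hi.sub (integrable_const c)).const_mul _
  have h3 : ∫ x, (a x - c') ^ 2 ∂m = ∫ x, (a x - c) ^ 2 ∂m + (c - c') ^ 2 := by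
    have e : (fun x => (a x - c') ^ 2) = fun x => ((a x - c) ^ 2 + 2 * (c - c') * (a x - c)) +
        (c - c') ^ 2 := by
      funext x
      ring
    have h12 : Integrable (fun x => (a x - c) ^ 2 + 2 * (c - c') * (a x - c)) m := h1.add h2
    rw [e, integral_add h12 (integrable_const _), integral_add h1 h2,
      integral_const_mul, integral_sub hi (integrable_const c)]
    simp [← hc]
  rw [h3]
  nlinarith [sq_nonneg (c - c')]

/-- Proof. Mathlib's mean ergodic theorem for the Koopman operator on `Lp ℝ 2 m`; a fixed vector is a.e.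
constant by ergodicity (`Ergodic.ae_eq_const_of_ae_eq_comp...`), so the limit is the projection on the
constants, `∫ g dm`. -/
theorem erg_L2 [MeasurableMul K] (herg : Ergodic (fun x => u * x) m) {g : K → ℝ} (hg : BM g) :
    Tendsto (fun H : ℕ => ∫ x, ((H : ℝ)⁻¹ * ∑ n ∈ Finset.range H, g (u ^ n * x) -
      ∫ x, g x ∂m) ^ 2 ∂m) atTop (𝓝 0) := by
  have h : MeasurePreserving (fun x => u * x) m m := herg.toMeasurePreserving
  have hg2 : MemLp g 2 m := by
    obtain ⟨h1, C, hC⟩ := hg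
    exact MemLp.of_bound h1.aestronglyMeasurable C (ae_of_all _ hC)
  have hT : ∀ n : ℕ, (fun x : K => u * x)^[n] = fun x => u ^ n * x := fun n => mul_left_iterate u n
  set U : Lp ℝ 2 m →L[ℝ] Lp ℝ 2 m :=
    (Lp.compMeasurePreservingₗᵢ ℝ (fun x : K => u * x) h).toContinuousLinearMap with hU
  have hU1 : ‖U‖ ≤ 1 := LinearIsometry.norm_toContinuousLinearMap_le _
  have hlim := U.tendsto_birkhoffAverage_orthogonalProjection hU1 (hg2.toLp g)
  set P : Lp ℝ 2 m := ((U.eqLocus (1 : Lp ℝ 2 m →L[ℝ] Lp ℝ 2 m)).orthogonalProjectionOnto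
    (hg2.toLp g) : Lp ℝ 2 m) with hP
  have hPm : U P = P := by
    have := ((U.eqLocus (1 : Lp ℝ 2 m →L[ℝ] Lp ℝ 2 m)).orthogonalProjectionOnto
      (hg2.toLp g)).2
    exact this
  obtain ⟨c', hc'⟩ := herg.ae_eq_const_of_ae_eq_comp_ae (g := (P : K → ℝ))
    (Lp.aestronglyMeasurable P) (by
      have h1 : (U P : K → ℝ) =ᵐ[m] (P : K → ℝ) ∘ (fun x => u * x) :=
        Lp.coeFn_compMeasurePreserving P h
      rw [hPm] at h1
      exact h1.symm)
  -- the averages
  set A : ℕ → K → ℝ := fun H x => (H : ℝ)⁻¹ * ∑ n ∈ Finset.range H, g (u ^ n * x) with hA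
  have hbA : ∀ H : ℕ, (birkhoffAverage ℝ U _root_.id H (hg2.toLp g) : Lp ℝ 2 m) =ᵐ[m] A H := by
    intro H
    have e : birkhoffAverage ℝ U _root_.id H (hg2.toLp g) = ((H : ℝ)⁻¹) •
        ∑ n ∈ Finset.range H, (hg2.comp_measurePreserving (h.iterate n)).toLp
          (g ∘ (fun x => u * x)^[n]) := by
      rw [birkhoffAverage, birkhoffSum]
      congr 1
      exact Finset.sum_congr rfl fun n _ => b7_iter h hg2 n
    rw [e]
    filter_upwards [b7_sum h hg2 H, Lp.coeFn_smul ((H : ℝ)⁻¹) (∑ n ∈ Finset.range H,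
      (hg2.comp_measurePreserving (h.iterate n)).toLp (g ∘ (fun x => u * x)^[n]))] with x h1 h2
    rw [h2, Pi.smul_apply, h1, smul_eq_mul, hA]
    simp only [hT]
  have hmA : ∀ H : ℕ, MemLp (A H) 2 m := fun H =>
    (memLp_congr_ae (hbA H)).1 (Lp.memLp _)
  have hint : ∀ H : ℕ, 0 < H → ∫ x, A H x ∂m = ∫ x, g x ∂m := by
    intro H hH
    have hi : ∀ n : ℕ, Integrable (fun x => g (u ^ n * x)) m := by
      intro n
      have h1 := (hg2.comp_measurePreserving (h.iterate n)).integrable (by norm_num)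
      rw [hT n] at h1
      exact h1
    have hn : ∀ n : ℕ, ∫ x, g (u ^ n * x) ∂m = ∫ x, g x ∂m := by
      intro n
      have h1 := (h.iterate n).map_eq
      rw [hT n] at h1
      have h2 := integral_map (μ := m) (φ := fun x : K => u ^ n * x)
        (measurable_const_mul (u ^ n)).aemeasurable (f := g) hg.1.aestronglyMeasurable
      rw [h1] at h2
      exact h2.symm
    rw [hA]
    simp only
    rw [integral_const_mul, integral_finsetSum _ fun n _ => hi n, Finset.sum_congr rfl fun n _ => hn n,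
      Finset.sum_const, Finset.card_range, nsmul_eq_mul]
    field_simp
  -- the square norms
  have hsq : ∀ H : ℕ, ‖birkhoffAverage ℝ U _root_.id H (hg2.toLp g) - P‖ ^ 2 =
      ∫ x, (A H x - c') ^ 2 ∂m := by
    intro H
    rw [← real_inner_self_eq_norm_sq, L2.inner_def]
    refine integral_congr_ae ?_
    filter_upwards [hbA H, hc', Lp.coeFn_sub (birkhoffAverage ℝ U _root_.id H (hg2.toLp g)) P]
      with x h1 h2 h3
    rw [h3, Pi.sub_apply, h1, h2, real_inner_self_eq_norm_sq, Real.norm_eq_abs, sq_abs]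
    rfl
  have hz : Tendsto (fun H : ℕ => ‖birkhoffAverage ℝ U _root_.id H (hg2.toLp g) - P‖ ^ 2) atTop
      (𝓝 0) := by
    have h1 := (hlim.sub_const P).norm.pow 2
    rw [sub_self, norm_zero, zero_pow two_ne_zero] at h1
    exact h1
  refine tendsto_of_tendsto_of_tendsto_of_le_of_le' tendsto_const_nhds hz
    (Eventually.of_forall fun H => integral_nonneg fun x => sq_nonneg _) ?_
  filter_upwards [eventually_gt_atTop 0] with H hH
  rw [hsq H, ← hint H hH]
  exact b7_var (hmA H) c'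

-- END b7

/-! ## row b8: C6 -/

-- BEGIN b8

private theorem b8_term (h : Sys u m M S y s l)
    {V : K → UE E} (hV : Measurable V) {J : Set ℝ} (hJ : MeasurableSet J) (hJf : volume J ≠ ∞)
    {a : K → E} (ha : BM a) (n : ℕ) :
    ∀ᵐ z ∂M, ‖((Uop M S y V ^ n) (W M y s l J a)) z‖ ≤ ‖a (u ^ n * y z)‖ := by
  have h1 := Uop_pow_coe h hV n (W M y s l J a)
  have h2 : ∀ᵐ z ∂M, (W M y s l J a) (S^[n] z) = wf y s l J a (S^[n] z) :=
    (h.mp.iterate n).quasiMeasurePreserving.ae (W_coe h hJ hJf ha)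
  filter_upwards [h1, h2] with z hz1 hz2
  rw [hz1, ue_apply_norm, hz2]
  unfold wf
  by_cases hz : S^[n] z ∈ s ⁻¹' J
  · rw [Set.indicator_of_mem hz, norm_smul, h.y_iter, Complex.norm_real, Real.norm_eq_abs,
      h.abs_l, one_mul]
  · rw [Set.indicator_of_notMem hz, norm_zero]
    exact norm_nonneg _

private theorem b8_sum (h : Sys u m M S y s l)
    {V : K → UE E} (hV : Measurable V) {J : Set ℝ} (hJ : MeasurableSet J) (hJf : volume J ≠ ∞)
    {a : K → E} (ha : BM a) (H : ℕ) :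
    ∀ᵐ z ∂M, ‖(∑ n ∈ Finset.range H, (Uop M S y V ^ n) (W M y s l J a) : HE E M) z‖ ≤
      ∑ n ∈ Finset.range H, ‖a (u ^ n * y z)‖ := by
  induction H with
  | zero =>
    rw [Finset.sum_range_zero]
    filter_upwards [Lp.coeFn_zero E 2 M] with z hz
    rw [hz, Pi.zero_apply, norm_zero, Finset.sum_range_zero]
  | succ H ih =>
    rw [Finset.sum_range_succ]
    filter_upwards [ih, b8_term h hV hJ hJf ha H,
      Lp.coeFn_add (∑ n ∈ Finset.range H, (Uop M S y V ^ n) (W M y s l J a) : HE E M)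
        ((Uop M S y V ^ H) (W M y s l J a))] with z h1 h2 h3
    rw [h3, Pi.add_apply, Finset.sum_range_succ]
    exact (norm_add_le _ _).trans (add_le_add h1 h2)

private theorem b8_avg (h : Sys u m M S y s l)
    {V : K → UE E} (hV : Measurable V) {J : Set ℝ} (hJ : MeasurableSet J) (hJf : volume J ≠ ∞)
    {a : K → E} (ha : BM a) (H : ℕ) :
    ∀ᵐ z ∂M, ‖(((H : ℂ)⁻¹) • ∑ n ∈ Finset.range H, (Uop M S y V ^ n) (W M y s l J a) : HE E M) z‖ ≤
      (H : ℝ)⁻¹ * ∑ n ∈ Finset.range H, ‖a (u ^ n * y z)‖ := by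
  filter_upwards [b8_sum h hV hJ hJf ha H, Lp.coeFn_smul ((H : ℂ)⁻¹)
    (∑ n ∈ Finset.range H, (Uop M S y V ^ n) (W M y s l J a) : HE E M)] with z h1 h2
  rw [h2, Pi.smul_apply, norm_smul, norm_inv, Complex.norm_natCast]
  exact mul_le_mul_of_nonneg_left h1 (inv_nonneg.2 (Nat.cast_nonneg _))

private theorem b8_seq [MeasurableMul K] (herg : Ergodic (fun x => u * x) m) {g : K → ℝ}
    (hg : BM g) {ns : ℕ → ℕ} (hns : Tendsto ns atTop atTop) :
    ∃ ms : ℕ → ℕ, StrictMono ms ∧ ∀ᵐ x ∂m, Tendsto (fun k => ((ns (ms k) : ℕ) : ℝ)⁻¹ *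
      ∑ n ∈ Finset.range (ns (ms k)), g (u ^ n * x)) atTop (𝓝 (∫ x, g x ∂m)) := by
  obtain ⟨hgm, C, hC⟩ := hg
  set A : ℕ → K → ℝ := fun H x => (H : ℝ)⁻¹ * ∑ n ∈ Finset.range H, g (u ^ n * x) with hA
  set c : ℝ := ∫ x, g x ∂m with hc
  have hAm : ∀ H, Measurable (A H) := fun H =>
    (Finset.measurable_sum _ fun n _ => hgm.comp (measurable_const_mul (u ^ n))).const_mul _
  have hAb : ∀ H x, |A H x| ≤ C := by
    intro H x
    have hC0 : 0 ≤ C := (norm_nonneg _).trans (hC x)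
    rw [hA]
    simp only
    rw [abs_mul, abs_inv, Nat.abs_cast]
    rcases Nat.eq_zero_or_pos H with h0 | h0
    · rw [h0]
      simpa using hC0
    · have h1 : |∑ n ∈ Finset.range H, g (u ^ n * x)| ≤ H * C := by
        refine (Finset.abs_sum_le_sum_abs _ _).trans ?_
        refine (Finset.sum_le_sum (g := fun _ => C) fun n _ => hC _).trans ?_
        rw [Finset.sum_const, Finset.card_range, nsmul_eq_mul]
      have h2 : (0 : ℝ) < H := Nat.cast_pos.2 h0
      rw [inv_mul_le_iff₀ h2]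
      exact h1
  have hDm : ∀ H, AEStronglyMeasurable (fun x => (A H x - c) ^ 2) m := fun H =>
    (((hAm H).sub_const c).pow_const 2).aestronglyMeasurable
  have hDi : ∀ H, Integrable (fun x => (A H x - c) ^ 2) m := fun H =>
    Integrable.of_bound (hDm H) ((C + |c|) ^ 2) (ae_of_all _ fun x => by
      rw [Real.norm_eq_abs, abs_pow]
      refine pow_le_pow_left₀ (abs_nonneg _) ((abs_sub _ _).trans ?_) 2
      exact add_le_add_left (hAb H x) _)
  have hlim : Tendsto (fun k => eLpNorm ((fun x => (A (ns k) x - c) ^ 2) - fun _ => (0 : ℝ)) 1 m)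
      atTop (𝓝 0) := by
    have h1 := (erg_L2 herg ⟨hgm, C, hC⟩).comp hns
    have h2 := (ENNReal.continuous_ofReal.tendsto 0).comp h1
    rw [ENNReal.ofReal_zero] at h2
    refine h2.congr fun k => ?_
    rw [eLpNorm_one_eq_lintegral_enorm]
    simp only [Function.comp_apply]
    rw [ofReal_integral_eq_lintegral_ofReal (hDi (ns k)) (ae_of_all _ fun x => sq_nonneg _)]
    refine lintegral_congr fun x => ?_
    simp only [Pi.sub_apply, sub_zero]
    rw [Real.enorm_eq_ofReal (sq_nonneg _)]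
  obtain ⟨ms, hms, hae⟩ := (tendstoInMeasure_of_tendsto_eLpNorm one_ne_zero
    (fun k => hDm (ns k)) aestronglyMeasurable_const hlim).exists_seq_tendsto_ae
  refine ⟨ms, hms, ?_⟩
  filter_upwards [hae] with x hx
  have h1 := (Real.continuous_sqrt.tendsto 0).comp hx
  rw [Real.sqrt_zero] at h1
  rw [tendsto_iff_norm_sub_tendsto_zero]
  refine h1.congr fun k => ?_
  simp only [Function.comp_apply]
  rw [Real.sqrt_sq_eq_abs, Real.norm_eq_abs]

/-- C6. Proof. `f_H := (1/H) ∑_{n<H} U_V^n w_J(a) → T_J a` in `L²(M; E)` (`PV_tendsto`), and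
`‖f_H(z)‖ ≤ 1_J(s z) (1/H) ∑ ‖a(u^n y z)‖ → 1_J(s z) ∫ ‖a‖ dm` in `L²(M)` (`Uop_pow_coe`, `erg_L2`,
`Sys.integral`). Along a subsequence both converge a.e. (`tendstoInMeasure_of_tendsto_Lp`,
`TendstoInMeasure.exists_seq_tendsto_ae`). -/
theorem TT_bound [MeasurableMul K] (h : Sys u m M S y s l) (herg : Ergodic (fun x => u * x) m)
    {V : K → UE E} (hV : Measurable V) {J : Set ℝ} (hJ : MeasurableSet J) (hJf : volume J ≠ ∞)
    {a : K → E} (ha : BM a) : ∀ᵐ z ∂M, ‖TT M S y s l V J a z‖ ≤ ∫ x, ‖a x‖ ∂m := by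
  obtain ⟨ns, hns, hae⟩ := (tendstoInMeasure_of_tendsto_Lp
    (PV_tendsto h hV (W M y s l J a))).exists_seq_tendsto_ae
  have hga : BM fun x => ‖a x‖ := by
    obtain ⟨h1, C, hC⟩ := ha
    exact ⟨h1.norm, C, fun x => by rw [norm_norm]; exact hC x⟩
  obtain ⟨ms, hms, hae2⟩ := b8_seq herg hga hns.tendsto_atTop
  have h3 : ∀ᵐ z ∂M, ∀ H : ℕ,
      ‖(((H : ℂ)⁻¹) • ∑ n ∈ Finset.range H, (Uop M S y V ^ n) (W M y s l J a) : HE E M) z‖ ≤
      (H : ℝ)⁻¹ * ∑ n ∈ Finset.range H, ‖a (u ^ n * y z)‖ :=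
    ae_all_iff.2 fun H => b8_avg h hV hJ hJf ha H
  filter_upwards [hae, h.null hae2, h3] with z h4 h5 h6
  exact le_of_tendsto_of_tendsto ((h4.comp hms.tendsto_atTop).norm) h5
    (Eventually.of_forall fun k => h6 _)

-- END b8

-- BEGIN b9

omit [FiniteDimensional ℂ E] [CompleteSpace E] [MeasurableSpace E] [BorelSpace E] in
private theorem b9_norm (h : Sys u m M S y s l) {D : Set ℝ} (hD : MeasurableSet D)
    (hDf : volume D ≠ ∞) (f : HE E M) {C : ℝ} (hC : 0 ≤ C) (h1 : ∀ᵐ z ∂M, ‖f z‖ ≤ C)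
    (h2 : ∀ᵐ z ∂M, s z ∉ D → f z = 0) : ‖f‖ ≤ Real.sqrt (volume D).toReal * C := by
  have hDm : MeasurableSet (s ⁻¹' D) := h.ms hD
  have h3 : eLpNorm f 2 M ≤ eLpNorm ((s ⁻¹' D).indicator fun _ => C) 2 M := by
    refine eLpNorm_mono_ae ?_
    filter_upwards [h1, h2] with z hz1 hz2
    by_cases hz : s z ∈ D
    · rw [Set.indicator_of_mem (show z ∈ s ⁻¹' D from hz), Real.norm_of_nonneg hC]
      exact hz1
    · rw [hz2 hz, norm_zero]
      exact norm_nonneg _
  rw [eLpNorm_indicator_const hDm (by norm_num) (by norm_num), h.meas hD] at h3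
  have h4 : ‖C‖ₑ * volume D ^ (1 / (2 : ℝ≥0∞).toReal) ≠ ∞ := by
    refine ENNReal.mul_ne_top enorm_ne_top (ENNReal.rpow_ne_top_of_nonneg ?_ hDf)
    norm_num
  rw [Lp.norm_def]
  refine (ENNReal.toReal_mono h4 h3).trans (le_of_eq ?_)
  rw [ENNReal.toReal_mul, ← ENNReal.toReal_rpow, toReal_enorm, Real.norm_of_nonneg hC,
    Real.sqrt_eq_rpow, ENNReal.toReal_ofNat, mul_comm]

omit [IsProbabilityMeasure m] [FiniteDimensional ℂ E] [CompleteSpace E] [BorelSpace E] [Group K] in
private theorem b9_nonneg (a : K → E) : 0 ≤ ∫ x, ‖a x‖ ∂m := integral_nonneg fun _ => norm_nonneg _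

/-- from `TT_bound`, `TT_supp`, `Sys.meas` -/
theorem TT_norm_le [MeasurableMul K] (h : Sys u m M S y s l) (herg : Ergodic (fun x => u * x) m)
    {V : K → UE E} (hV : Measurable V) {J : Set ℝ} (hJ : MeasurableSet J) (hJf : volume J ≠ ∞)
    {a : K → E} (ha : BM a) :
    ‖TT M S y s l V J a‖ ≤ Real.sqrt (volume J).toReal * ∫ x, ‖a x‖ ∂m :=
  b9_norm h hJ hJf _ (b9_nonneg a) (TT_bound h herg hV hJ hJf ha) (TT_supp h hV hJ hJf ha)

private theorem b9_two (h : Sys u m M S y s l) {V : K → UE E} (hV : Measurable V) {J J' : Set ℝ}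
    (hJ : MeasurableSet J) (hJf : volume J ≠ ∞) (hJ' : MeasurableSet J') (hJf' : volume J' ≠ ∞)
    {a : K → E} (ha : BM a) : ∀ᵐ z ∂M,
      TT M S y s l V J a z = (s ⁻¹' J).indicator (TT M S y s l V (J ∪ J') a) z ∧
      TT M S y s l V J' a z = (s ⁻¹' J').indicator (TT M S y s l V (J ∪ J') a) z := by
  have hU : volume (J ∪ J') ≠ ∞ := measure_union_ne_top hJf hJf'
  filter_upwards [TT_restrict h hV (hJ.union hJ') hU hJ Set.subset_union_left ha,
    TT_restrict h hV (hJ.union hJ') hU hJ' Set.subset_union_right ha] with z h1 h2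
  exact ⟨h1, h2⟩

/-- `T_J a - T_J' a = (1_J(s) - 1_J'(s)) T_{J ∪ J'} a` -/
theorem TT_sub_le [MeasurableMul K] (h : Sys u m M S y s l) (herg : Ergodic (fun x => u * x) m)
    {V : K → UE E} (hV : Measurable V) {J J' : Set ℝ} (hJ : MeasurableSet J)
    (hJf : volume J ≠ ∞) (hJ' : MeasurableSet J') (hJf' : volume J' ≠ ∞) {a : K → E} (ha : BM a) :
    ‖TT M S y s l V J a - TT M S y s l V J' a‖ ≤
      Real.sqrt (volume (symmDiff J J')).toReal * ∫ x, ‖a x‖ ∂m := by
  have hU : volume (J ∪ J') ≠ ∞ := measure_union_ne_top hJf hJf'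
  have hD : volume (symmDiff J J') ≠ ∞ := by
    refine ne_top_of_le_ne_top hU (measure_mono ?_)
    rw [symmDiff_def]
    exact Set.union_subset_union Set.sdiff_subset Set.sdiff_subset
  refine b9_norm h (hJ.symmDiff hJ') hD _ (b9_nonneg a) ?_ ?_
  · filter_upwards [b9_two h hV hJ hJf hJ' hJf' ha, TT_bound h herg hV (hJ.union hJ') hU ha,
      Lp.coeFn_sub (TT M S y s l V J a) (TT M S y s l V J' a)] with z h1 h2 h3
    rw [h3, Pi.sub_apply, h1.1, h1.2]
    by_cases hz : z ∈ s ⁻¹' J <;> by_cases hz' : z ∈ s ⁻¹' J'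
    · rw [Set.indicator_of_mem hz, Set.indicator_of_mem hz', sub_self, norm_zero]
      exact b9_nonneg a
    · rw [Set.indicator_of_mem hz, Set.indicator_of_notMem hz', sub_zero]
      exact h2
    · rw [Set.indicator_of_notMem hz, Set.indicator_of_mem hz', zero_sub, norm_neg]
      exact h2
    · rw [Set.indicator_of_notMem hz, Set.indicator_of_notMem hz', sub_self, norm_zero]
      exact b9_nonneg a
  · filter_upwards [b9_two h hV hJ hJf hJ' hJf' ha,
      Lp.coeFn_sub (TT M S y s l V J a) (TT M S y s l V J' a)] with z h1 h3 h4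
    rw [h3, Pi.sub_apply, h1.1, h1.2]
    rw [Set.mem_symmDiff, not_or, not_and, not_and, not_not, not_not] at h4
    by_cases hz : z ∈ s ⁻¹' J
    · rw [Set.indicator_of_mem hz, Set.indicator_of_mem (show z ∈ s ⁻¹' J' from h4.1 hz), sub_self]
    · have hz' : z ∉ s ⁻¹' J' := fun hz' => hz (h4.2 hz')
      rw [Set.indicator_of_notMem hz, Set.indicator_of_notMem hz', sub_self]

/-- `⟨T_J a, T_J b⟩ = ∫_{s ∈ J} ⟨T_{J ∪ J'} a, T_{J ∪ J'} b⟩ dM` (`TT_restrict`), the same for `J'`; the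
difference is an integral over `s ⁻¹' (symmDiff J J')` of a function bounded by `TT_bound`. -/
theorem TT_inner_sub_le [MeasurableMul K] (h : Sys u m M S y s l)
    (herg : Ergodic (fun x => u * x) m) {V : K → UE E} (hV : Measurable V) {J J' : Set ℝ}
    (hJ : MeasurableSet J) (hJf : volume J ≠ ∞) (hJ' : MeasurableSet J') (hJf' : volume J' ≠ ∞)
    {a b : K → E} (ha : BM a) (hb : BM b) :
    ‖⟪TT M S y s l V J a, TT M S y s l V J b⟫_ℂ - ⟪TT M S y s l V J' a, TT M S y s l V J' b⟫_ℂ‖ ≤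
      (volume (symmDiff J J')).toReal * (∫ x, ‖a x‖ ∂m) * ∫ x, ‖b x‖ ∂m := by
  have hU : volume (J ∪ J') ≠ ∞ := measure_union_ne_top hJf hJf'
  have hD : volume (symmDiff J J') ≠ ∞ := by
    refine ne_top_of_le_ne_top hU (measure_mono ?_)
    rw [symmDiff_def]
    exact Set.union_subset_union Set.sdiff_subset Set.sdiff_subset
  have hDm : MeasurableSet (s ⁻¹' (symmDiff J J')) := h.ms (hJ.symmDiff hJ')
  have hC : 0 ≤ (∫ x, ‖a x‖ ∂m) * ∫ x, ‖b x‖ ∂m := mul_nonneg (b9_nonneg a) (b9_nonneg b)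
  rw [L2.inner_def, L2.inner_def, ← integral_sub (L2.integrable_inner _ _)
    (L2.integrable_inner _ _)]
  have h5 : ∀ᵐ z ∂M, ‖⟪TT M S y s l V J a z, TT M S y s l V J b z⟫_ℂ -
      ⟪TT M S y s l V J' a z, TT M S y s l V J' b z⟫_ℂ‖ ≤
      (s ⁻¹' (symmDiff J J')).indicator (fun _ => (∫ x, ‖a x‖ ∂m) * ∫ x, ‖b x‖ ∂m) z := by
    filter_upwards [b9_two h hV hJ hJf hJ' hJf' ha, b9_two h hV hJ hJf hJ' hJf' hb,
      TT_bound h herg hV (hJ.union hJ') hU ha, TT_bound h herg hV (hJ.union hJ') hU hb]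
      with z h1 h2 h3 h4
    have h6 : ‖⟪TT M S y s l V (J ∪ J') a z, TT M S y s l V (J ∪ J') b z⟫_ℂ‖ ≤
        (∫ x, ‖a x‖ ∂m) * ∫ x, ‖b x‖ ∂m :=
      (norm_inner_le_norm _ _).trans (mul_le_mul h3 h4 (norm_nonneg _) (b9_nonneg a))
    rw [h1.1, h1.2, h2.1, h2.2]
    by_cases hz : z ∈ s ⁻¹' J <;> by_cases hz' : z ∈ s ⁻¹' J'
    · rw [Set.indicator_of_mem hz, Set.indicator_of_mem hz', Set.indicator_of_mem hz,
        Set.indicator_of_mem hz', sub_self, norm_zero]
      exact Set.indicator_nonneg (fun _ _ => hC) z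
    · rw [Set.indicator_of_mem hz, Set.indicator_of_notMem hz', Set.indicator_of_mem hz,
        Set.indicator_of_notMem hz', inner_zero_left, sub_zero, Set.indicator_of_mem]
      · exact h6
      · exact Set.mem_symmDiff.2 (Or.inl ⟨hz, hz'⟩)
    · rw [Set.indicator_of_notMem hz, Set.indicator_of_mem hz', Set.indicator_of_notMem hz,
        Set.indicator_of_mem hz', inner_zero_left, zero_sub, norm_neg, Set.indicator_of_mem]
      · exact h6
      · exact Set.mem_symmDiff.2 (Or.inr ⟨hz', hz⟩)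
    · rw [Set.indicator_of_notMem hz, Set.indicator_of_notMem hz', Set.indicator_of_notMem hz,
        Set.indicator_of_notMem hz', sub_self, norm_zero]
      exact Set.indicator_nonneg (fun _ _ => hC) z
  refine (norm_integral_le_integral_norm _).trans ?_
  have hint : Integrable ((s ⁻¹' (symmDiff J J')).indicator
      (fun _ => (∫ x, ‖a x‖ ∂m) * ∫ x, ‖b x‖ ∂m)) M := by
    rw [integrable_indicator_iff hDm]
    refine integrableOn_const (by rw [h.meas (hJ.symmDiff hJ')]; exact hD)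
  refine (integral_mono_ae (((L2.integrable_inner _ _).sub (L2.integrable_inner _ _)).norm)
    hint h5).trans (le_of_eq ?_)
  rw [integral_indicator hDm, setIntegral_const, smul_eq_mul, Measure.real,
    h.meas (hJ.symmDiff hJ'), mul_assoc]

/-- monotonicity in `J`, from `TT_restrict` -/
theorem TT_mono (h : Sys u m M S y s l) {V : K → UE E} (hV : Measurable V) {J J' : Set ℝ}
    (hJ : MeasurableSet J) (hJf : volume J ≠ ∞) (hJ' : MeasurableSet J') (hsub : J' ⊆ J)
    {a : K → E} (ha : BM a) : ‖TT M S y s l V J' a‖ ≤ ‖TT M S y s l V J a‖ := by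
  refine Lp.norm_le_norm_of_ae_le ?_
  filter_upwards [TT_restrict h hV hJ hJf hJ' hsub ha] with z hz
  rw [hz]
  exact norm_indicator_le_norm_self _ _

-- END b9

/-! ## row b10: C7 -/

-- BEGIN b10

omit [IsProbabilityMeasure m] [MeasurableSpace E] [BorelSpace E] in
private theorem b10_bm (h : Sys u m M S y s l) {τ : K → UE E} (hτ : Measurable τ) :
    BM fun z => ((τ (y z) : UE E) : E →L[ℂ] E) :=
  bm_ue (hτ.comp h.my)

omit [MeasurableSpace E] [BorelSpace E] in
private theorem b10_int (h : Sys u m M S y s l) {V V' τ : K → UE E} (hV : Measurable V)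
    (hV' : Measurable V') (hτ : Measurable τ) (hi : ∀ᵐ x ∂m, τ (u * x) * V x = V' x * τ x)
    (F : HE E M) :
    mulL (fun z => ((τ (y z) : UE E) : E →L[ℂ] E)) (Uop M S y V F) =
      Uop M S y V' (mulL (fun z => ((τ (y z) : UE E) : E →L[ℂ] E)) F) := by
  have hN := b10_bm h hτ
  refine Lp.ext ?_
  have h1 := mulL_coe hN (Uop M S y V F)
  have h2 := Uop_coe h hV F
  have h3 := Uop_coe h hV' (mulL (fun z => ((τ (y z) : UE E) : E →L[ℂ] E)) F)
  have h4 := h.mp.quasiMeasurePreserving.ae (mulL_coe hN F)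
  have h5 := h.null hi
  filter_upwards [h1, h2, h3, h4, h5] with z e1 e2 e3 e4 e5
  have e6 : (V' (y z))⁻¹ * τ (y (S z)) = τ (y z) * (V (y z))⁻¹ := by
    rw [h.yS, inv_mul_eq_iff_eq_mul, ← mul_assoc, ← e5, mul_inv_cancel_right]
  have e7 := congrArg (fun g : UE E => ((g : UE E) : E →L[ℂ] E) (F (S z))) e6
  rw [e1, e2, e3, e4]
  exact e7.symm

omit [Group K] in
private theorem b10_bma {τ : K → UE E} (hτ : Measurable τ) {a : K → E} (ha : BM a) :
    BM fun x => ((τ x : UE E) : E →L[ℂ] E) (a x) := by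
  obtain ⟨h1, C, hC⟩ := ha
  obtain ⟨h2, -⟩ := bm_ue (E := E) hτ
  refine ⟨?_, C, fun x => ?_⟩
  · exact (isBoundedBilinearMap_apply (𝕜 := ℂ) (E := E) (F := E)).continuous.measurable.comp
      (h2.prodMk h1)
  · rw [ue_apply_norm]
    exact hC x

private theorem b10_W (h : Sys u m M S y s l) {τ : K → UE E} (hτ : Measurable τ)
    {J : Set ℝ} (hJ : MeasurableSet J) (hJf : volume J ≠ ∞) {a : K → E} (ha : BM a) :
    W M y s l J (fun x => ((τ x : UE E) : E →L[ℂ] E) (a x)) =
      mulL (fun z => ((τ (y z) : UE E) : E →L[ℂ] E)) (W M y s l J a) := by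
  refine Lp.ext ?_
  filter_upwards [W_coe h hJ hJf (b10_bma hτ ha), W_coe h hJ hJf ha,
    mulL_coe (b10_bm h hτ) (W M y s l J a)] with z e1 e2 e3
  rw [e1, e3, e2]
  unfold wf
  by_cases hz : z ∈ s ⁻¹' J
  · rw [Set.indicator_of_mem hz, Set.indicator_of_mem hz, map_smul]
  · rw [Set.indicator_of_notMem hz, Set.indicator_of_notMem hz, map_zero]

/-- C7. If `τ(u x) V(x) = V'(x) τ(x)` a.e. then the multiplication by `τ(y z)` intertwines `U_V` and
`U_V'`; `PV_comm`; and it maps `w_J(a)` to `w_J(τ a)`. -/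
theorem TT_gauge (h : Sys u m M S y s l) {V V' τ : K → UE E} (hV : Measurable V)
    (hV' : Measurable V') (hτ : Measurable τ) (hi : ∀ᵐ x ∂m, τ (u * x) * V x = V' x * τ x)
    {J : Set ℝ} (hJ : MeasurableSet J) (hJf : volume J ≠ ∞) {a : K → E} (ha : BM a) :
    TT M S y s l V' J (fun x => ((τ x : UE E) : E →L[ℂ] E) (a x)) =
      mulL (fun z => ((τ (y z) : UE E) : E →L[ℂ] E)) (TT M S y s l V J a) := by
  unfold TT
  rw [PV_comm h hV hV' _ (b10_int h hV hV' hτ hi), b10_W h hτ hJ hJf ha]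

theorem TT_gauge_inner (h : Sys u m M S y s l) {V V' τ : K → UE E} (hV : Measurable V)
    (hV' : Measurable V') (hτ : Measurable τ) (hi : ∀ᵐ x ∂m, τ (u * x) * V x = V' x * τ x)
    {J : Set ℝ} (hJ : MeasurableSet J) (hJf : volume J ≠ ∞) {a b : K → E} (ha : BM a) (hb : BM b) :
    ⟪TT M S y s l V' J (fun x => ((τ x : UE E) : E →L[ℂ] E) (a x)),
      TT M S y s l V' J (fun x => ((τ x : UE E) : E →L[ℂ] E) (b x))⟫_ℂ =
      ⟪TT M S y s l V J a, TT M S y s l V J b⟫_ℂ := by
  rw [TT_gauge h hV hV' hτ hi hJ hJf ha, TT_gauge h hV hV' hτ hi hJ hJf hb]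
  exact (⟨(mulL (fun z => ((τ (y z) : UE E) : E →L[ℂ] E)) : HE E M →L[ℂ] HE E M).toLinearMap,
    fun f => mulL_isom (b10_bm h hτ) (fun z x => ue_apply_norm _ x) f⟩ :
      HE E M →ₗᵢ[ℂ] HE E M).inner_map_map _ _

-- END b10

/-! ## row b11: the averages of `w_J(a)` -/

-- BEGIN b11

/-- `U_V^n w_J(a) (z) = 1_J(s) l(S^n z) V_n(y)⁻¹ a(u^n y)` -/
theorem Uop_pow_W (h : Sys u m M S y s l) {V : K → UE E} (hV : Measurable V) {J : Set ℝ}
    (hJ : MeasurableSet J) (hJf : volume J ≠ ∞) {a : K → E} (ha : BM a) (n : ℕ) :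
    (Uop M S y V ^ n) (W M y s l J a) =ᵐ[M] Set.indicator (s ⁻¹' J) fun z =>
      (l (S^[n] z) : ℂ) • (((itc u V n (y z))⁻¹ : UE E) : E →L[ℂ] E) (a (u ^ n * y z)) := by
  filter_upwards [Uop_pow_coe h hV n (W M y s l J a),
    (h.mp.iterate n).quasiMeasurePreserving.ae (W_coe h hJ hJf ha)] with z e1 e2
  rw [e1, e2]
  unfold wf
  by_cases hz : z ∈ s ⁻¹' J
  · have hz' : S^[n] z ∈ s ⁻¹' J := by
      rw [Set.mem_preimage, h.s_iter]
      exact hz
    rw [Set.indicator_of_mem hz, Set.indicator_of_mem hz', map_smul, h.y_iter]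
  · have hz' : S^[n] z ∉ s ⁻¹' J := by
      rw [Set.mem_preimage, h.s_iter]
      exact hz
    rw [Set.indicator_of_notMem hz, Set.indicator_of_notMem hz', map_zero]

private theorem b11_sum (h : Sys u m M S y s l) {V : K → UE E} (hV : Measurable V) {J : Set ℝ}
    (hJ : MeasurableSet J) (hJf : volume J ≠ ∞) {a : K → E} (ha : BM a) (H : ℕ) :
    (∑ n ∈ Finset.range H, (Uop M S y V ^ n) (W M y s l J a) : HE E M) =ᵐ[M]
      Set.indicator (s ⁻¹' J) fun z => ∑ n ∈ Finset.range H,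
      (l (S^[n] z) : ℂ) • (((itc u V n (y z))⁻¹ : UE E) : E →L[ℂ] E) (a (u ^ n * y z)) := by
  induction H with
  | zero =>
    simp only [Finset.range_zero, Finset.sum_empty]
    filter_upwards [Lp.coeFn_zero E 2 M] with z hz
    rw [hz]
    by_cases hz : z ∈ s ⁻¹' J
    · rw [Set.indicator_of_mem hz]
      rfl
    · rw [Set.indicator_of_notMem hz]
      rfl
  | succ H ih =>
    rw [Finset.sum_range_succ]
    filter_upwards [Lp.coeFn_add (∑ n ∈ Finset.range H, (Uop M S y V ^ n) (W M y s l J a))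
      ((Uop M S y V ^ H) (W M y s l J a)), ih, Uop_pow_W h hV hJ hJf ha H] with z e1 e2 e3
    rw [e1, Pi.add_apply, e2, e3]
    by_cases hz : z ∈ s ⁻¹' J
    · rw [Set.indicator_of_mem hz, Set.indicator_of_mem hz, Set.indicator_of_mem hz,
        Finset.sum_range_succ]
    · rw [Set.indicator_of_notMem hz, Set.indicator_of_notMem hz, Set.indicator_of_notMem hz,
        add_zero]

omit [FiniteDimensional ℂ E] [CompleteSpace E] [MeasurableSpace E] [BorelSpace E] in
private theorem b11_sq (f : HE E M) : ‖f‖ ^ 2 = ∫ z, ‖f z‖ ^ 2 ∂M := by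
  have h1 : (((‖f‖ ^ 2 : ℝ)) : ℂ) = ((∫ z, ‖f z‖ ^ 2 ∂M : ℝ) : ℂ) := by
    rw [← integral_complex_ofReal]
    push_cast
    have h2 : ((‖f‖ : ℝ) : ℂ) ^ 2 = ⟪f, f⟫_ℂ := (inner_self_eq_norm_sq_to_K (𝕜 := ℂ) f).symm
    rw [h2, L2.inner_def]
    refine integral_congr_ae (ae_of_all _ fun z => ?_)
    exact inner_self_eq_norm_sq_to_K (𝕜 := ℂ) (f z)
  exact_mod_cast h1

private theorem b11_norm (h : Sys u m M S y s l) {V : K → UE E} (hV : Measurable V) {J : Set ℝ}
    (hJ : MeasurableSet J) (hJf : volume J ≠ ∞) {a : K → E} (ha : BM a) (H : ℕ) :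
    ‖((H : ℂ)⁻¹) • ∑ n ∈ Finset.range H, (Uop M S y V ^ n) (W M y s l J a)‖ ^ 2 =
      ∫ z in s ⁻¹' J, ‖((H : ℂ)⁻¹) • ∑ n ∈ Finset.range H,
      (l (S^[n] z) : ℂ) • (((itc u V n (y z))⁻¹ : UE E) : E →L[ℂ] E) (a (u ^ n * y z))‖ ^ 2 ∂M := by
  rw [b11_sq, ← integral_indicator (h.ms hJ)]
  refine integral_congr_ae ?_
  filter_upwards [Lp.coeFn_smul ((H : ℂ)⁻¹)
    (∑ n ∈ Finset.range H, (Uop M S y V ^ n) (W M y s l J a) : HE E M),
    b11_sum h hV hJ hJf ha H] with z e1 e2
  rw [e1, Pi.smul_apply, e2]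
  by_cases hz : z ∈ s ⁻¹' J
  · rw [Set.indicator_of_mem hz, Set.indicator_of_mem hz]
  · rw [Set.indicator_of_notMem hz, Set.indicator_of_notMem hz, smul_zero, norm_zero]
    norm_num

/-- if `T_J a = 0` then the mean squares of the averages tend to `0` -/
theorem avg_tendsto (h : Sys u m M S y s l) {V : K → UE E} (hV : Measurable V) {J : Set ℝ}
    (hJ : MeasurableSet J) (hJf : volume J ≠ ∞) {a : K → E} (ha : BM a)
    (h0 : TT M S y s l V J a = 0) :
    Tendsto (fun H : ℕ => ∫ z in s ⁻¹' J, ‖((H : ℂ)⁻¹) • ∑ n ∈ Finset.range H,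
      (l (S^[n] z) : ℂ) • (((itc u V n (y z))⁻¹ : UE E) : E →L[ℂ] E) (a (u ^ n * y z))‖ ^ 2 ∂M)
      atTop (𝓝 0) := by
  have h1 := PV_tendsto h hV (W M y s l J a)
  have h2 : PV M S y V (W M y s l J a) = 0 := h0
  rw [h2] at h1
  have h3 := (h1.norm).pow 2
  rw [norm_zero, zero_pow two_ne_zero] at h3
  refine h3.congr fun H => ?_
  exact b11_norm h hV hJ hJf ha H

/-- (used for the van der Corput step T5) -/
theorem TT_avg_le (h : Sys u m M S y s l) {V : K → UE E} (hV : Measurable V) {J : Set ℝ}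
    (hJ : MeasurableSet J) (hJf : volume J ≠ ∞) {a : K → E} (ha : BM a) {H : ℕ} (hH : 0 < H) :
    ‖TT M S y s l V J a‖ ^ 2 ≤ ∫ z in s ⁻¹' J, ‖((H : ℂ)⁻¹) • ∑ n ∈ Finset.range H,
      (l (S^[n] z) : ℂ) • (((itc u V n (y z))⁻¹ : UE E) : E →L[ℂ] E) (a (u ^ n * y z))‖ ^ 2 ∂M := by
  rw [← b11_norm h hV hJ hJf ha H]
  exact pow_le_pow_left₀ (norm_nonneg _) (PV_avg_le h hV (W M y s l J a) hH) 2

-- END b11

end ops

end Pool.Agent.S7C
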