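import Pool.Agent.S7.Defs

/-!
# S7 (MP_13664e_an), block C: cocycles, operators on `L²(M; E)`, definitions (helper69)

`K` is a compact metrizable group, `m` its normalised Haar measure, `u : K`; `E` a finite dimensional
Hilbert space, `UE E` its unitary group. A cocycle is a measurable map `V : K → UE E` (or a map
`c : K → Γ` to a finite group, composed with a representation). `HE E M = L²(M; E)`.
-/

set_option autoImplicit false

namespace Pool.Agent.S7C

open MeasureTheory Filter Topology ENNReal
open Pool.Agent.S7 (itc Dq Kq rt Vq)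

/-- the unitary group of `E` -/
abbrev UE (E : Type*) [NormedAddCommGroup E] [InnerProductSpace ℂ E] [CompleteSpace E] : Type _ :=
  unitary (E →L[ℂ] E)

/-- bounded measurable functions -/
def BM {X W : Type*} [MeasurableSpace X] [MeasurableSpace W] [Norm W] (a : X → W) : Prop :=
  Measurable a ∧ ∃ C : ℝ, ∀ x, ‖a x‖ ≤ C

/-! ## cocycles -/

section cocycles

variable {K G : Type*} [Group K] [Group G]

/-- `c` cannot be reduced to a smaller group: equivariant measurable families of subsets are trivial -/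
def Min [MeasurableSpace K] (u : K) (m : Measure K) (c : K → G) : Prop :=
  ∀ A : K → Set G, (∀ g, MeasurableSet {y | g ∈ A y}) →
    (∀ᵐ y ∂m, ∀ g, g ∈ A (u * y) ↔ (c y)⁻¹ * g ∈ A y) →
    (∀ᵐ y ∂m, A y = ∅) ∨ (∀ᵐ y ∂m, A y = Set.univ)

end cocycles

section rep

variable {E : Type*} [NormedAddCommGroup E] [InnerProductSpace ℂ E] [CompleteSpace E]

/-- irreducibility (in the form of Schur's lemma) -/
def Irr {G : Type*} [Group G] (ρ : G →* UE E) : Prop :=
  ∀ A : E →L[ℂ] E, (∀ g, ((ρ g : UE E) : E →L[ℂ] E) * A = A * ((ρ g : UE E) : E →L[ℂ] E)) →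
    ∃ t : ℂ, A = t • (1 : E →L[ℂ] E)

variable {K : Type*} [Group K] [MeasurableSpace K]

/-- `N` intertwines `V` and `V'` -/
def Twn (u : K) (m : Measure K) (V V' : K → UE E) (N : K → E →L[ℂ] E) : Prop :=
  ∀ᵐ y ∂m, N (u * y) * ((V y : UE E) : E →L[ℂ] E) = ((V' y : UE E) : E →L[ℂ] E) * N y

/-- `V` and `V'` are disjoint: there are no intertwiners -/
def Disj (u : K) (m : Measure K) (V V' : K → UE E) : Prop :=
  ∀ N : K → E →L[ℂ] E, BM N → Twn u m V V' N → ∀ᵐ y ∂m, N y = 0

end rep

/-! ## the skew system -/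

section sys

variable {K Z : Type*} [Group K] [MeasurableSpace K] [MeasurableSpace Z]

/-- the part of the axioms of a dilation system which does not mention the dilations -/
structure Sys (u : K) (m : Measure K) (M : Measure Z) (S : Z → Z) (y : Z → K) (s l : Z → ℝ) :
    Prop where
  mp : MeasurePreserving S M M
  my : Measurable y
  ms : Measurable s
  ml : Measurable l
  yS : ∀ z, y (S z) = u * y z
  sS : ∀ z, s (S z) = s z
  lpm : ∀ z, l z = 1 ∨ l z = -1
  law : M.map (fun z => (y z, s z)) = m.prod volume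

end sys

/-- `L²(M; E)` -/
abbrev HE {Z : Type*} [MeasurableSpace Z] (E : Type*) [NormedAddCommGroup E] (M : Measure Z) : Type _ :=
  Lp E 2 M

/-! ## multiplication operators -/

section mul

variable {Z : Type*} [MeasurableSpace Z] {M : Measure Z}
  {E F : Type*} [NormedAddCommGroup E] [InnerProductSpace ℂ E]
  [NormedAddCommGroup F] [InnerProductSpace ℂ F] [FiniteDimensional ℂ E] [FiniteDimensional ℂ F]

lemma mul_aesm {A : Z → E →L[ℂ] F} (hA : Measurable A) {f : Z → E}
    (hf : AEStronglyMeasurable f M) : AEStronglyMeasurable (fun z => A z (f z)) M := by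
  have h1 : StronglyMeasurable A := hA.stronglyMeasurable
  exact (isBoundedBilinearMap_apply (𝕜 := ℂ) (E := E) (F := F)).continuous.comp_aestronglyMeasurable
    (h1.aestronglyMeasurable.prodMk hf)

lemma mul_memLp {A : Z → E →L[ℂ] F} (hA : BM A) {f : Z → E} (hf : MemLp f 2 M) :
    MemLp (fun z => A z (f z)) 2 M := by
  obtain ⟨h1, C, hC⟩ := hA
  refine MemLp.of_le_mul (c := C) hf (mul_aesm h1 hf.1) (ae_of_all _ fun z => ?_)
  exact (A z).le_of_opNorm_le (hC z) (f z)

open Classical in
/-- multiplication by the bounded measurable function `A` -/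
noncomputable def mulL (A : Z → E →L[ℂ] F) : HE E M →L[ℂ] HE F M :=
  if h : BM A then
    LinearMap.mkContinuousOfExistsBound
      { toFun := fun f => (mul_memLp h (Lp.memLp f)).toLp
        map_add' := fun f g => by
          rw [← MemLp.toLp_add]
          refine MemLp.toLp_congr _ _ ?_
          filter_upwards [Lp.coeFn_add f g] with z hz
          rw [Pi.add_apply, hz, Pi.add_apply, map_add]
        map_smul' := fun c f => by
          rw [RingHom.id_apply, ← MemLp.toLp_const_smul]
          refine MemLp.toLp_congr _ _ ?_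
          filter_upwards [Lp.coeFn_smul c f] with z hz
          rw [Pi.smul_apply, hz, Pi.smul_apply, map_smul] }
      ⟨h.2.choose, fun f => by
        refine Lp.norm_le_mul_norm_of_ae_le_mul ?_
        have hc := MemLp.coeFn_toLp (mul_memLp (M := M) h (Lp.memLp f))
        filter_upwards [hc] with z hz
        change ‖(MemLp.toLp (fun z => A z (f z)) (mul_memLp h (Lp.memLp f))) z‖ ≤ _
        rw [hz]
        exact (A z).le_of_opNorm_le (h.2.choose_spec z) (f z)⟩
  else 0

theorem mulL_coe {A : Z → E →L[ℂ] F} (hA : BM A) (f : HE E M) :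
    mulL A f =ᵐ[M] fun z => A z (f z) := by
  rw [mulL, dif_pos hA]
  exact MemLp.coeFn_toLp (mul_memLp (M := M) hA (Lp.memLp f))

end mul

/-! ## the operators `U_V`, `P_V`, `T_J` -/

section ops

variable {K Z : Type*} [MeasurableSpace K] [MeasurableSpace Z] (M : Measure Z) (S : Z → Z)
  (y : Z → K) (s l : Z → ℝ)
  {E : Type*} [NormedAddCommGroup E] [InnerProductSpace ℂ E] [FiniteDimensional ℂ E] [CompleteSpace E]

open Classical in
/-- `F ↦ F ∘ S` -/
noncomputable def KS (E : Type*) [NormedAddCommGroup E] [InnerProductSpace ℂ E] : HE E M →L[ℂ] HE E M :=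
  if h : MeasurePreserving S M M then (Lp.compMeasurePreservingₗᵢ ℂ S h).toContinuousLinearMap else 0

/-- `U_V F (z) = V(y z)⁻¹ F(S z)` -/
noncomputable def Uop (V : K → UE E) : HE E M →L[ℂ] HE E M :=
  (mulL fun z => (((V (y z))⁻¹ : UE E) : E →L[ℂ] E)) ∘L KS M S E

/-- the projection on the vectors fixed by `U_V` -/
noncomputable def PV (V : K → UE E) : HE E M →L[ℂ] HE E M :=
  ((Uop M S y V).eqLocus (1 : HE E M →L[ℂ] HE E M)).starProjection

/-- `w_J(a)(z) = 1_J(s z) l(z) a(y z)` -/
noncomputable def wf (J : Set ℝ) (a : K → E) : Z → E :=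
  Set.indicator (s ⁻¹' J) fun z => (l z : ℂ) • a (y z)

open Classical in
/-- `w_J(a)` as an element of `L²(M; E)` -/
noncomputable def W (J : Set ℝ) (a : K → E) : HE E M :=
  if h : MemLp (wf y s l J a) 2 M then h.toLp else 0

/-- `T_J a = P_V w_J(a)` -/
noncomputable def TT (V : K → UE E) (J : Set ℝ) (a : K → E) : HE E M :=
  PV M S y V (W M y s l J a)

end ops

end Pool.Agent.S7C
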